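import Pool.Agent.AAT.Defs

/-!
# AAT-Rad: the radius depends only on the fringe

PLAN. (a) For `w ∈ fr p v` and `j ≤ dep p v w` the iterates `p^[j] w` lie in `fr p v`, and for
`j < dep p v w` they differ from `v` (minimality); so `(cut (fr p v) v p)^[j] w = p^[j] w` for
`j ≤ dep p v w`. Points outside `fr p v` are fixed by `cut (fr p v) v p` and differ from `v`
(`v ∈ fr p v`). Hence `fr_cut`, equality of `dep`, `ht`, `rad`, `hgt`. (b) `rad_congr`: `ht` only uses
`e (p^[j] w)`, `j < dep`. (c) `dep_inj`: if `p^[i] w = p^[j] w` with `i < j < dep p v w` then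
`p^[dep - (j - i)] w = v`, contradicting minimality. (d) `dep p v w < (fr p v).card`: the points
`p^[j] w`, `j ≤ dep p v w`, are distinct and lie in `fr p v`. (e) `|ht| ≤ dep`. (f) `fr_forest`:
points of `S` reach `v`, all other points are fixed by `q` and are not `v`.
-/

set_option autoImplicit false

namespace Pool.AAT

open Finset
open scoped Classical

variable {α : Type} [Fintype α]

private theorem mem_fr {p : α → α} {v w : α} : w ∈ fr p v ↔ ∃ i : ℕ, p^[i] w = v := by
  unfold fr
  rw [mem_filter]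
  exact ⟨fun h => h.2, fun h => ⟨mem_univ _, h⟩⟩

private theorem dep_spec {p : α → α} {v w : α} (hw : w ∈ fr p v) : p^[dep p v w] w = v := by
  have h := mem_fr.1 hw
  unfold dep
  rw [dif_pos h]
  exact Nat.find_spec h

omit [Fintype α] in
private theorem dep_min {p : α → α} {v w : α} {j : ℕ} (hj : j < dep p v w) : p^[j] w ≠ v := by
  unfold dep at hj
  split_ifs at hj with h
  · exact Nat.find_min h hj
  · omega

omit [Fintype α] in
private theorem dep_eq {p : α → α} {v w : α} {n : ℕ} (h1 : p^[n] w = v)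
    (h2 : ∀ j < n, p^[j] w ≠ v) : dep p v w = n := by
  have h : ∃ i : ℕ, p^[i] w = v := ⟨n, h1⟩
  unfold dep
  rw [dif_pos h]
  exact (Nat.find_eq_iff h).2 ⟨h1, fun m hm => h2 m hm⟩

private theorem iter_mem {p : α → α} {v w : α} {j : ℕ} (hw : w ∈ fr p v) (hj : j ≤ dep p v w) :
    p^[j] w ∈ fr p v := by
  rw [mem_fr]
  refine ⟨dep p v w - j, ?_⟩
  rw [← Function.iterate_add_apply, Nat.sub_add_cancel hj]
  exact dep_spec hw

theorem mem_fr_self (p : α → α) (v : α) : v ∈ fr p v := mem_fr.2 ⟨0, rfl⟩

private theorem cut_iter {p : α → α} {v w : α} (hw : w ∈ fr p v) (j : ℕ) (hj : j ≤ dep p v w) :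
    (cut (fr p v) v p)^[j] w = p^[j] w := by
  induction j with
  | zero => rfl
  | succ j ih =>
    rw [Function.iterate_succ_apply', ih (by omega), Function.iterate_succ_apply']
    unfold cut
    exact if_pos ⟨iter_mem hw (by omega), dep_min (by omega)⟩

private theorem cut_out {p : α → α} {v w : α} (hw : w ∉ fr p v) (j : ℕ) :
    (cut (fr p v) v p)^[j] w = w := by
  induction j with
  | zero => rfl
  | succ j ih =>
    rw [Function.iterate_succ_apply', ih]
    unfold cut
    exact if_neg fun h => hw h.1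

theorem fr_cut (p : α → α) (v : α) : fr (cut (fr p v) v p) v = fr p v := by
  ext w
  constructor
  · intro h
    by_contra hw
    obtain ⟨i, hi⟩ := mem_fr.1 h
    rw [cut_out hw] at hi
    rw [hi] at hw
    exact hw (mem_fr_self p v)
  · intro hw
    rw [mem_fr]
    exact ⟨dep p v w, by rw [cut_iter hw _ le_rfl, dep_spec hw]⟩

theorem dep_cut (p : α → α) (v w : α) (hw : w ∈ fr p v) :
    dep (cut (fr p v) v p) v w = dep p v w := by
  refine dep_eq ?_ fun j hj => ?_
  · rw [cut_iter hw _ le_rfl, dep_spec hw]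
  · rw [cut_iter hw _ hj.le]
    exact dep_min hj

theorem rad_cut (p : α → α) (e : α → Bool) (v : α) :
    rad (cut (fr p v) v p) e v = rad p e v := by
  unfold rad
  rw [fr_cut]
  refine Finset.sup_congr rfl fun w hw => ?_
  unfold ht
  rw [dep_cut p v w hw]
  congr 1
  refine Finset.sum_congr rfl fun j hj => ?_
  rw [cut_iter hw j (mem_range.1 hj).le]

theorem hgt_cut (p : α → α) (v : α) : hgt (cut (fr p v) v p) v = hgt p v := by
  unfold hgt
  rw [fr_cut]
  exact Finset.sup_congr rfl fun w hw => dep_cut p v w hw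

theorem rad_congr (p : α → α) (e e' : α → Bool) (v : α)
    (h : ∀ x ∈ fr p v, x ≠ v → e x = e' x) : rad p e v = rad p e' v := by
  unfold rad
  refine Finset.sup_congr rfl fun w hw => ?_
  unfold ht
  congr 1
  refine Finset.sum_congr rfl fun j hj => ?_
  rw [h _ (iter_mem hw (mem_range.1 hj).le) (dep_min (mem_range.1 hj))]

theorem dep_inj (p : α → α) (v w : α) (hw : w ∈ fr p v) :
    Set.InjOn (fun j => p^[j] w) (range (dep p v w) : Set ℕ) := by
  have key : ∀ i j, i < j → j < dep p v w → p^[i] w ≠ p^[j] w := by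
    intro i j hij hj h
    have h1 : p^[dep p v w - j + i] w = v := by
      rw [Function.iterate_add_apply, h, ← Function.iterate_add_apply, Nat.sub_add_cancel hj.le]
      exact dep_spec hw
    exact dep_min (by omega) h1
  intro i hi j hj h
  rw [mem_coe, mem_range] at hi hj
  rcases lt_trichotomy i j with hl | hl | hl
  · exact absurd h (key i j hl hj)
  · exact hl
  · exact absurd h.symm (key j i hl hi)

theorem hgt_lt (p : α → α) (v : α) : hgt p v < (fr p v).card := by
  unfold hgt
  have hpos : 0 < (fr p v).card := card_pos.2 ⟨v, mem_fr_self p v⟩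
  rw [Finset.sup_lt_iff hpos]
  intro w hw
  have h1 : (insert v ((range (dep p v w)).image fun j => p^[j] w)) ⊆ fr p v := by
    intro x hx
    rw [mem_insert, mem_image] at hx
    rcases hx with rfl | ⟨j, hj, rfl⟩
    · exact mem_fr_self _ _
    · exact iter_mem hw (mem_range.1 hj).le
  have h2 : v ∉ (range (dep p v w)).image fun j => p^[j] w := by
    rw [mem_image]
    rintro ⟨j, hj, hj'⟩
    exact dep_min (mem_range.1 hj) hj'
  have h3 := card_le_card h1
  rw [card_insert_of_notMem h2, card_image_of_injOn (dep_inj p v w hw), card_range] at h3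
  omega

theorem rad_le_hgt (p : α → α) (e : α → Bool) (v : α) : rad p e v ≤ hgt p v := by
  unfold rad hgt
  refine Finset.sup_mono_fun fun w _ => ?_
  unfold ht
  calc (∑ j ∈ range (dep p v w), sg (e (p^[j] w))).natAbs
      ≤ ∑ j ∈ range (dep p v w), (sg (e (p^[j] w))).natAbs := Int.natAbs_sum_le _ _
    _ ≤ ∑ _j ∈ range (dep p v w), 1 := by
        refine Finset.sum_le_sum fun j _ => ?_
        unfold sg
        split_ifs <;> simp
    _ = dep p v w := by simp

theorem fr_forest (S : Finset α) (v : α) (hv : v ∈ S) (q : α → α) (hq : q ∈ Forest S {v}) :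
    fr q v = S := by
  unfold Forest at hq
  rw [mem_filter] at hq
  obtain ⟨_, h1, _, h3⟩ := hq
  ext w
  constructor
  · intro hw
    by_contra hwS
    have h4 : q w = w := h1 w fun h => hwS (mem_sdiff.1 h).1
    have h5 : ∀ i : ℕ, q^[i] w = w := fun i => Function.iterate_fixed h4 i
    obtain ⟨i, hi⟩ := mem_fr.1 hw
    rw [h5] at hi
    exact hwS (hi ▸ hv)
  · intro hw
    obtain ⟨i, hi⟩ := h3 w hw
    exact mem_fr.2 ⟨i, mem_singleton.1 hi⟩

end Pool.AAT
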