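import Pool.Agent.AAT.Defs

/-!
# AAT-Split: the factorisation of a rooted tree at a vertex

The map `p ↦ (cut S v p, p v, cut (V \ S) r p)` is a bijection from
`{p ∈ Forest V {r} | fr p v = S}` onto `Forest S {v} × (V \ S) × Forest (V \ S) {r}`.
-/

set_option autoImplicit false

namespace Pool.AAT

open Finset
open scoped Classical

variable {α : Type} [Fintype α]

private theorem mem_Forest {V R : Finset α} {p : α → α} : p ∈ Forest V R ↔
    (∀ x, x ∉ V \ R → p x = x) ∧ (∀ x ∈ V \ R, p x ∈ V) ∧ ∀ x ∈ V, ∃ i : ℕ, p^[i] x ∈ R := by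
  unfold Forest
  rw [Finset.mem_filter]
  exact ⟨fun h => h.2, fun h => ⟨Finset.mem_univ _, h⟩⟩

private theorem mem_fr {p : α → α} {v w : α} : w ∈ fr p v ↔ ∃ i : ℕ, p^[i] w = v := by
  unfold fr
  rw [Finset.mem_filter]
  exact ⟨fun h => h.2, fun h => ⟨Finset.mem_univ _, h⟩⟩

private theorem reach_of {U : Finset α} {f p : α → α} {t : α}
    (h : ∀ x ∈ U, x ≠ t → f x = p x ∧ p x ∈ U) :
    ∀ (i : ℕ) (x : α), x ∈ U → p^[i] x = t → ∃ k : ℕ, f^[k] x = t := by
  intro i
  induction i with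
  | zero => exact fun x _ hx => ⟨0, hx⟩
  | succ i ih =>
    intro x hx hi
    by_cases hxt : x = t
    · exact ⟨0, hxt⟩
    · obtain ⟨h1, h2⟩ := h x hx hxt
      rw [Function.iterate_succ_apply] at hi
      obtain ⟨k, hk⟩ := ih (p x) h2 hi
      exact ⟨k + 1, by rw [Function.iterate_succ_apply, h1]; exact hk⟩

private theorem cut_pos {S : Finset α} {v : α} {p : α → α} {x : α} (hx : x ∈ S) (hv : x ≠ v) :
    cut S v p x = p x := if_pos ⟨hx, hv⟩

private theorem cut_neg {S : Finset α} {v : α} {p : α → α} {x : α} (h : x ∉ S \ {v}) :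
    cut S v p x = x := by
  refine if_neg fun h2 => h ?_
  rw [Finset.mem_sdiff, Finset.mem_singleton]
  exact h2

/-- the parent function with given parts -/
private noncomputable def glue (S : Finset α) (v : α) (q : α → α) (y : α) (q' : α → α) : α → α :=
  fun x => if x ∈ S ∧ x ≠ v then q x else if x = v then y else q' x

private theorem glue_S {S : Finset α} {v : α} {q : α → α} {y : α} {q' : α → α} {x : α}
    (hx : x ∈ S) (hv : x ≠ v) : glue S v q y q' x = q x := if_pos ⟨hx, hv⟩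

private theorem glue_v {S : Finset α} {v : α} {q : α → α} {y : α} {q' : α → α} :
    glue S v q y q' v = y := by
  unfold glue
  rw [if_neg (fun h => h.2 rfl), if_pos rfl]

private theorem glue_o {S : Finset α} {v : α} {q : α → α} {y : α} {q' : α → α} {x : α}
    (hx : x ∉ S) (hv : v ∈ S) : glue S v q y q' x = q' x := by
  unfold glue
  rw [if_neg (fun h => hx h.1), if_neg]
  rintro rfl
  exact hx hv

private theorem cut1_mem {V S : Finset α} {r v : α} {p : α → α}
    (hS : fr p v = S) (_hp : p ∈ Forest V {r}) : cut S v p ∈ Forest S {v} := by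
  have hstep : ∀ x ∈ S, x ≠ v → cut S v p x = p x ∧ p x ∈ S := by
    intro x hx hxv
    refine ⟨cut_pos hx hxv, ?_⟩
    rw [← hS] at hx ⊢
    obtain ⟨i, hi⟩ := mem_fr.1 hx
    cases i with
    | zero => exact absurd hi hxv
    | succ i =>
      rw [Function.iterate_succ_apply] at hi
      exact mem_fr.2 ⟨i, hi⟩
  refine mem_Forest.2 ⟨fun x hx => cut_neg hx, ?_, ?_⟩
  · intro x hx
    rw [Finset.mem_sdiff, Finset.mem_singleton] at hx
    obtain ⟨h1, h2⟩ := hstep x hx.1 hx.2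
    rw [h1]
    exact h2
  · intro x hx
    have hx' := hx
    rw [← hS] at hx'
    obtain ⟨i, hi⟩ := mem_fr.1 hx'
    obtain ⟨k, hk⟩ := reach_of hstep i x hx hi
    exact ⟨k, Finset.mem_singleton.2 hk⟩

private theorem root_fix {V : Finset α} {r : α} {p : α → α} (hp : p ∈ Forest V {r}) : p r = r :=
  (mem_Forest.1 hp).1 r fun h => (Finset.mem_sdiff.1 h).2 (Finset.mem_singleton_self r)

private theorem pv_mem {V S : Finset α} {r v : α} {p : α → α} (hv : v ∈ S) (hSV : S ⊆ V)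
    (hrS : r ∉ S) (hS : fr p v = S) (hp : p ∈ Forest V {r}) : p v ∈ V \ S := by
  have hvr : v ≠ r := by
    rintro rfl
    exact hrS hv
  rw [Finset.mem_sdiff]
  refine ⟨(mem_Forest.1 hp).2.1 v ?_, ?_⟩
  · rw [Finset.mem_sdiff, Finset.mem_singleton]
    exact ⟨hSV hv, hvr⟩
  · intro h
    rw [← hS] at h
    obtain ⟨i, hi⟩ := mem_fr.1 h
    rw [← Function.iterate_succ_apply] at hi
    obtain ⟨k, hk⟩ := (mem_Forest.1 hp).2.2 v (hSV hv)
    rw [Finset.mem_singleton] at hk
    have h1 : ∀ m : ℕ, (p^[i + 1])^[m] v = v := fun m => Function.iterate_fixed hi m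
    have h2 : ∀ m : ℕ, p^[m] r = r := fun m => Function.iterate_fixed (root_fix hp) m
    have h3 : p^[(i + 1) * k] v = v := by
      rw [Function.iterate_mul]
      exact h1 k
    have h4 : (i + 1) * k = i * k + k := by ring
    rw [h4, Function.iterate_add_apply, hk, h2] at h3
    exact hvr h3.symm

private theorem cut2_mem {V S : Finset α} {r v : α} {p : α → α}
    (hS : fr p v = S) (hp : p ∈ Forest V {r}) : cut (V \ S) r p ∈ Forest (V \ S) {r} := by
  have hstep : ∀ x ∈ V \ S, x ≠ r → cut (V \ S) r p x = p x ∧ p x ∈ V \ S := by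
    intro x hx hxr
    refine ⟨cut_pos hx hxr, ?_⟩
    obtain ⟨hxV, hxS⟩ := Finset.mem_sdiff.1 hx
    rw [Finset.mem_sdiff]
    refine ⟨(mem_Forest.1 hp).2.1 x ?_, fun h => hxS ?_⟩
    · rw [Finset.mem_sdiff, Finset.mem_singleton]
      exact ⟨hxV, hxr⟩
    · rw [← hS] at h ⊢
      obtain ⟨i, hi⟩ := mem_fr.1 h
      exact mem_fr.2 ⟨i + 1, by rw [Function.iterate_succ_apply]; exact hi⟩
  refine mem_Forest.2 ⟨fun x hx => cut_neg hx, ?_, ?_⟩
  · intro x hx
    rw [Finset.mem_sdiff, Finset.mem_singleton] at hx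
    obtain ⟨h1, h2⟩ := hstep x hx.1 hx.2
    rw [h1]
    exact h2
  · intro x hx
    obtain ⟨i, hi⟩ := (mem_Forest.1 hp).2.2 x (Finset.mem_sdiff.1 hx).1
    obtain ⟨k, hk⟩ := reach_of hstep i x hx (Finset.mem_singleton.1 hi)
    exact ⟨k, Finset.mem_singleton.2 hk⟩

private theorem glue_mem {V S : Finset α} {r v y : α} {q q' : α → α} (hr : r ∈ V) (hv : v ∈ S)
    (hSV : S ⊆ V) (hrS : r ∉ S) (hq : q ∈ Forest S {v}) (hy : y ∈ V \ S)
    (hq' : q' ∈ Forest (V \ S) {r}) :
    glue S v q y q' ∈ Forest V {r} ∧ fr (glue S v q y q') v = S := by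
  obtain ⟨hq1, hq2, hq3⟩ := mem_Forest.1 hq
  obtain ⟨hq1', hq2', hq3'⟩ := mem_Forest.1 hq'
  have hvr : v ≠ r := by
    rintro rfl
    exact hrS hv
  have st1 : ∀ x ∈ S, x ≠ v → glue S v q y q' x = q x ∧ q x ∈ S := by
    intro x hx hxv
    refine ⟨glue_S hx hxv, hq2 x ?_⟩
    rw [Finset.mem_sdiff, Finset.mem_singleton]
    exact ⟨hx, hxv⟩
  have st2 : ∀ x ∈ V \ S, x ≠ r → glue S v q y q' x = q' x ∧ q' x ∈ V \ S := by
    intro x hx hxr
    refine ⟨glue_o (Finset.mem_sdiff.1 hx).2 hv, hq2' x ?_⟩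
    rw [Finset.mem_sdiff, Finset.mem_singleton]
    exact ⟨hx, hxr⟩
  have reachr : ∀ x ∈ V \ S, ∃ i : ℕ, (glue S v q y q')^[i] x = r := by
    intro x hx
    obtain ⟨i, hi⟩ := hq3' x hx
    exact reach_of st2 i x hx (Finset.mem_singleton.1 hi)
  have reachv : ∀ x ∈ S, ∃ i : ℕ, (glue S v q y q')^[i] x = v := by
    intro x hx
    obtain ⟨i, hi⟩ := hq3 x hx
    exact reach_of st1 i x hx (Finset.mem_singleton.1 hi)
  have stay : ∀ x, x ∉ S → glue S v q y q' x ∉ S := by
    intro x hx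
    rw [glue_o hx hv]
    by_cases h : x ∈ (V \ S) \ {r}
    · exact (Finset.mem_sdiff.1 (hq2' x h)).2
    · rw [hq1' x h]
      exact hx
  have stays : ∀ (i : ℕ) (x : α), x ∉ S → (glue S v q y q')^[i] x ∉ S := by
    intro i
    induction i with
    | zero => exact fun x hx => hx
    | succ i ih =>
      intro x hx
      rw [Function.iterate_succ_apply]
      exact ih _ (stay x hx)
  refine ⟨mem_Forest.2 ⟨?_, ?_, ?_⟩, ?_⟩
  · intro x hx
    have hxS : x ∉ S := by
      intro h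
      apply hx
      rw [Finset.mem_sdiff, Finset.mem_singleton]
      refine ⟨hSV h, ?_⟩
      rintro rfl
      exact hrS h
    rw [glue_o hxS hv]
    apply hq1'
    intro h
    apply hx
    rw [Finset.mem_sdiff] at h ⊢
    exact ⟨(Finset.mem_sdiff.1 h.1).1, h.2⟩
  · intro x hx
    rw [Finset.mem_sdiff, Finset.mem_singleton] at hx
    by_cases hxS : x ∈ S
    · by_cases hxv : x = v
      · rw [hxv, glue_v]
        exact (Finset.mem_sdiff.1 hy).1
      · obtain ⟨h1, h2⟩ := st1 x hxS hxv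
        rw [h1]
        exact hSV h2
    · obtain ⟨h1, h2⟩ := st2 x (Finset.mem_sdiff.2 ⟨hx.1, hxS⟩) hx.2
      rw [h1]
      exact (Finset.mem_sdiff.1 h2).1
  · intro x hx
    by_cases hxS : x ∈ S
    · obtain ⟨k, hk⟩ := reachv x hxS
      obtain ⟨m, hm⟩ := reachr y hy
      refine ⟨m + 1 + k, Finset.mem_singleton.2 ?_⟩
      rw [Function.iterate_add_apply, hk, Function.iterate_succ_apply, glue_v]
      exact hm
    · obtain ⟨k, hk⟩ := reachr x (Finset.mem_sdiff.2 ⟨hx, hxS⟩)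
      exact ⟨k, Finset.mem_singleton.2 hk⟩
  · ext x
    rw [mem_fr]
    constructor
    · rintro ⟨i, hi⟩
      by_contra hxS
      exact stays i x hxS (by rw [hi]; exact hv)
    · exact reachv x

theorem fringe_split (V S : Finset α) (r v : α) (hr : r ∈ V) (hv : v ∈ S) (hSV : S ⊆ V)
    (hrS : r ∉ S) (Φ : (α → α) → α → (α → α) → ℝ) :
    ∑ p ∈ (Forest V {r}).filter (fun p => fr p v = S),
        Φ (cut S v p) (p v) (cut (V \ S) r p) =
      ∑ q ∈ Forest S {v}, ∑ y ∈ V \ S, ∑ q' ∈ Forest (V \ S) {r}, Φ q y q' := by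
  have hR : ∑ q ∈ Forest S {v}, ∑ y ∈ V \ S, ∑ q' ∈ Forest (V \ S) {r}, Φ q y q' =
      ∑ z ∈ Forest S {v} ×ˢ ((V \ S) ×ˢ Forest (V \ S) {r}), Φ z.1 z.2.1 z.2.2 := by
    rw [Finset.sum_product]
    refine Finset.sum_congr rfl fun q _ => ?_
    rw [Finset.sum_product]
  rw [hR]
  refine Finset.sum_bij' (fun p _ => (cut S v p, p v, cut (V \ S) r p))
    (fun z _ => glue S v z.1 z.2.1 z.2.2) ?_ ?_ ?_ ?_ ?_
  · intro p hp
    obtain ⟨hp1, hp2⟩ := Finset.mem_filter.1 hp
    rw [Finset.mem_product, Finset.mem_product]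
    exact ⟨cut1_mem hp2 hp1, pv_mem hv hSV hrS hp2 hp1, cut2_mem hp2 hp1⟩
  · intro z hz
    rw [Finset.mem_product, Finset.mem_product] at hz
    obtain ⟨h1, h2⟩ := glue_mem hr hv hSV hrS hz.1 hz.2.1 hz.2.2
    exact Finset.mem_filter.2 ⟨h1, h2⟩
  · intro p hp
    obtain ⟨hp1, hp2⟩ := Finset.mem_filter.1 hp
    funext x
    by_cases hxS : x ∈ S
    · by_cases hxv : x = v
      · rw [hxv]
        exact glue_v
      · exact (glue_S hxS hxv).trans (cut_pos hxS hxv)
    · refine (glue_o hxS hv).trans ?_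
      by_cases h : x ∈ (V \ S) \ {r}
      · rw [Finset.mem_sdiff, Finset.mem_singleton] at h
        exact cut_pos h.1 h.2
      · refine (cut_neg h).trans ((mem_Forest.1 hp1).1 x ?_).symm
        intro h2
        apply h
        rw [Finset.mem_sdiff] at h2 ⊢
        exact ⟨Finset.mem_sdiff.2 ⟨h2.1, hxS⟩, h2.2⟩
  · intro z hz
    rw [Finset.mem_product, Finset.mem_product] at hz
    obtain ⟨hq1, -, -⟩ := mem_Forest.1 hz.1
    obtain ⟨hq1', -, -⟩ := mem_Forest.1 hz.2.2
    obtain ⟨q, y, q'⟩ := z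
    simp only at hq1 hq1' ⊢
    refine Prod.ext ?_ (Prod.ext ?_ ?_)
    · funext x
      by_cases h : x ∈ S \ {v}
      · rw [Finset.mem_sdiff, Finset.mem_singleton] at h
        exact (cut_pos h.1 h.2).trans (glue_S h.1 h.2)
      · exact (cut_neg h).trans (hq1 x h).symm
    · exact glue_v
    · funext x
      by_cases h : x ∈ (V \ S) \ {r}
      · rw [Finset.mem_sdiff, Finset.mem_singleton] at h
        exact (cut_pos h.1 h.2).trans (glue_o (Finset.mem_sdiff.1 h.1).2 hv)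
      · exact (cut_neg h).trans (hq1' x h).symm
  · intro p _
    rfl

end Pool.AAT
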