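import Pool.Agent.AAT.Defs

/-!
# AAT-TtLe: Stirling bound for `tt`

PLAN. `tt n m = (n / m) * C(n,m) m^m (n-m)^(n-m) / n^n` (from `(n-1 choose m) = (n choose m) (n-m)/n`).
By Stirling (Mathlib: `Stirling.stirlingSeq`, bounded below by `√π`
(`Stirling.sqrt_pi_le_stirlingSeq`) and above by `stirlingSeq 1 = e/√2` (`stirlingSeq'_antitone`))
there are constants `c1, c2 > 0` with `c1 √k (k/e)^k ≤ k! ≤ c2 √k (k/e)^k` for `k ≥ 1`, so
`C(n,m) m^m (n-m)^(n-m) / n^n ≤ (c2 / c1^2) √(n / (m (n-m)))`.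
-/

set_option autoImplicit false

namespace Pool.AAT

open Finset
open scoped Classical

private theorem tl_ub (k : ℕ) (hk : 1 ≤ k) : ((k.factorial : ℕ) : ℝ) ≤
    (Stirling.stirlingSeq 1 * Real.sqrt 2) * (Real.sqrt k * ((k : ℝ) / Real.exp 1) ^ k) := by
  obtain ⟨j, rfl⟩ : ∃ j, k = j + 1 := ⟨k - 1, by omega⟩
  have h1 : Stirling.stirlingSeq (j + 1) ≤ Stirling.stirlingSeq 1 :=
    Stirling.stirlingSeq'_antitone (Nat.zero_le j)
  generalize Stirling.stirlingSeq 1 = c at h1 ⊢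
  unfold Stirling.stirlingSeq at h1
  rw [div_le_iff₀ (by positivity)] at h1
  refine h1.trans (le_of_eq ?_)
  rw [Real.sqrt_mul (by norm_num : (0 : ℝ) ≤ 2)]
  ring

private theorem tl_lb (k : ℕ) (hk : 1 ≤ k) :
    (Real.sqrt Real.pi * Real.sqrt 2) * (Real.sqrt k * ((k : ℝ) / Real.exp 1) ^ k) ≤
      ((k.factorial : ℕ) : ℝ) := by
  have h1 := Stirling.sqrt_pi_le_stirlingSeq (n := k) (by omega)
  have hk0 : (0 : ℝ) < k := by exact_mod_cast hk
  unfold Stirling.stirlingSeq at h1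
  rw [le_div_iff₀ (by positivity)] at h1
  refine le_trans (le_of_eq ?_) h1
  rw [Real.sqrt_mul (by norm_num : (0 : ℝ) ≤ 2)]
  ring

private theorem tl_eq (a b : ℕ) : tt (a + 1 + (b + 1)) (a + 1) =
    (((a + 1 + (b + 1) : ℕ) : ℝ) / ((a + 1 : ℕ) : ℝ)) *
      ((((a + 1 + (b + 1)).factorial : ℕ) : ℝ) /
        ((((a + 1).factorial : ℕ) : ℝ) * (((b + 1).factorial : ℕ) : ℝ))) *
      (((a + 1 : ℕ) : ℝ) ^ (a + 1) * ((b + 1 : ℕ) : ℝ) ^ (b + 1) /
        ((a + 1 + (b + 1) : ℕ) : ℝ) ^ (a + 1 + (b + 1))) := by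
  have h1 : (a + 1 + b).choose (a + 1) * (a + 1).factorial * b.factorial =
      (a + 1 + b).factorial := by
    have h2 := Nat.choose_mul_factorial_mul_factorial (n := a + 1 + b) (k := a + 1) (by omega)
    rwa [Nat.add_sub_cancel_left] at h2
  have h3 : (a + 1 + (b + 1)).factorial = (a + 1 + (b + 1)) * (a + 1 + b).factorial := by
    rw [← add_assoc, Nat.factorial_succ]
  have h4 : (b + 1).factorial = (b + 1) * b.factorial := Nat.factorial_succ b
  have e1 : a + 1 + (b + 1) - 1 = a + 1 + b := by omega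
  have e2 : a + 1 + (b + 1) - (a + 1) = b + 1 := by omega
  have e3 : a + 1 + (b + 1) - 2 = a + b := by omega
  unfold tt
  rw [e1, e2, e3, Nat.add_sub_cancel, Nat.add_sub_cancel, h3, h4, ← h1]
  push_cast
  have ha : (0 : ℝ) < (a : ℝ) + 1 := by positivity
  have hb : (0 : ℝ) < (b : ℝ) + 1 := by positivity
  have hn : (0 : ℝ) < (a : ℝ) + 1 + ((b : ℝ) + 1) := by positivity
  have hfa : (0 : ℝ) < ((a + 1).factorial : ℝ) := by positivity
  have hfb : (0 : ℝ) < (b.factorial : ℝ) := by positivity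
  have e4 : ((a : ℝ) + 1) ^ (a + 1) = ((a : ℝ) + 1) ^ a * ((a : ℝ) + 1) := pow_succ _ _
  have e5 : ((b : ℝ) + 1) ^ (b + 1) = ((b : ℝ) + 1) ^ b * ((b : ℝ) + 1) := pow_succ _ _
  have e6 : ((a : ℝ) + 1 + ((b : ℝ) + 1)) ^ (a + 1 + (b + 1)) =
      ((a : ℝ) + 1 + ((b : ℝ) + 1)) ^ (a + b) * ((a : ℝ) + 1 + ((b : ℝ) + 1)) ^ 2 := by
    rw [← pow_add]
    congr 1
    omega
  rw [e4, e5, e6]
  field_simp

theorem tt_le : ∃ C : ℝ, 0 < C ∧ ∀ n m : ℕ, 1 ≤ m → m < n →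
    tt n m ≤ C * n * Real.sqrt ((n : ℝ) / ((m : ℝ) ^ 3 * ((n : ℝ) - m))) := by
  refine ⟨(Stirling.stirlingSeq 1 * Real.sqrt 2) /
    (Real.sqrt Real.pi * Real.sqrt 2) ^ 2, ?_, ?_⟩
  · have h1 : 0 < Stirling.stirlingSeq 1 := Stirling.stirlingSeq'_pos 0
    positivity
  · intro n m hm hmn
    obtain ⟨a, rfl⟩ : ∃ a, m = a + 1 := ⟨m - 1, by omega⟩
    obtain ⟨b, rfl⟩ : ∃ b, n = a + 1 + (b + 1) := ⟨n - (a + 1) - 1, by omega⟩
    rw [tl_eq]
    have hn := tl_ub (a + 1 + (b + 1)) (by omega)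
    have ha := tl_lb (a + 1) (by omega)
    have hb := tl_lb (b + 1) (by omega)
    have hs1 : 0 < Stirling.stirlingSeq 1 := Stirling.stirlingSeq'_pos 0
    obtain ⟨x, hx⟩ : ∃ x : ℝ, ((a + 1 : ℕ) : ℝ) = x := ⟨_, rfl⟩
    obtain ⟨y, hy⟩ : ∃ y : ℝ, ((b + 1 : ℕ) : ℝ) = y := ⟨_, rfl⟩
    have hx0 : 0 < x := by
      rw [← hx]
      positivity
    have hy0 : 0 < y := by
      rw [← hy]
      positivity
    have hxy : ((a + 1 + (b + 1) : ℕ) : ℝ) = x + y := by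
      rw [Nat.cast_add, hx, hy]
    rw [hx] at ha
    rw [hy] at hb
    rw [hxy] at hn
    rw [hxy, hx, hy]
    generalize Stirling.stirlingSeq 1 * Real.sqrt 2 = c2 at hn ⊢
    have hc1 : 0 < Real.sqrt Real.pi * Real.sqrt 2 := by positivity
    generalize Real.sqrt Real.pi * Real.sqrt 2 = c1 at hc1 ha hb ⊢
    have hE : 0 < Real.exp 1 := Real.exp_pos 1
    generalize Real.exp 1 = E at hE hn ha hb
    have hA : 0 < c1 * (Real.sqrt x * (x / E) ^ (a + 1)) := by positivity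
    have hB : 0 < c1 * (Real.sqrt y * (y / E) ^ (b + 1)) := by positivity
    have h1 : (((a + 1 + (b + 1)).factorial : ℕ) : ℝ) /
        ((((a + 1).factorial : ℕ) : ℝ) * (((b + 1).factorial : ℕ) : ℝ)) ≤
        (c2 * (Real.sqrt (x + y) * ((x + y) / E) ^ (a + 1 + (b + 1)))) /
          ((c1 * (Real.sqrt x * (x / E) ^ (a + 1))) * (c1 * (Real.sqrt y * (y / E) ^ (b + 1)))) := by
      refine div_le_div₀ (le_trans (by positivity) hn) hn (by positivity) ?_
      exact mul_le_mul ha hb hB.le (by positivity)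
    have h2 : (x + y) / x * ((((a + 1 + (b + 1)).factorial : ℕ) : ℝ) /
        ((((a + 1).factorial : ℕ) : ℝ) * (((b + 1).factorial : ℕ) : ℝ))) *
        (x ^ (a + 1) * y ^ (b + 1) / (x + y) ^ (a + 1 + (b + 1))) ≤
        (x + y) / x * ((c2 * (Real.sqrt (x + y) * ((x + y) / E) ^ (a + 1 + (b + 1)))) /
          ((c1 * (Real.sqrt x * (x / E) ^ (a + 1))) * (c1 * (Real.sqrt y * (y / E) ^ (b + 1))))) *
        (x ^ (a + 1) * y ^ (b + 1) / (x + y) ^ (a + 1 + (b + 1))) :=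
      mul_le_mul_of_nonneg_right (mul_le_mul_of_nonneg_left h1 (by positivity)) (by positivity)
    refine h2.trans (le_of_eq ?_)
    have h3 : Real.sqrt ((x + y) / (x ^ 3 * (x + y - x))) =
        Real.sqrt (x + y) / (x * Real.sqrt x * Real.sqrt y) := by
      have h4 : x ^ 3 * (x + y - x) = x ^ 2 * (x * y) := by ring
      rw [h4, Real.sqrt_div (by positivity), Real.sqrt_mul (by positivity),
        Real.sqrt_mul (by positivity), Real.sqrt_sq hx0.le]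
      ring
    rw [h3]
    have hsx : 0 < Real.sqrt x := Real.sqrt_pos.2 hx0
    have hsy : 0 < Real.sqrt y := Real.sqrt_pos.2 hy0
    rw [div_pow, div_pow, div_pow, pow_add (x + y), pow_add E]
    field_simp

end Pool.AAT
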