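import Pool.Agent.AAT.Defs

/-!
# AAT-CardF: the number of rooted forests (Cayley)

PLAN. Strong induction on `V.card`. `R = ∅`: if `V = ∅` both sides are `0`; if `V` is nonempty then
`Forest V ∅ = ∅`. Let `R` be nonempty, `M = V \ R`, `s = R.card`, `M.card < V.card`. If `M = ∅` then
`Forest V R = {id}` and both sides are `V.card`. Otherwise sort the `p ∈ Forest V R` by
`J = {x ∈ M | p x ∈ R}`: the number of `p` with given `J ⊆ M` is `s ^ J.card * (Forest M J).card`
(bijection `p ↦ (p restricted to J, p made constant (= identity) on J)`; the second component lies in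
`Forest M J` because a vertex of `M` reaches `R` exactly through a vertex of `J`; conversely gluing
gives an element of `Forest V R`). By induction `(Forest M J).card * M.card = J.card * M.card ^
(M.card - J.card)`, hence
`(Forest V R).card * M.card = Σ_j C(M.card, j) s^j j M.card^(M.card-j) = M.card * s * (s + M.card)^(M.card-1)`
(`j C(M,j) = M C(M-1,j-1)` and the binomial theorem). Cancel `M.card > 0`.
-/

set_option autoImplicit false

namespace Pool.AAT

open Finset
open scoped Classical

variable {α : Type} [Fintype α]

private theorem cf_sum (s k : ℕ) :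
    ∑ j ∈ range (k + 1 + 1), (k + 1).choose j * (s ^ j * (j * (k + 1) ^ (k + 1 - j))) =
      (k + 1) * s * (s + (k + 1)) ^ k := by
  rw [Finset.sum_range_succ', add_pow s (k + 1) k, Finset.mul_sum]
  simp only [zero_mul, mul_zero, add_zero]
  refine Finset.sum_congr rfl fun i hi => ?_
  have h1 : (k + 1).choose (i + 1) * (i + 1) = (k + 1) * k.choose i :=
    (Nat.add_one_mul_choose_eq k i).symm
  have h2 : k + 1 - (i + 1) = k - i := by omega
  rw [h2, pow_succ]
  calc (k + 1).choose (i + 1) * (s ^ i * s * ((i + 1) * (k + 1) ^ (k - i)))
      = ((k + 1).choose (i + 1) * (i + 1)) * (s * (s ^ i * (k + 1) ^ (k - i))) := by ring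
    _ = (k + 1) * s * (s ^ i * (k + 1) ^ (k - i) * k.choose i) := by rw [h1]; ring

private theorem cf_fiber (V R J : Finset α) (h : R ⊆ V) (hJ : J ⊆ V \ R) :
    ((Forest V R).filter fun p => ((V \ R).filter fun x => p x ∈ R) = J).card =
      R.card ^ J.card * (Forest (V \ R) J).card := by
  have hpi : (Fintype.piFinset fun x : α => if x ∈ J then R else {x}).card = R.card ^ J.card := by
    rw [Fintype.card_piFinset]
    have h1 : ∀ x : α, (if x ∈ J then R else ({x} : Finset α)).card =
        if x ∈ J then R.card else 1 := by
      intro x
      split_ifs <;> simp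
    rw [Finset.prod_congr rfl fun x _ => h1 x, Finset.prod_ite_mem, Finset.univ_inter,
      Finset.prod_const]
  rw [← hpi, ← Finset.card_product]
  refine Finset.card_nbij' (fun p => (fun x => if x ∈ J then p x else x,
    fun x => if x ∈ J then x else p x)) (fun fq => fun x => if x ∈ J then fq.1 x else fq.2 x)
    ?_ ?_ ?_ ?_
  · intro p hp
    rw [Finset.mem_coe, Finset.mem_filter] at hp
    obtain ⟨hp, hpJ⟩ := hp
    unfold Forest at hp
    rw [Finset.mem_filter] at hp
    obtain ⟨-, ha, hb, hc⟩ := hp
    have hm : ∀ x, x ∈ J ↔ x ∈ V \ R ∧ p x ∈ R := by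
      intro x
      rw [← hpJ, Finset.mem_filter]
    rw [Finset.mem_coe, Finset.mem_product]
    refine ⟨?_, ?_⟩
    · rw [Fintype.mem_piFinset]
      intro x
      by_cases hx : x ∈ J
      · simp only [hx, if_true]
        exact ((hm x).1 hx).2
      · simp only [hx, if_false]
        exact Finset.mem_singleton_self x
    · unfold Forest
      rw [Finset.mem_filter]
      refine ⟨Finset.mem_univ _, ?_, ?_, ?_⟩
      · intro x hx
        by_cases hxJ : x ∈ J
        · simp only [hxJ, if_true]
        · simp only [hxJ, if_false]
          apply ha
          intro h2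
          exact hx (Finset.mem_sdiff.2 ⟨h2, hxJ⟩)
      · intro x hx
        rw [Finset.mem_sdiff] at hx
        simp only [hx.2, if_false]
        rw [Finset.mem_sdiff]
        exact ⟨hb x hx.1, fun h2 => hx.2 ((hm x).2 ⟨hx.1, h2⟩)⟩
      · intro x hx
        obtain ⟨i, hi⟩ := hc x (Finset.mem_sdiff.1 hx).1
        induction i generalizing x with
        | zero => exact absurd hi (Finset.mem_sdiff.1 hx).2
        | succ i ih =>
          by_cases hxJ : x ∈ J
          · exact ⟨0, hxJ⟩
          · have h2 : p x ∈ V \ R := by
              rw [Finset.mem_sdiff]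
              exact ⟨hb x hx, fun h3 => hxJ ((hm x).2 ⟨hx, h3⟩)⟩
            obtain ⟨j, hj⟩ := ih (p x) h2 (by rw [← Function.iterate_succ_apply]; exact hi)
            refine ⟨j + 1, ?_⟩
            rw [Function.iterate_succ_apply]
            simp only [hxJ, if_false]
            exact hj
  · intro fq hfq
    obtain ⟨f, q⟩ := fq
    rw [Finset.mem_coe, Finset.mem_product] at hfq
    obtain ⟨hf, hq⟩ := hfq
    rw [Fintype.mem_piFinset] at hf
    unfold Forest at hq
    rw [Finset.mem_filter] at hq
    obtain ⟨-, ha, hb, hc⟩ := hq
    simp only at hf ha hb hc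
    have hfJ : ∀ x ∈ J, f x ∈ R := by
      intro x hx
      have h1 := hf x
      simp only [hx, if_true] at h1
      exact h1
    rw [Finset.mem_coe, Finset.mem_filter]
    refine ⟨?_, ?_⟩
    · unfold Forest
      rw [Finset.mem_filter]
      refine ⟨Finset.mem_univ _, ?_, ?_, ?_⟩
      · intro x hx
        have hxJ : x ∉ J := fun h2 => hx (hJ h2)
        simp only [hxJ, if_false]
        apply ha
        intro h2
        exact hx (Finset.mem_sdiff.1 h2).1
      · intro x hx
        by_cases hxJ : x ∈ J
        · simp only [hxJ, if_true]
          exact h (hfJ x hxJ)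
        · simp only [hxJ, if_false]
          exact (Finset.mem_sdiff.1 (hb x (Finset.mem_sdiff.2 ⟨hx, hxJ⟩))).1
      · intro x hx
        by_cases hxR : x ∈ R
        · exact ⟨0, hxR⟩
        · have hxM : x ∈ V \ R := Finset.mem_sdiff.2 ⟨hx, hxR⟩
          obtain ⟨i, hi⟩ := hc x hxM
          clear hxR hx
          induction i generalizing x with
          | zero =>
            refine ⟨1, ?_⟩
            have hxJ : x ∈ J := hi
            rw [Function.iterate_one]
            simp only [hxJ, if_true]
            exact hfJ x hxJ
          | succ i ih =>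
            by_cases hxJ : x ∈ J
            · refine ⟨1, ?_⟩
              rw [Function.iterate_one]
              simp only [hxJ, if_true]
              exact hfJ x hxJ
            · have h2 : q x ∈ V \ R := hb x (Finset.mem_sdiff.2 ⟨hxM, hxJ⟩)
              obtain ⟨j, hj⟩ := ih (q x) h2 (by rw [← Function.iterate_succ_apply]; exact hi)
              refine ⟨j + 1, ?_⟩
              rw [Function.iterate_succ_apply]
              simp only [hxJ, if_false]
              exact hj
    · ext x
      rw [Finset.mem_filter]
      constructor
      · rintro ⟨h1, h2⟩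
        by_contra hxJ
        simp only [hxJ, if_false] at h2
        exact (Finset.mem_sdiff.1 (hb x (Finset.mem_sdiff.2 ⟨h1, hxJ⟩))).2 h2
      · intro hx
        refine ⟨hJ hx, ?_⟩
        simp only [hx, if_true]
        exact hfJ x hx
  · intro p _
    funext x
    by_cases hxJ : x ∈ J
    · simp only [hxJ, if_true]
    · simp only [hxJ, if_false]
  · intro fq hfq
    obtain ⟨f, q⟩ := fq
    rw [Finset.mem_coe, Finset.mem_product] at hfq
    obtain ⟨hf, hq⟩ := hfq
    rw [Fintype.mem_piFinset] at hf
    unfold Forest at hq
    rw [Finset.mem_filter] at hq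
    obtain ⟨-, ha, hb, hc⟩ := hq
    simp only at hf ha
    refine Prod.ext ?_ ?_
    · funext x
      by_cases hxJ : x ∈ J
      · simp only [hxJ, if_true]
      · simp only [hxJ, if_false]
        have h1 := hf x
        simp only [hxJ, if_false] at h1
        exact (Finset.mem_singleton.1 h1).symm
    · funext x
      by_cases hxJ : x ∈ J
      · simp only [hxJ, if_true]
        exact (ha x fun h2 => (Finset.mem_sdiff.1 h2).2 hxJ).symm
      · simp only [hxJ, if_false]

private theorem cf_rec (V R : Finset α) (h : R ⊆ V) :
    (Forest V R).card =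
      ∑ J ∈ (V \ R).powerset, R.card ^ J.card * (Forest (V \ R) J).card := by
  rw [Finset.card_eq_sum_card_fiberwise (f := fun p => (V \ R).filter fun x => p x ∈ R)
    (t := (V \ R).powerset)]
  · refine Finset.sum_congr rfl fun J hJ => ?_
    exact cf_fiber V R J h (Finset.mem_powerset.1 hJ)
  · intro p _
    rw [Finset.mem_coe, Finset.mem_powerset]
    exact Finset.filter_subset _ _

theorem card_forest (V R : Finset α) (h : R ⊆ V) :
    (Forest V R).card * V.card = R.card * V.card ^ (V.card - R.card) := by
  obtain ⟨n, hn⟩ : ∃ n, V.card = n := ⟨_, rfl⟩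
  induction n using Nat.strong_induction_on generalizing V R with
  | _ n ih =>
    rcases R.eq_empty_or_nonempty with hR | hR
    · rw [hR, Finset.card_empty, zero_mul]
      rcases V.eq_empty_or_nonempty with hV | hV
      · rw [hV, Finset.card_empty, mul_zero]
      · obtain ⟨x, hx⟩ := hV
        have h1 : Forest V (∅ : Finset α) = ∅ := by
          rw [Finset.eq_empty_iff_forall_notMem]
          intro p hp
          unfold Forest at hp
          rw [Finset.mem_filter] at hp
          obtain ⟨i, hi⟩ := hp.2.2.2 x hx
          exact Finset.notMem_empty _ hi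
        rw [h1, Finset.card_empty, zero_mul]
    · have hcV : V.card = R.card + (V \ R).card := by
        rw [Finset.card_sdiff_of_subset h]
        have := Finset.card_le_card h
        omega
      have hRp := hR.card_pos
      rcases Nat.eq_zero_or_pos (V \ R).card with h0 | h0
      · have hM : V \ R = ∅ := Finset.card_eq_zero.1 h0
        have h1 : (Forest V R).card = 1 := by
          rw [cf_rec V R h, hM, Finset.powerset_empty, Finset.sum_singleton, Finset.card_empty,
            pow_zero, one_mul, Finset.card_eq_one]
          refine ⟨id, ?_⟩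
          ext p
          unfold Forest
          rw [Finset.mem_filter, Finset.mem_singleton]
          constructor
          · rintro ⟨-, h2, -⟩
            funext x
            exact h2 x (by simp)
          · rintro rfl
            exact ⟨Finset.mem_univ _, fun x _ => rfl, fun x hx => by simp at hx,
              fun x hx => by simp at hx⟩
        rw [h1, hcV, h0]
        simp
      · obtain ⟨k, hk⟩ : ∃ k, (V \ R).card = k + 1 := ⟨(V \ R).card - 1, by omega⟩
        have h1 : (Forest V R).card * (V \ R).card =
            (k + 1) * R.card * (R.card + (k + 1)) ^ k := by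
          have h5 := Finset.sum_powerset_apply_card
            (fun j => R.card ^ j * (j * (V \ R).card ^ ((V \ R).card - j))) (x := V \ R)
          simp only [smul_eq_mul] at h5
          rw [cf_rec V R h, Finset.sum_mul, ← cf_sum, ← hk, ← h5]
          refine Finset.sum_congr rfl fun J hJ => ?_
          rw [mul_assoc, ih (V \ R).card (by omega) (V \ R) J (Finset.mem_powerset.1 hJ) rfl]
        have h2 : (Forest V R).card = R.card * (R.card + (k + 1)) ^ k := by
          rw [hk] at h1
          have h3 : (Forest V R).card * (k + 1) =
              (R.card * (R.card + (k + 1)) ^ k) * (k + 1) := by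
            rw [h1]
            ring
          exact Nat.eq_of_mul_eq_mul_right (by omega) h3
        have h4 : V.card - R.card = k + 1 := by omega
        rw [h4, h2, hcV, hk, mul_assoc, ← pow_succ]

end Pool.AAT
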