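import Pool.Agent.AAT.Defs

/-!
# AAT-FixF: prescribing the parent of one vertex

PLAN. `p ↦ Function.update p x x` maps the left set bijectively onto `Forest V (insert x R)`; the
inverse is `p ↦ Function.update p x y`. (A vertex whose `p`-orbit reaches `R` through `x` reaches
`insert x R` at `x`; conversely a vertex reaching `x` in the modified map reaches `y ∈ R` one step
later. Use the least `i` with `p^[i] w ∈ insert x R`: up to that time the two maps agree.)
-/

set_option autoImplicit false

namespace Pool.AAT

open Finset
open scoped Classical

variable {α : Type} [Fintype α]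

omit [Fintype α] in
private theorem reach_aux (p q : α → α) (x : α) (S S' : Finset α)
    (h0 : ∀ w ∈ S, ∃ j : ℕ, q^[j] w ∈ S') (hx : ∃ j : ℕ, q^[j] x ∈ S')
    (hpq : ∀ w, w ≠ x → q w = p w) :
    ∀ (i : ℕ) (w : α), p^[i] w ∈ S → ∃ j : ℕ, q^[j] w ∈ S' := by
  intro i
  induction i with
  | zero =>
    intro w hw
    exact h0 w hw
  | succ i ih =>
    intro w hw
    by_cases hwx : w = x
    · rw [hwx]
      exact hx
    · rw [Function.iterate_succ_apply] at hw
      obtain ⟨j, hj⟩ := ih (p w) hw
      refine ⟨j + 1, ?_⟩
      rw [Function.iterate_succ_apply, hpq w hwx]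
      exact hj

theorem forest_fix (V R : Finset α) (hR : R ⊆ V) (x y : α) (hx : x ∈ V) (hxR : x ∉ R)
    (hy : y ∈ R) :
    ((Forest V R).filter (fun p => p x = y)).card = (Forest V (insert x R)).card := by
  refine Finset.card_nbij' (fun p => Function.update p x x) (fun p => Function.update p x y)
    ?_ ?_ ?_ ?_
  · intro p hp
    have hp' : p ∈ (Forest V R).filter (fun p => p x = y) := hp
    rw [Finset.mem_filter] at hp'
    obtain ⟨hpF, hpx⟩ := hp'
    unfold Forest at hpF
    rw [Finset.mem_filter] at hpF
    obtain ⟨-, h1, h2, h3⟩ := hpF
    change Function.update p x x ∈ Forest V (insert x R)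
    unfold Forest
    rw [Finset.mem_filter]
    refine ⟨Finset.mem_univ _, ?_, ?_, ?_⟩
    · intro z hz
      by_cases hzx : z = x
      · rw [hzx, Function.update_self]
      · rw [Function.update_of_ne hzx]
        apply h1
        intro hzV
        apply hz
        rw [Finset.mem_sdiff] at hzV ⊢
        refine ⟨hzV.1, ?_⟩
        rw [Finset.mem_insert]
        rintro (h | h)
        · exact hzx h
        · exact hzV.2 h
    · intro z hz
      rw [Finset.mem_sdiff, Finset.mem_insert] at hz
      have hzx : z ≠ x := fun h => hz.2 (Or.inl h)
      rw [Function.update_of_ne hzx]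
      exact h2 z (Finset.mem_sdiff.mpr ⟨hz.1, fun h => hz.2 (Or.inr h)⟩)
    · intro z hz
      obtain ⟨i, hi⟩ := h3 z hz
      refine reach_aux p (Function.update p x x) x R (insert x R) ?_ ?_ ?_ i z hi
      · intro w hw
        exact ⟨0, Finset.mem_insert_of_mem hw⟩
      · exact ⟨0, Finset.mem_insert_self _ _⟩
      · intro w hw
        rw [Function.update_of_ne hw]
  · intro p hp
    have hp' : p ∈ Forest V (insert x R) := hp
    unfold Forest at hp'
    rw [Finset.mem_filter] at hp'
    obtain ⟨-, h1, h2, h3⟩ := hp'
    change Function.update p x y ∈ (Forest V R).filter (fun p => p x = y)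
    rw [Finset.mem_filter]
    refine ⟨?_, Function.update_self _ _ _⟩
    unfold Forest
    rw [Finset.mem_filter]
    refine ⟨Finset.mem_univ _, ?_, ?_, ?_⟩
    · intro z hz
      have hzx : z ≠ x := by
        intro h
        apply hz
        rw [h]
        exact Finset.mem_sdiff.mpr ⟨hx, hxR⟩
      rw [Function.update_of_ne hzx]
      apply h1
      intro hzV
      apply hz
      rw [Finset.mem_sdiff, Finset.mem_insert] at hzV
      exact Finset.mem_sdiff.mpr ⟨hzV.1, fun h => hzV.2 (Or.inr h)⟩
    · intro z hz
      rw [Finset.mem_sdiff] at hz
      by_cases hzx : z = x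
      · rw [hzx, Function.update_self]
        exact hR hy
      · rw [Function.update_of_ne hzx]
        refine h2 z (Finset.mem_sdiff.mpr ⟨hz.1, ?_⟩)
        rw [Finset.mem_insert]
        rintro (h | h)
        · exact hzx h
        · exact hz.2 h
    · intro z hz
      obtain ⟨i, hi⟩ := h3 z hz
      have hxy : ∃ j : ℕ, (Function.update p x y)^[j] x ∈ R := by
        refine ⟨1, ?_⟩
        rw [Function.iterate_one, Function.update_self]
        exact hy
      refine reach_aux p (Function.update p x y) x (insert x R) R ?_ hxy ?_ i z hi
      · intro w hw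
        rcases Finset.mem_insert.mp hw with h | h
        · rw [h]
          exact hxy
        · exact ⟨0, h⟩
      · intro w hw
        rw [Function.update_of_ne hw]
  · intro p hp
    have hp' : p ∈ (Forest V R).filter (fun p => p x = y) := hp
    rw [Finset.mem_filter] at hp'
    change Function.update (Function.update p x x) x y = p
    rw [Function.update_idem, ← hp'.2, Function.update_eq_self]
  · intro p hp
    have hp' : p ∈ Forest V (insert x R) := hp
    unfold Forest at hp'
    rw [Finset.mem_filter] at hp'
    have hpx : p x = x := by
      apply hp'.2.1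
      rw [Finset.mem_sdiff]
      intro h
      exact h.2 (Finset.mem_insert_self _ _)
    change Function.update (Function.update p x y) x x = p
    rw [Function.update_idem]
    nth_rewrite 2 [← hpx]
    rw [Function.update_eq_self]

end Pool.AAT
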