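import Pool.Agent.AAT.Defs
import Pool.Agent.AAT.CardF
import Pool.Agent.AAT.FixF

/-!
# AAT-DepthC: the number of vertices at depth `d` in a random rooted tree

PLAN. `dep q v w = d` for `w ∈ S`, `q ∈ Forest S {v}` iff there are distinct `x_1, …, x_d = w` in
`S \ {v}` with `q x_1 = v`, `q x_(i+1) = x_i` (they are the iterates, so they are unique). For
pairwise distinct `x_1, …, x_d ∈ S \ {v}` the number of `q ∈ Forest S {v}` with these values is
`(Forest S {v, x_1, …, x_d}).card`: induction with `forest_fix` (fix `x_1` first: its parent `v` is a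
root; then `x_1` is a root, …; the map of `forest_fix` does not change the other values, so prove the
version with additional constraints, e.g. by induction over lists). By `card_forest` this number
times `m = S.card` is `(d+1) m^(m-d-1)` (`d + 1 ≤ m`). The number of sequences is
`(m-1).descFactorial d` (`List`s without repetition or embeddings `Fin d ↪ S \ {v}`:
`Fintype.card_embedding_eq`). Finally `(Forest S {v}).card * m = m^(m-1)`. For `d ≥ m` both sides are
`0`.
ALTERNATIVE: induction on `d` over the statement for all root sets `R`: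
`Σ_{q ∈ Forest S R} #{w | least i with q^[i] w ∈ R is d}`: fix `x_1` (the last vertex before `R`,
`|S \ R|` choices) and its parent in `R` (`|R|` choices).
-/

set_option autoImplicit false

namespace Pool.AAT

open Finset
open scoped Classical

variable {α : Type} [Fintype α]

private lemma mem_forest {V R : Finset α} {p : α → α} : p ∈ Forest V R ↔
    (∀ x, x ∉ V \ R → p x = x) ∧ (∀ x ∈ V \ R, p x ∈ V) ∧ ∀ x ∈ V, ∃ i : ℕ, p^[i] x ∈ R := by
  unfold Forest
  simp only [Finset.mem_filter, Finset.mem_univ, true_and]

private lemma mem_V {V R : Finset α} {p : α → α} (hp : p ∈ Forest V R) (x : α) (hx : x ∈ V) :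
    p x ∈ V := by
  rw [mem_forest] at hp
  by_cases h : x ∈ V \ R
  · exact hp.2.1 x h
  · rw [hp.1 x h]; exact hx

private lemma iter_V {V R : Finset α} {p : α → α} (hp : p ∈ Forest V R) (i : ℕ) (x : α)
    (hx : x ∈ V) : p^[i] x ∈ V := by
  induction i with
  | zero => exact hx
  | succ i ih =>
    rw [Function.iterate_succ_apply']
    exact mem_V hp _ ih

private lemma upd_mem {S R : Finset α} {q : α → α} (hq : q ∈ Forest S R) (y : α) :
    Function.update q y y ∈ Forest S (insert y R) := by
  rw [mem_forest] at hq ⊢
  obtain ⟨h1, h2, h3⟩ := hq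
  refine ⟨?_, ?_, ?_⟩
  · intro x hx
    by_cases hxy : x = y
    · rw [hxy, Function.update_self]
    · rw [Function.update_of_ne hxy]
      apply h1
      intro h
      apply hx
      rw [Finset.mem_sdiff] at h ⊢
      refine ⟨h.1, ?_⟩
      rw [Finset.mem_insert]
      rintro (h4 | h4)
      · exact hxy h4
      · exact h.2 h4
  · intro x hx
    rw [Finset.mem_sdiff, Finset.mem_insert] at hx
    have hxy : x ≠ y := fun h => hx.2 (Or.inl h)
    rw [Function.update_of_ne hxy]
    exact h2 x (Finset.mem_sdiff.2 ⟨hx.1, fun h => hx.2 (Or.inr h)⟩)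
  · have key : ∀ (i : ℕ) (z : α), q^[i] z ∈ R →
        ∃ i' : ℕ, (Function.update q y y)^[i'] z ∈ insert y R := by
      intro i
      induction i with
      | zero =>
        intro z hz
        exact ⟨0, Finset.mem_insert_of_mem hz⟩
      | succ i ih =>
        intro z hz
        by_cases hzy : z = y
        · exact ⟨0, by rw [hzy]; exact Finset.mem_insert_self _ _⟩
        · rw [Function.iterate_succ_apply] at hz
          obtain ⟨i', hi'⟩ := ih (q z) hz
          refine ⟨i' + 1, ?_⟩
          rw [Function.iterate_succ_apply, Function.update_of_ne hzy]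
          exact hi'
    intro x hx
    obtain ⟨i, hi⟩ := h3 x hx
    exact key i x hi

private lemma upd_mem' {S R : Finset α} {q : α → α} (y x : α) (hR : R ⊆ S)
    (hq : q ∈ Forest S (insert y R)) (hy : y ∈ S \ R) (hx : x ∈ R) :
    Function.update q y x ∈ Forest S R := by
  rw [mem_forest] at hq ⊢
  obtain ⟨h1, h2, h3⟩ := hq
  refine ⟨?_, ?_, ?_⟩
  · intro z hz
    have hzy : z ≠ y := by
      rintro rfl
      exact hz hy
    rw [Function.update_of_ne hzy]
    apply h1
    intro h
    rw [Finset.mem_sdiff, Finset.mem_insert] at h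
    exact hz (Finset.mem_sdiff.2 ⟨h.1, fun h4 => h.2 (Or.inr h4)⟩)
  · intro z hz
    by_cases hzy : z = y
    · rw [hzy, Function.update_self]
      exact hR hx
    · rw [Function.update_of_ne hzy]
      apply h2
      rw [Finset.mem_sdiff] at hz
      rw [Finset.mem_sdiff, Finset.mem_insert]
      refine ⟨hz.1, ?_⟩
      rintro (h4 | h4)
      · exact hzy h4
      · exact hz.2 h4
  · have h0 : ∃ i' : ℕ, (Function.update q y x)^[i'] y ∈ R := by
      refine ⟨1, ?_⟩
      rw [Function.iterate_one, Function.update_self]
      exact hx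
    have key : ∀ (i : ℕ) (z : α), q^[i] z ∈ insert y R →
        ∃ i' : ℕ, (Function.update q y x)^[i'] z ∈ R := by
      intro i
      induction i with
      | zero =>
        intro z hz
        have hz' : z ∈ insert y R := hz
        rw [Finset.mem_insert] at hz'
        rcases hz' with h | h
        · rw [h]; exact h0
        · exact ⟨0, h⟩
      | succ i ih =>
        intro z hz
        by_cases hzy : z = y
        · rw [hzy]; exact h0
        · rw [Function.iterate_succ_apply] at hz
          obtain ⟨i', hi'⟩ := ih (q z) hz
          refine ⟨i' + 1, ?_⟩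
          rw [Function.iterate_succ_apply, Function.update_of_ne hzy]
          exact hi'
    intro z hz
    obtain ⟨i, hi⟩ := h3 z hz
    exact key i z hi

private lemma agree {q q' : α → α} (y w : α) (d : ℕ) (hqq : ∀ z, z ≠ y → q z = q' z)
    (h : ∀ j < d, q^[j] w ≠ y) : ∀ i ≤ d, q'^[i] w = q^[i] w := by
  intro i
  induction i with
  | zero => intro _; rfl
  | succ i ih =>
    intro hi
    rw [Function.iterate_succ_apply', Function.iterate_succ_apply', ih (by omega)]
    exact (hqq _ (h i (by omega))).symm

private noncomputable def AA (S R : Finset α) (x : α) (d : ℕ) : ℕ :=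
  ∑ q ∈ Forest S R, (S.filter (fun w => q^[d] w = x ∧ ∀ j < d, q^[j] w ∉ R)).card

private lemma AA_zero (S R : Finset α) (x : α) (hx : x ∈ S) : AA S R x 0 = (Forest S R).card := by
  unfold AA
  rw [Finset.card_eq_sum_ones]
  apply Finset.sum_congr rfl
  intro q _
  rw [Finset.card_eq_one]
  refine ⟨x, ?_⟩
  ext w
  simp only [Finset.mem_filter, Finset.mem_singleton]
  constructor
  · rintro ⟨_, h, _⟩
    exact h
  · rintro rfl
    exact ⟨hx, rfl, fun j hj => absurd hj (Nat.not_lt_zero j)⟩

private lemma path_iff {q : α → α} {R : Finset α} {x y : α} (hx : x ∈ R) (hy : y ∉ R) (d : ℕ) (w : α)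
    (hqy : q y = x) :
    (q^[d] w = y ∧ ∀ j < d, q^[j] w ∉ R) ↔
    ((Function.update q y y)^[d] w = y ∧ ∀ j < d, (Function.update q y y)^[j] w ∉ insert y R) := by
  constructor
  · rintro ⟨h1, h2⟩
    have h3 : ∀ j < d, q^[j] w ≠ y := by
      intro j hj h
      have h4 : q^[j + 1] w = x := by
        rw [Function.iterate_succ_apply', h, hqy]
      by_cases hjd : j + 1 < d
      · exact h2 (j + 1) hjd (by rw [h4]; exact hx)
      · have : j + 1 = d := by omega
        rw [this, h1] at h4
        exact hy (by rw [h4]; exact hx)
    have h5 := agree (q := q) (q' := Function.update q y y) y w d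
      (fun z hz => (Function.update_of_ne hz y q).symm) h3
    refine ⟨by rw [h5 d le_rfl]; exact h1, ?_⟩
    intro j hj
    rw [h5 j hj.le, Finset.mem_insert]
    rintro (h | h)
    · exact h3 j hj h
    · exact h2 j hj h
  · rintro ⟨h1, h2⟩
    have h5 := agree (q := Function.update q y y) (q' := q) y w d
      (fun z hz => Function.update_of_ne hz y q)
      (fun j hj h => h2 j hj (by rw [h]; exact Finset.mem_insert_self _ _))
    refine ⟨by rw [h5 d le_rfl]; exact h1, ?_⟩
    intro j hj
    rw [h5 j hj.le]
    intro h
    exact h2 j hj (Finset.mem_insert_of_mem h)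

private lemma AA_succ (S R : Finset α) (hR : R ⊆ S) (x : α) (hx : x ∈ R) (d : ℕ) :
    AA S R x (d + 1) = ∑ y ∈ S \ R, AA S (insert y R) y d := by
  unfold AA
  have h1 : ∀ q ∈ Forest S R,
      (S.filter (fun w => q^[d + 1] w = x ∧ ∀ j < d + 1, q^[j] w ∉ R)).card =
      ∑ y ∈ S \ R, if q y = x then
        (S.filter (fun w => q^[d] w = y ∧ ∀ j < d, q^[j] w ∉ R)).card else 0 := by
    intro q hq
    rw [Finset.card_eq_sum_card_fiberwise (f := fun w => q^[d] w) (t := S \ R)]
    · apply Finset.sum_congr rfl
      intro y hy
      split_ifs with hqy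
      · rw [Finset.filter_filter]
        congr 1
        apply Finset.filter_congr
        intro w _
        constructor
        · rintro ⟨⟨_, h2⟩, h3⟩
          exact ⟨h3, fun j hj => h2 j (by omega)⟩
        · rintro ⟨h2, h3⟩
          refine ⟨⟨?_, ?_⟩, h2⟩
          · rw [Function.iterate_succ_apply', h2, hqy]
          · intro j hj
            by_cases hjd : j < d
            · exact h3 j hjd
            · have : j = d := by omega
              rw [this, h2]
              exact (Finset.mem_sdiff.1 hy).2
      · rw [Finset.card_eq_zero, Finset.filter_filter, Finset.filter_eq_empty_iff]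
        rintro w _ ⟨⟨h2, _⟩, h3⟩
        apply hqy
        have h3' : q^[d] w = y := h3
        rw [Function.iterate_succ_apply', h3'] at h2
        exact h2
    · intro w hw
      have hw' := Finset.mem_filter.1 (Finset.mem_coe.1 hw)
      apply Finset.mem_coe.2
      rw [Finset.mem_sdiff]
      exact ⟨iter_V hq d w hw'.1, hw'.2.2 d (by omega)⟩
  rw [Finset.sum_congr rfl h1, Finset.sum_comm]
  apply Finset.sum_congr rfl
  intro y hy
  rw [← Finset.sum_filter]
  have hyR : y ∉ R := (Finset.mem_sdiff.1 hy).2
  have hxy : x ≠ y := by
    rintro rfl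
    exact hyR hx
  refine Finset.sum_nbij' (fun q => Function.update q y y) (fun q => Function.update q y x)
    ?_ ?_ ?_ ?_ ?_
  · intro q hq
    exact upd_mem (Finset.mem_filter.1 hq).1 y
  · intro q hq
    rw [Finset.mem_filter]
    exact ⟨upd_mem' y x hR hq hy hx, Function.update_self _ _ _⟩
  · intro q hq
    have h2 := (Finset.mem_filter.1 hq).2
    rw [Function.update_idem]
    rw [← h2]
    exact Function.update_eq_self _ _
  · intro q hq
    rw [Function.update_idem]
    have h2 : q y = y := by
      have h3 := (mem_forest.1 hq).1 y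
      apply h3
      rw [Finset.mem_sdiff]
      rintro ⟨_, h4⟩
      exact h4 (Finset.mem_insert_self _ _)
    nth_rewrite 2 [← h2]
    exact Function.update_eq_self _ _
  · intro q hq
    congr 1
    apply Finset.filter_congr
    intro w _
    exact path_iff hx hyR d w (Finset.mem_filter.1 hq).2

private lemma AA_formula (S : Finset α) (d : ℕ) : ∀ (R : Finset α), R ⊆ S → ∀ x ∈ R,
    AA S R x d * S.card =
      (S.card - R.card).descFactorial d * ((R.card + d) * S.card ^ (S.card - R.card - d)) := by
  induction d with
  | zero =>
    intro R hR x hx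
    rw [AA_zero S R x (hR hx), card_forest S R hR]
    simp
  | succ d ih =>
    intro R hR x hx
    rw [AA_succ S R hR x hx d, Finset.sum_mul]
    have h1 : ∀ y ∈ S \ R, AA S (insert y R) y d * S.card =
        (S.card - R.card - 1).descFactorial d *
          ((R.card + 1 + d) * S.card ^ (S.card - R.card - 1 - d)) := by
      intro y hy
      rw [Finset.mem_sdiff] at hy
      have hsub : insert y R ⊆ S := by
        intro z hz
        rw [Finset.mem_insert] at hz
        rcases hz with h | h
        · rw [h]; exact hy.1
        · exact hR h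
      rw [ih (insert y R) hsub y (Finset.mem_insert_self _ _), Finset.card_insert_of_notMem hy.2,
        Nat.sub_add_eq]
    rw [Finset.sum_congr rfl h1, Finset.sum_const, Finset.card_sdiff_of_subset hR, smul_eq_mul]
    rcases Nat.eq_zero_or_pos (S.card - R.card) with h0 | h0
    · rw [h0]
      simp
    · obtain ⟨k, hk⟩ : ∃ k, S.card - R.card = k + 1 := ⟨S.card - R.card - 1, by omega⟩
      rw [hk, Nat.succ_descFactorial_succ]
      have h2 : k + 1 - 1 = k := by omega
      have h3 : k + 1 - (d + 1) = k - d := by omega
      rw [h2, h3]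
      ring

theorem depth_count (S : Finset α) (v : α) (hv : v ∈ S) (d : ℕ) :
    (∑ q ∈ Forest S {v}, (S.filter (fun w => dep q v w = d)).card) * S.card ^ d =
      (Forest S {v}).card * ((S.card - 1).descFactorial d * (d + 1)) := by
  have h1 : ∑ q ∈ Forest S {v}, (S.filter (fun w => dep q v w = d)).card = AA S {v} v d := by
    unfold AA
    apply Finset.sum_congr rfl
    intro q hq
    congr 1
    apply Finset.filter_congr
    intro w hw
    have hex : ∃ i : ℕ, q^[i] w = v := by
      obtain ⟨i, hi⟩ := (mem_forest.1 hq).2.2 w hw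
      exact ⟨i, Finset.mem_singleton.1 hi⟩
    unfold dep
    rw [dif_pos hex, Nat.find_eq_iff]
    simp only [Finset.mem_singleton]
  have hm : 0 < S.card := Finset.card_pos.2 ⟨v, hv⟩
  have hsub : ({v} : Finset α) ⊆ S := by
    intro z hz
    rw [Finset.mem_singleton] at hz
    rw [hz]; exact hv
  have h2 := AA_formula S d {v} hsub v (Finset.mem_singleton_self v)
  have h3 := card_forest S {v} hsub
  rw [h1]
  rw [Finset.card_singleton] at h2 h3
  apply Nat.eq_of_mul_eq_mul_right hm
  by_cases hd : d ≤ S.card - 1
  · have h4 : S.card ^ (S.card - 1 - d) * S.card ^ d = S.card ^ (S.card - 1) := by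
      rw [← pow_add]
      congr 1
      omega
    calc AA S {v} v d * S.card ^ d * S.card = AA S {v} v d * S.card * S.card ^ d := by ring
      _ = (S.card - 1).descFactorial d * ((1 + d) * S.card ^ (S.card - 1 - d)) * S.card ^ d := by
          rw [h2]
      _ = (S.card - 1).descFactorial d * (1 + d) * (S.card ^ (S.card - 1 - d) * S.card ^ d) := by
          ring
      _ = (S.card - 1).descFactorial d * (1 + d) * S.card ^ (S.card - 1) := by rw [h4]
      _ = (S.card - 1).descFactorial d * (1 + d) * ((Forest S {v}).card * S.card) := by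
          rw [h3, one_mul]
      _ = _ := by ring
  · have h5 : (S.card - 1).descFactorial d = 0 := by
      rw [Nat.descFactorial_eq_zero_iff_lt]
      omega
    rw [h5, zero_mul] at h2
    have h6 : AA S {v} v d = 0 := by
      rcases Nat.mul_eq_zero.1 h2 with h | h
      · exact h
      · omega
    rw [h6, h5]
    simp

end Pool.AAT
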