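import Pool.Agent.AAT.Defs
import Pool.Agent.AAT.Split

/-!
# AAT-Split2: the factorisation at two vertices with disjoint fringes

PLAN. Apply `fringe_split` to `V = univ`, `S`, `v`: for `p` in the first filter, `fr p v' = S'`
(with `S'` disjoint from `S`, `v' ∈ S'`, `v' ∉ S`) holds iff `p v ∉ S'` and
`fr (cut (univ \ S) r p) v' = S'` [if `p v ∈ S'` then `v ∈ fr p v' = S'`, which is impossible; if
`p v ∉ S'`... points of `S` reach `v'` only through `v` and `p v`; outside `S` the iterates of `p` and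
of `cut (univ \ S) r p` agree because the complement of `S` is closed under `p`], and then
`cut S' v' p = cut S' v' (cut (univ \ S) r p)`. So with
`Φ q y q' = if y ∉ S' ∧ fr q' v' = S' then Ξ q (cut S' v' q') else 0` the left side is
`Σ_q Σ_{y ∈ univ \ S} Σ_{q'} Φ q y q'`; for fixed `q` the number of `y` is `(univ \ S \ S').card`
and `fringe_split` with `V = univ \ S` turns the sum over `q' ∈ Forest (univ \ S) {r}` with
`fr q' v' = S'` into `Σ_{q'' ∈ Forest S' {v'}} (univ \ S \ S').card * (Forest (univ \ S \ S') {r}).card * Ξ q q''`.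
-/

set_option autoImplicit false

namespace Pool.AAT

open Finset
open scoped Classical

variable {α : Type} [Fintype α]

private theorem s2_mem_Forest {V R : Finset α} {p : α → α} : p ∈ Forest V R ↔
    (∀ x, x ∉ V \ R → p x = x) ∧ (∀ x ∈ V \ R, p x ∈ V) ∧ ∀ x ∈ V, ∃ i : ℕ, p^[i] x ∈ R := by
  unfold Forest
  rw [Finset.mem_filter]
  exact ⟨fun h => h.2, fun h => ⟨Finset.mem_univ _, h⟩⟩

private theorem s2_mem_fr {p : α → α} {v w : α} : w ∈ fr p v ↔ ∃ i : ℕ, p^[i] w = v := by
  unfold fr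
  rw [Finset.mem_filter]
  exact ⟨fun h => h.2, fun h => ⟨Finset.mem_univ _, h⟩⟩

private theorem s2_root {r : α} {p : α → α} (hp : p ∈ Forest univ {r}) : p r = r :=
  (s2_mem_Forest.1 hp).1 r fun h => (Finset.mem_sdiff.1 h).2 (Finset.mem_singleton_self r)

private theorem s2_out {S : Finset α} {r : α} {p : α → α} (hp : p ∈ Forest univ {r}) {x : α}
    (hx : x ∉ S) : cut (univ \ S) r p x = p x := by
  by_cases hxr : x = r
  · rw [hxr, s2_root hp]
    exact if_neg fun h => h.2 rfl
  · exact if_pos ⟨Finset.mem_sdiff.2 ⟨Finset.mem_univ _, hx⟩, hxr⟩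

private theorem s2_in {S : Finset α} {r : α} {p : α → α} {x : α}
    (hx : x ∈ S) : cut (univ \ S) r p x = x :=
  if_neg fun h => (Finset.mem_sdiff.1 h.1).2 hx

private theorem s2_closed {S : Finset α} {v : α} {p : α → α} (hS : fr p v = S) {x : α}
    (hx : x ∉ S) : p x ∉ S := by
  intro h
  apply hx
  rw [← hS] at h ⊢
  obtain ⟨i, hi⟩ := s2_mem_fr.1 h
  exact s2_mem_fr.2 ⟨i + 1, by rw [Function.iterate_succ_apply]; exact hi⟩

private theorem s2_iter {S : Finset α} {r v : α} {p : α → α} (hp : p ∈ Forest univ {r})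
    (hS : fr p v = S) (i : ℕ) : ∀ x, x ∉ S → (cut (univ \ S) r p)^[i] x = p^[i] x := by
  induction i with
  | zero => exact fun x _ => rfl
  | succ i ih =>
    intro x hx
    rw [Function.iterate_succ_apply, Function.iterate_succ_apply, s2_out hp hx]
    exact ih _ (s2_closed hS hx)

private theorem s2_fr {S : Finset α} {r v v' : α} {p : α → α} (hp : p ∈ Forest univ {r})
    (hS : fr p v = S) (hv' : v' ∉ S) : fr (cut (univ \ S) r p) v' = fr p v' \ S := by
  ext w
  rw [Finset.mem_sdiff, s2_mem_fr, s2_mem_fr]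
  by_cases hw : w ∈ S
  · constructor
    · rintro ⟨i, hi⟩
      exfalso
      have h1 : (cut (univ \ S) r p)^[i] w = w := Function.iterate_fixed (s2_in hw) i
      rw [h1] at hi
      rw [hi] at hw
      exact hv' hw
    · rintro ⟨_, h⟩
      exact absurd hw h
  · constructor
    · rintro ⟨i, hi⟩
      rw [s2_iter hp hS i w hw] at hi
      exact ⟨⟨i, hi⟩, hw⟩
    · rintro ⟨⟨i, hi⟩, _⟩
      exact ⟨i, by rw [s2_iter hp hS i w hw]; exact hi⟩

private theorem s2_pv {S : Finset α} {r v : α} {p : α → α} (hp : p ∈ Forest univ {r})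
    (hv : v ∈ S) (hr : r ∉ S) (hS : fr p v = S) : p v ∉ S := by
  intro h
  have hvr : v ≠ r := by
    rintro rfl
    exact hr hv
  rw [← hS] at h
  obtain ⟨i, hi⟩ := s2_mem_fr.1 h
  rw [← Function.iterate_succ_apply] at hi
  obtain ⟨k, hk⟩ := (s2_mem_Forest.1 hp).2.2 v (Finset.mem_univ _)
  rw [Finset.mem_singleton] at hk
  have h1 : ∀ m : ℕ, (p^[i + 1])^[m] v = v := fun m => Function.iterate_fixed hi m
  have h2 : ∀ m : ℕ, p^[m] r = r := fun m => Function.iterate_fixed (s2_root hp) m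
  have h3 : p^[(i + 1) * k] v = v := by
    rw [Function.iterate_mul]
    exact h1 k
  have h4 : (i + 1) * k = i * k + k := by ring
  rw [h4, Function.iterate_add_apply, hk, h2] at h3
  exact hvr h3.symm

private theorem s2_iff {S S' : Finset α} {r v v' : α} {p : α → α} (hp : p ∈ Forest univ {r})
    (hv : v ∈ S) (hv' : v' ∈ S') (hd : Disjoint S S') (hr : r ∉ S) (hS : fr p v = S) :
    fr p v' = S' ↔ (p v ∉ S' ∧ fr (cut (univ \ S) r p) v' = S') := by
  have hv'S : v' ∉ S := fun h => Finset.disjoint_left.1 hd h hv'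
  have hvS' : v ∉ S' := fun h => Finset.disjoint_left.1 hd hv h
  rw [s2_fr hp hS hv'S]
  constructor
  · intro h
    rw [h]
    refine ⟨fun h2 => ?_, ?_⟩
    · rw [← h] at h2 hvS'
      obtain ⟨i, hi⟩ := s2_mem_fr.1 h2
      exact hvS' (s2_mem_fr.2 ⟨i + 1, by rw [Function.iterate_succ_apply]; exact hi⟩)
    · exact Finset.sdiff_eq_self_of_disjoint hd.symm
  · rintro ⟨h1, h2⟩
    have key : ∀ w ∈ S, w ∉ fr p v' := by
      intro w hw hwv
      obtain ⟨i, hi⟩ := s2_mem_fr.1 hwv
      rw [← hS] at hw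
      obtain ⟨k, hk⟩ := s2_mem_fr.1 hw
      rcases Nat.lt_or_ge i k with hik | hik
      · apply hv'S
        rw [← hS]
        refine s2_mem_fr.2 ⟨k - i, ?_⟩
        rw [← hi, ← Function.iterate_add_apply, Nat.sub_add_cancel hik.le]
        exact hk
      · obtain ⟨m, rfl⟩ := Nat.exists_eq_add_of_le hik
        rw [add_comm k m, Function.iterate_add_apply, hk] at hi
        cases m with
        | zero =>
          apply hv'S
          have h3 : v = v' := hi
          rw [← h3]
          exact hv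
        | succ m =>
          rw [Function.iterate_succ_apply] at hi
          apply h1
          rw [← h2]
          exact Finset.mem_sdiff.2 ⟨s2_mem_fr.2 ⟨m, hi⟩, s2_pv hp hv hr hS⟩
    rw [← h2]
    ext w
    rw [Finset.mem_sdiff]
    exact ⟨fun h => ⟨h, fun hw => key w hw h⟩, fun h => h.1⟩

private theorem s2_cut {S S' : Finset α} {r v' : α} {p : α → α} (hp : p ∈ Forest univ {r})
    (hd : Disjoint S S') : cut S' v' (cut (univ \ S) r p) = cut S' v' p := by
  funext x
  unfold cut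
  by_cases h : x ∈ S' ∧ x ≠ v'
  · rw [if_pos h, if_pos h]
    exact s2_out hp (fun h2 => Finset.disjoint_left.1 hd h2 h.1)
  · rw [if_neg h, if_neg h]

theorem fringe_split2 (S S' : Finset α) (r v v' : α) (hv : v ∈ S) (hv' : v' ∈ S')
    (hd : Disjoint S S') (hr : r ∉ S) (hr' : r ∉ S') (Ξ : (α → α) → (α → α) → ℝ) :
    ∑ p ∈ (Forest univ {r}).filter (fun p => fr p v = S ∧ fr p v' = S'),
        Ξ (cut S v p) (cut S' v' p) =
      (((univ \ S) \ S').card : ℝ) ^ 2 * ((Forest ((univ \ S) \ S') {r}).card : ℝ) *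
        ∑ q ∈ Forest S {v}, ∑ q' ∈ Forest S' {v'}, Ξ q q' := by
  set Φ : (α → α) → α → (α → α) → ℝ := fun q y q' =>
    if y ∉ S' ∧ fr q' v' = S' then Ξ q (cut S' v' q') else 0 with hΦ
  have e1 : ∑ p ∈ (Forest univ {r}).filter (fun p => fr p v = S ∧ fr p v' = S'),
        Ξ (cut S v p) (cut S' v' p) =
      ∑ p ∈ (Forest univ {r}).filter (fun p => fr p v = S),
        Φ (cut S v p) (p v) (cut (univ \ S) r p) := by
    rw [← Finset.filter_filter, Finset.sum_filter]
    refine Finset.sum_congr rfl fun p hp => ?_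
    obtain ⟨hp1, hp2⟩ := Finset.mem_filter.1 hp
    have h1 := s2_iff hp1 hv hv' hd hr hp2
    rw [hΦ]
    simp only
    rw [s2_cut hp1 hd]
    by_cases h : fr p v' = S'
    · rw [if_pos h, if_pos (h1.1 h)]
    · rw [if_neg h, if_neg fun h2 => h (h1.2 h2)]
  have hr1 : r ∈ univ \ S := Finset.mem_sdiff.2 ⟨Finset.mem_univ _, hr⟩
  have hS1 : S' ⊆ univ \ S := fun x hx =>
    Finset.mem_sdiff.2 ⟨Finset.mem_univ _, fun h => Finset.disjoint_left.1 hd h hx⟩
  rw [e1, fringe_split univ S r v (Finset.mem_univ _) hv (Finset.subset_univ _) hr Φ,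
    Finset.mul_sum]
  refine Finset.sum_congr rfl fun q _ => ?_
  have e2 := fringe_split (univ \ S) S' r v' hr1 hv' hS1 hr' (fun q'' _ _ => Ξ q q'')
  have e3 : ∀ y ∈ univ \ S, ∑ q' ∈ Forest (univ \ S) {r}, Φ q y q' =
      if y ∉ S' then ∑ q' ∈ (Forest (univ \ S) {r}).filter (fun p => fr p v' = S'),
        Ξ q (cut S' v' q') else 0 := by
    intro y _
    by_cases hy : y ∈ S'
    · rw [if_neg (not_not.2 hy)]
      refine Finset.sum_eq_zero fun q' _ => ?_
      rw [hΦ]
      exact if_neg fun h => h.1 hy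
    · rw [if_pos hy, Finset.sum_filter]
      refine Finset.sum_congr rfl fun q' _ => ?_
      rw [hΦ]
      simp only
      by_cases h : fr q' v' = S'
      · rw [if_pos h, if_pos ⟨hy, h⟩]
      · rw [if_neg h, if_neg fun h2 => h h2.2]
  rw [Finset.sum_congr rfl e3, ← Finset.sum_filter, Finset.sum_const, nsmul_eq_mul, e2]
  have e4 : (univ \ S).filter (fun y => y ∉ S') = (univ \ S) \ S' := by
    ext y
    simp only [Finset.mem_filter, Finset.mem_sdiff]
  rw [e4]
  have e5 : ∑ q'' ∈ Forest S' {v'}, ∑ _y ∈ (univ \ S) \ S',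
      ∑ _q' ∈ Forest ((univ \ S) \ S') {r}, Ξ q q'' =
      (((univ \ S) \ S').card : ℝ) * ((Forest ((univ \ S) \ S') {r}).card : ℝ) *
        ∑ q'' ∈ Forest S' {v'}, Ξ q q'' := by
    rw [Finset.mul_sum]
    refine Finset.sum_congr rfl fun q'' _ => ?_
    rw [Finset.sum_const, Finset.sum_const, nsmul_eq_mul, nsmul_eq_mul]
    ring
  rw [e5]
  ring

end Pool.AAT
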