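import Pool.Agent.AAT.Defs

/-!
# AAT-HtA: heights along a rooted tree

PLAN. `p ∈ Forest univ {r}`: `p r = r`, every vertex reaches `r`. `i ≠ r`: `dep p r i = dep p r (p i) + 1`
(`Nat.find`; the least exponent is positive) and `ht p e r i = sg (e i) + ht p e r (p i)`
(`Finset.sum_range_succ'`, `Function.iterate_succ_apply`). For `w ∈ fr p v`: the least `i` with
`p^[i] w = v` (`v ≠ r`: unique exponent; `v = r`: trivial) satisfies `dep p r w = dep p v w + dep p r v`,
and the sum splits. `p r = r` gives `dep p r r = 0`. `fr p v ⊆ fr p (p v)`.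
-/

set_option autoImplicit false

namespace Pool.AAT

open Finset
open scoped Classical

private lemma dep_eqA {α : Type} {p : α → α} {v w : α} {k : ℕ} (h : p^[k] w = v)
    (hm : ∀ j < k, p^[j] w ≠ v) : dep p v w = k := by
  unfold dep
  rw [dif_pos ⟨k, h⟩]
  exact (Nat.find_eq_iff _).2 ⟨h, hm⟩

private lemma dep_specA {α : Type} {p : α → α} {v w : α} (h : ∃ i : ℕ, p^[i] w = v) :
    p^[dep p v w] w = v ∧ ∀ j < dep p v w, p^[j] w ≠ v := by
  unfold dep
  rw [dif_pos h]
  exact ⟨Nat.find_spec h, fun j hj => Nat.find_min h hj⟩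

private lemma forestA {α : Type} [Fintype α] {r : α} {p : α → α} (hp : p ∈ Forest univ {r}) :
    p r = r ∧ ∀ x, ∃ i : ℕ, p^[i] x = r := by
  unfold Forest at hp
  obtain ⟨-, h1, -, h3⟩ := mem_filter.1 hp
  refine ⟨h1 r (by simp), fun x => ?_⟩
  obtain ⟨i, hi⟩ := h3 x (mem_univ _)
  exact ⟨i, mem_singleton.1 hi⟩

private lemma iterA {n : ℕ} {r : Fin n} {p : Fin n → Fin n} (h : p r = r) (k : ℕ) : p^[k] r = r := by
  induction k with
  | zero => rfl
  | succ k ih => rw [Function.iterate_succ_apply', ih, h]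

private lemma stayA {n : ℕ} {r : Fin n} {p : Fin n → Fin n} (h : p r = r) {x : Fin n} {j k : ℕ}
    (hj : p^[j] x = r) (hjk : j ≤ k) : p^[k] x = r := by
  obtain ⟨m, rfl⟩ := Nat.exists_eq_add_of_le hjk
  rw [add_comm, Function.iterate_add_apply, hj, iterA h]

theorem dep_parent {n : ℕ} (r : Fin n) (p : Fin n → Fin n) (hp : p ∈ Forest univ {r})
    (i : Fin n) (hi : i ≠ r) : dep p r i = dep p r (p i) + 1 := by
  obtain ⟨h1, h2⟩ := forestA hp
  obtain ⟨h3, h4⟩ := dep_specA (h2 (p i))
  refine dep_eqA ?_ ?_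
  · rw [Function.iterate_succ_apply]
    exact h3
  · intro j hj
    cases j with
    | zero => exact hi
    | succ j =>
      rw [Function.iterate_succ_apply]
      exact h4 j (by omega)

theorem ht_parent {n : ℕ} (r : Fin n) (p : Fin n → Fin n) (hp : p ∈ Forest univ {r})
    (e : Fin n → Bool) (i : Fin n) (hi : i ≠ r) : ht p e r i = ht p e r (p i) + sg (e i) := by
  unfold ht
  rw [dep_parent r p hp i hi, sum_range_succ']
  rfl

theorem ht_split {n : ℕ} (r : Fin n) (p : Fin n → Fin n) (hp : p ∈ Forest univ {r})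
    (e : Fin n → Bool) (v w : Fin n) (hw : w ∈ fr p v) :
    ht p e r w = ht p e r v + ht p e v w := by
  obtain ⟨h1, h2⟩ := forestA hp
  unfold fr at hw
  obtain ⟨ha, ha'⟩ := dep_specA (mem_filter.1 hw).2
  obtain ⟨hb, hb'⟩ := dep_specA (h2 v)
  have hd : dep p r w = dep p v w + dep p r v := by
    refine dep_eqA ?_ ?_
    · rw [add_comm, Function.iterate_add_apply, ha]
      exact hb
    · intro j hj hjr
      rcases Nat.lt_or_ge j (dep p v w) with h | h
      · have h3 := stayA h1 hjr h.le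
        rw [ha] at h3
        exact ha' j h (hjr.trans h3.symm)
      · obtain ⟨m, rfl⟩ := Nat.exists_eq_add_of_le h
        rw [add_comm, Function.iterate_add_apply, ha] at hjr
        exact hb' m (by omega) hjr
  unfold ht
  rw [hd, sum_range_add, add_comm]
  congr 1
  refine sum_congr rfl fun j _ => ?_
  rw [add_comm, Function.iterate_add_apply, ha]

theorem fr_parent {n : ℕ} (p : Fin n → Fin n) (v : Fin n) : fr p v ⊆ fr p (p v) := by
  intro w hw
  unfold fr at hw ⊢
  obtain ⟨h, i, hi⟩ := mem_filter.1 hw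
  refine mem_filter.2 ⟨h, i + 1, ?_⟩
  rw [Function.iterate_succ_apply', hi]

theorem hgt_parent {n : ℕ} (r : Fin n) (p : Fin n → Fin n) (hp : p ∈ Forest univ {r})
    (i : Fin n) (hi : i ≠ r) : hgt p i + 1 ≤ hgt p (p i) := by
  obtain ⟨h1, h2⟩ := forestA hp
  have hne : (fr p i).Nonempty := ⟨i, by
    unfold fr
    exact mem_filter.2 ⟨mem_univ _, 0, rfl⟩⟩
  obtain ⟨w, hw, hw'⟩ := exists_mem_eq_sup (fr p i) hne (fun w => dep p i w)
  have hw2 := fr_parent p i hw
  have h3 : dep p (p i) w ≤ hgt p (p i) := le_sup (f := fun w => dep p (p i) w) hw2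
  refine le_trans ?_ h3
  have h4 : hgt p i = dep p i w := hw'
  rw [h4]
  unfold fr at hw hw2
  obtain ⟨ha, -⟩ := dep_specA (mem_filter.1 hw).2
  obtain ⟨hb, -⟩ := dep_specA (mem_filter.1 hw2).2
  by_contra hlt
  have hle : dep p (p i) w ≤ dep p i w := by omega
  obtain ⟨m, hm⟩ := Nat.exists_eq_add_of_le hle
  rw [hm, add_comm, Function.iterate_add_apply, hb, ← Function.iterate_succ_apply] at ha
  obtain ⟨k, hk⟩ := h2 i
  have h5 : ∀ c : ℕ, p^[(m + 1) * c] i = i := by
    intro c
    rw [Function.iterate_mul]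
    induction c with
    | zero => rfl
    | succ c ih => rw [Function.iterate_succ_apply', ih, ha]
  have h6 := stayA h1 hk (k := (m + 1) * k) (Nat.le_mul_of_pos_left k (Nat.succ_pos m))
  rw [h5] at h6
  exact hi h6

end Pool.AAT
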