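import Mathlib

/-!
# AAT: almost all oriented trees in digraphs of linear chromatic number. Definitions.

Project MP_35582f_co. Rooted labelled trees are given by parent functions.
-/

set_option autoImplicit false

namespace Pool.AAT

open Finset
open scoped Classical

variable {α : Type} [Fintype α]

/-- Parent functions of the forests with vertex set `V` and root set `R`
(the identity outside `V \ R`). -/
noncomputable def Forest (V R : Finset α) : Finset (α → α) :=
  univ.filter (fun p => (∀ x, x ∉ V \ R → p x = x) ∧ (∀ x ∈ V \ R, p x ∈ V) ∧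
    ∀ x ∈ V, ∃ i : ℕ, p^[i] x ∈ R)

/-- The fringe of `v`: all vertices from which `v` is reached by taking parents. -/
noncomputable def fr (p : α → α) (v : α) : Finset α :=
  univ.filter (fun w => ∃ i : ℕ, p^[i] w = v)

/-- The depth of `w` below `v`. -/
noncomputable def dep (p : α → α) (v w : α) : ℕ :=
  if h : ∃ i : ℕ, p^[i] w = v then Nat.find h else 0

/-- The sign of an orientation bit. -/
def sg (b : Bool) : ℤ := if b then 1 else -1

/-- The height of `w` relative to `v` (`w` in the fringe of `v`): `e x = true` means that `x` is
one level above its parent, `e x = false` that it is one level below. -/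
noncomputable def ht (p : α → α) (e : α → Bool) (v w : α) : ℤ :=
  ∑ j ∈ range (dep p v w), sg (e (p^[j] w))

/-- The largest absolute height in the fringe of `v`. -/
noncomputable def rad (p : α → α) (e : α → Bool) (v : α) : ℕ :=
  (fr p v).sup (fun w => (ht p e v w).natAbs)

/-- The height of the fringe of `v`. -/
noncomputable def hgt (p : α → α) (v : α) : ℕ := (fr p v).sup (fun w => dep p v w)

/-- Restriction of a parent function to `S` with root `v`. -/
noncomputable def cut (S : Finset α) (v : α) (p : α → α) : α → α :=
  fun x => if x ∈ S ∧ x ≠ v then p x else x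

/-- The oriented tree of a parent function with root `r` and orientation bits `e`. -/
def treeOf {n : ℕ} (r : Fin n) (p : Fin n → Fin n) (e : Fin n → Bool) : Digraph (Fin n) :=
  ⟨fun a b => (a ≠ r ∧ p a = b ∧ e a = false) ∨ (b ≠ r ∧ p b = a ∧ e b = true)⟩

/-- Oriented trees on the vertex set `Fin n`. -/
def OTree (n : ℕ) (T : Digraph (Fin n)) : Prop :=
  (∀ a b : Fin n, T.Adj a b → ¬ T.Adj b a) ∧ (SimpleGraph.fromRel T.Adj).IsTree

/-- `T` is contained in every finite digraph of chromatic number at least `c`. -/
def Unavoidable (n : ℕ) (T : Digraph (Fin n)) (c : ℕ) : Prop :=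
  ∀ (V : Type) [Fintype V] (D : Digraph V),
    (c : ℕ∞) ≤ (SimpleGraph.fromRel D.Adj).chromaticNumber →
    ∃ f : Fin n → V, Function.Injective f ∧ ∀ a b : Fin n, T.Adj a b → D.Adj (f a) (f b)

/-- Expected number of vertices with fringe size `m` in a random rooted labelled tree of order
`n`. -/
noncomputable def tt (n m : ℕ) : ℝ :=
  ((n - 1).choose m : ℝ) * (m : ℝ) ^ (m - 1) * ((n - m : ℕ) : ℝ) ^ (n - m - 1) /
    (n : ℝ) ^ (n - 2)

end Pool.AAT
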