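import Pool.Agent.AAT.RTD
import Pool.Agent.Helper1.Layered.Embed

/-!
# AAT-Embed: greedy embedding of a staged tree

PLAN. `Pool.Helper1.Layered.greedy` with the rank `i ↦ st i * (M + 1) + d i`, `M` an upper bound of `d`
(so vertices of smaller stage come first), thresholds `cnt st (st i) - 1`, the invariant
`P' i v := if i = root then v ∈ W 0 else P (st i) (h i - h (g i)) v` and
`Q i u z := (h i = h (p i) + 1 → R u z) ∧ (h i = h (p i) - 1 → R z u)`.
For `i ≠ root`, `s = st i ≥ 1`: `cnt st s ≥ 2` (root and `i`), so `1 ≤ cnt st s - 1`, and if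
`leaf s = false` then the first vertex of stage `s` below the gate is at height `± 1`, more simply:
`1 ≤ a s + b s` because `h i - h (g i)` and `h (p i) - h (g i)` are two different integers in
`[-a s, b s]` (or `g i = p i` and `h i - h (g i) = ± 1`). So the `Stage` of `chain` is available.
STEP. `W` is increasing on `0..m`. If `st (p i) < s`: `u ∈ W (s-1)` (from `u ∈ W (st (p i))`: by
`Stage.mem`, or `u ∈ W 0` for the root), `g i = p i`, so `P s 0 u` by `gate`; go up or down from height
`0` (`Stage.up 0`: for `leaf s = false` we need `-a ≤ 0 < b`, true since `h i - h (g i) = 1 ≤ b`). If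
`st (p i) = s` (then `leaf s = false` by `leafc`, `p i ≠ root`): `g i = g (p i)`,
`j = h (p i) - h (g i) ∈ [-a, b]` and `j ± 1 ∈ [-a, b]` by `range`. Arcs: `cov`.
-/

set_option autoImplicit false

namespace Pool.AAT

open Finset
open scoped Classical

theorem embed {V : Type} [Fintype V] (R : V → V → Prop) (n : ℕ) (T : Digraph (Fin n))
    (root : Fin n) (p : Fin n → Fin n) (d : Fin n → ℕ) (h : Fin n → ℤ) (m : ℕ)
    (st : Fin n → ℕ) (g : Fin n → Fin n) (a b : ℕ → ℕ) (leaf : ℕ → Bool)
    (hT : RT n T root p d h m st g a b leaf) (W : ℕ → Finset V) (P : ℕ → ℤ → V → Prop)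
    (hW0 : (W 0).Nonempty)
    (hW : ∀ s, 1 ≤ s → s ≤ m → W (s - 1) ⊆ W s ∧
        (1 ≤ cnt st s - 1 → (leaf s = false → 1 ≤ a s + b s) →
          Stage R (cnt st s - 1) (a s) (b s) (leaf s) (W s) (W (s - 1)) (P s))) :
    ∃ φ : Fin n → V, Function.Injective φ ∧ ∀ x y, T.Adj x y → R (φ x) (φ y) := by
  obtain ⟨M, hM⟩ : ∃ M : ℕ, ∀ i, d i ≤ M := ⟨univ.sup d, fun i => Finset.le_sup (mem_univ i)⟩
  have hroot : ∀ i, st i ≠ 0 → i ≠ root := fun i hi e => hi (by rw [e]; exact hT.st0)
  have hmul : ∀ i j, st i ≤ st j → st i * (M + 1) ≤ st j * (M + 1) := fun i j hij =>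
    Nat.mul_le_mul_right _ hij
  have hmul' : ∀ i j, st i < st j → st i * (M + 1) + (M + 1) ≤ st j * (M + 1) := by
    intro i j hij
    have h1 : (st i + 1) * (M + 1) ≤ st j * (M + 1) := Nat.mul_le_mul_right _ hij
    rw [Nat.succ_mul] at h1
    exact h1
  have hcard2 : ∀ i, i ≠ root → 1 ≤ cnt st (st i) - 1 := by
    intro i hi
    have h1 : ({root, i} : Finset (Fin n)) ⊆ univ.filter (fun j => st j ≤ st i) := by
      intro j hj
      rw [mem_insert, mem_singleton] at hj
      refine mem_filter.2 ⟨mem_univ _, ?_⟩
      rcases hj with rfl | rfl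
      · rw [hT.st0]
        exact Nat.zero_le _
      · exact le_rfl
    have h2 := card_le_card h1
    rw [card_pair (Ne.symm hi)] at h2
    unfold cnt
    omega
  have hab : ∀ i, i ≠ root → leaf (st i) = false → 1 ≤ a (st i) + b (st i) := by
    intro i hi hl
    have h1 := hT.range i hi hl
    have h2 := hT.hpm i hi
    rcases Nat.lt_or_ge (st (p i)) (st i) with h3 | h3
    · have h4 := hT.g1 i hi h3
      rw [h4] at h1
      omega
    · have h5 : st (p i) = st i := le_antisymm (hT.stm i hi) h3
      have h6 := hT.g2 i hi h5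
      have h7 : p i ≠ root := hroot _ (by
        rw [h5]
        have := (hT.st1 i hi).1
        omega)
      have h8 := hT.range (p i) h7 (by rw [h5]; exact hl)
      rw [h5, ← h6] at h8
      omega
  have hstage : ∀ i, i ≠ root → Stage R (cnt st (st i) - 1) (a (st i)) (b (st i)) (leaf (st i))
      (W (st i)) (W (st i - 1)) (P (st i)) := fun i hi =>
    (hW (st i) (hT.st1 i hi).1 (hT.st1 i hi).2).2 (hcard2 i hi) (hab i hi)
  have hmono : ∀ s k, s + k ≤ m → W s ⊆ W (s + k) := by
    intro s k
    induction k with
    | zero => exact fun _ => Subset.refl _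
    | succ k ih =>
      intro hk
      have h1 := (hW (s + (k + 1)) (by omega) hk).1
      have e : s + (k + 1) - 1 = s + k := by omega
      rw [e] at h1
      exact (ih (by omega)).trans h1
  have hmono' : ∀ s s', s ≤ s' → s' ≤ m → W s ⊆ W s' := by
    intro s s' h1 h2
    obtain ⟨k, rfl⟩ := Nat.exists_eq_add_of_le h1
    exact hmono s k h2
  obtain ⟨φ, hinj, hφ⟩ := Pool.Helper1.Layered.greedy root p (fun i => st i * (M + 1) + d i) (by
      intro i hi
      have h1 := hT.rank i hi
      have h2 := hmul (p i) i (hT.stm i hi)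
      show st (p i) * (M + 1) + d (p i) < st i * (M + 1) + d i
      omega)
    (fun i => cnt st (st i) - 1) (by
      intro i hi
      have hmem : i ∈ univ.filter (fun j => st j ≤ st i) := mem_filter.2 ⟨mem_univ _, le_rfl⟩
      refine le_trans (card_le_card (t := (univ.filter (fun j => st j ≤ st i)).erase i) ?_) ?_
      · intro j hj
        simp only [mem_filter] at hj
        obtain ⟨hji, hle⟩ := hj.2
        refine mem_erase.2 ⟨hji, mem_filter.2 ⟨mem_univ _, ?_⟩⟩
        by_contra hcon
        have h2 := hmul' i j (not_le.1 hcon)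
        have h3 := hM i
        have h4 : st j * (M + 1) + d j ≤ st i * (M + 1) + d i := hle
        omega
      · rw [card_erase_of_mem hmem]
        exact le_rfl)
    (fun i v => if i = root then v ∈ W 0 else P (st i) (h i - h (g i)) v)
    (fun i u z => (h i = h (p i) + 1 → R u z) ∧ (h i = h (p i) - 1 → R z u))
    (by
      obtain ⟨v, hv⟩ := hW0
      exact ⟨v, by rw [if_pos rfl]; exact hv⟩)
    (by
      intro i hi u hu
      obtain ⟨hs1, hsm⟩ := hT.st1 i hi
      have hS := hstage i hi
      have hpm := hT.hpm i hi
      -- a general step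
      have key : ∀ j : ℤ, P (st i) j u → h (p i) - h (g i) = j →
          (leaf (st i) = true → j = 0) →
          (leaf (st i) = false → -(a (st i) : ℤ) ≤ j ∧ j ≤ b (st i)) →
          ∃ Z : Finset V, cnt st (st i) - 1 ≤ Z.card ∧ u ∉ Z ∧
            ∀ z ∈ Z, (if i = root then z ∈ W 0 else P (st i) (h i - h (g i)) z) ∧
              ((h i = h (p i) + 1 → R u z) ∧ (h i = h (p i) - 1 → R z u)) := by
        intro j hj hjh hl1 hl2
        rcases hpm with h1 | h1
        · obtain ⟨Z, hZ1, hZ2, hZ3⟩ := hS.up j (by
            split_ifs with hl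
            · exact hl1 hl
            · have hl' : leaf (st i) = false := by simpa using hl
              have h2 := hT.range i hi hl'
              have h3 := hl2 hl'
              omega) u hj
          refine ⟨Z, hZ1, hZ2, fun z hz => ?_⟩
          rw [if_neg hi, show h i - h (g i) = j + 1 by omega]
          exact ⟨(hZ3 z hz).1, fun _ => (hZ3 z hz).2, fun h4 => by omega⟩
        · obtain ⟨Z, hZ1, hZ2, hZ3⟩ := hS.dn j (by
            split_ifs with hl
            · exact hl1 hl
            · have hl' : leaf (st i) = false := by simpa using hl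
              have h2 := hT.range i hi hl'
              have h3 := hl2 hl'
              omega) u hj
          refine ⟨Z, hZ1, hZ2, fun z hz => ?_⟩
          rw [if_neg hi, show h i - h (g i) = j - 1 by omega]
          exact ⟨(hZ3 z hz).1, fun h4 => by omega, fun _ => (hZ3 z hz).2⟩
      rcases Nat.lt_or_ge (st (p i)) (st i) with h3 | h3
      · have h4 := hT.g1 i hi h3
        have huW : u ∈ W (st i - 1) := by
          by_cases hpr : p i = root
          · rw [if_pos hpr] at hu
            exact hmono' 0 (st i - 1) (Nat.zero_le _) (by omega) hu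
          · rw [if_neg hpr] at hu
            exact hmono' (st (p i)) (st i - 1) (by omega) (by omega)
              ((hstage (p i) hpr).mem _ u hu)
        refine key 0 (hS.gate u huW) (by rw [h4, sub_self]) (fun _ => rfl) (fun _ => ?_)
        constructor <;> omega
      · have h5 : st (p i) = st i := le_antisymm (hT.stm i hi) h3
        have h6 := hT.g2 i hi h5
        have hl : leaf (st i) = false := by
          cases hl : leaf (st i) with
          | false => rfl
          | true =>
            have := hT.leafc i hi hl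
            omega
        have h7 : p i ≠ root := hroot _ (by omega)
        have h8 := hT.range (p i) h7 (by rw [h5]; exact hl)
        rw [if_neg h7] at hu
        rw [h5, ← h6] at h8 hu
        refine key (h (p i) - h (g i)) hu rfl (fun hl' => ?_) (fun _ => h8)
        rw [hl] at hl'
        exact absurd hl' (by simp))
  refine ⟨φ, hinj, fun x y hxy => ?_⟩
  rcases hT.cov x y hxy with ⟨h1, h2, h3⟩ | ⟨h1, h2, h3⟩
  · have h4 := (hφ y h1).1
    rw [h2] at h4
    exact h4 h3
  · have h4 := (hφ x h1).2
    rw [h2] at h4
    exact h4 (by omega)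

end Pool.AAT
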