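import Pool.Agent.AAT.Chain
import Pool.Agent.AAT.Embed
import Pool.Agent.AAT.Defs

/-!
# AAT-ChainP: the chain theorem for staged rooted trees

PLAN. Let `V`, `D` be given with `Σ + 1 ≤ chromaticNumber`; `R u v := D.Adj u v ∧ u ≠ v`. There is no
colouring `c : V → ℕ` of `R` with values `< Σ_s cost (cnt st s - 1) (a s) (b s) (leaf s)` (it would give
`Colorable`, see the beginning of `aux` in `Pool/Agent/Results/MP_35582f_co/LayeredTrees.lean`);
`chain_col` with `t s = cnt st s - 1`, then `embed`.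
-/

set_option autoImplicit false

namespace Pool.AAT

open Finset
open scoped Classical

theorem chainP (n : ℕ) (T : Digraph (Fin n)) (root : Fin n) (p : Fin n → Fin n) (d : Fin n → ℕ)
    (h : Fin n → ℤ) (m : ℕ) (st : Fin n → ℕ) (g : Fin n → Fin n) (a b : ℕ → ℕ) (leaf : ℕ → Bool)
    (hT : RT n T root p d h m st g a b leaf) (c : ℕ)
    (hc : ∑ s ∈ Icc 1 m, cost (cnt st s - 1) (a s) (b s) (leaf s) + 1 ≤ c) :
    Unavoidable n T c := by
  intro V _ D hchi
  obtain ⟨R, hR⟩ : ∃ R : V → V → Prop, R = fun u v => D.Adj u v ∧ u ≠ v := ⟨_, rfl⟩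
  have hirr : ∀ v, ¬ R v v := by
    intro v hv
    rw [hR] at hv
    exact hv.2 rfl
  have hno : ¬ ∃ col : V → ℕ,
      (∀ v, col v < ∑ s ∈ Icc 1 m, cost (cnt st s - 1) (a s) (b s) (leaf s)) ∧
      ∀ u v, R u v → col u ≠ col v := by
    rintro ⟨col, hc1, hc2⟩
    rw [hR] at hc2
    have hcol : (SimpleGraph.fromRel D.Adj).Colorable
        (∑ s ∈ Icc 1 m, cost (cnt st s - 1) (a s) (b s) (leaf s)) := by
      refine ⟨SimpleGraph.Coloring.mk (fun v => ⟨col v, hc1 v⟩) ?_⟩
      intro u v huv heq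
      have heq' : col u = col v := by simpa using heq
      rw [SimpleGraph.fromRel_adj] at huv
      rcases huv.2 with h1 | h1
      · exact hc2 u v ⟨h1, huv.1⟩ heq'
      · exact hc2 v u ⟨h1, huv.1.symm⟩ heq'.symm
    have h1 := le_trans hchi hcol.chromaticNumber_le
    have h2 := Nat.cast_le.1 h1
    omega
  obtain ⟨W, P, hW0, hW⟩ := chain_col R hirr m (fun s => cnt st s - 1) a b leaf hno
  obtain ⟨φ, hφ1, hφ2⟩ := embed R n T root p d h m st g a b leaf hT W P hW0 hW
  refine ⟨φ, hφ1, fun x y hxy => ?_⟩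
  have h1 := hφ2 x y hxy
  rw [hR] at h1
  exact h1.1

end Pool.AAT
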