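import Pool.Agent.AAT.StageD

/-!
# AAT-RTD: staged rooted trees (definitions only, nothing to prove)
-/

set_option autoImplicit false

namespace Pool.AAT

open Finset
open scoped Classical

/-- A rooted oriented tree with stages: `p` the parent function, `d` a rank, `h` the heights,
`st` the stages (the root has stage `0`, all other vertices have stage in `1..m`), `g i` the
nearest ancestor of smaller stage. -/
structure RT (n : ℕ) (T : Digraph (Fin n)) (root : Fin n) (p : Fin n → Fin n) (d : Fin n → ℕ)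
    (h : Fin n → ℤ) (m : ℕ) (st : Fin n → ℕ) (g : Fin n → Fin n) (a b : ℕ → ℕ)
    (leaf : ℕ → Bool) : Prop where
  rank : ∀ i, i ≠ root → d (p i) < d i
  cov : ∀ x y, T.Adj x y → (y ≠ root ∧ p y = x ∧ h y = h x + 1) ∨
    (x ≠ root ∧ p x = y ∧ h y = h x + 1)
  hpm : ∀ i, i ≠ root → h i = h (p i) + 1 ∨ h i = h (p i) - 1
  st0 : st root = 0
  st1 : ∀ i, i ≠ root → 1 ≤ st i ∧ st i ≤ m
  stm : ∀ i, i ≠ root → st (p i) ≤ st i
  g1 : ∀ i, i ≠ root → st (p i) < st i → g i = p i
  g2 : ∀ i, i ≠ root → st (p i) = st i → g i = g (p i)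
  range : ∀ i, i ≠ root → leaf (st i) = false →
    -(a (st i) : ℤ) ≤ h i - h (g i) ∧ h i - h (g i) ≤ b (st i)
  leafc : ∀ i, i ≠ root → leaf (st i) = true → st (p i) < st i

/-- The number of vertices of stage at most `s`. -/
def cnt {n : ℕ} (st : Fin n → ℕ) (s : ℕ) : ℕ := (univ.filter (fun i => st i ≤ s)).card

end Pool.AAT
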