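import Pool.Agent.AAT.Defs

/-!
# AAT-TreeA: parent functions give trees

PLAN. `G = SimpleGraph.fromRel (treeOf r p e).Adj` has exactly the edges `{a, p a}`, `a ≠ r`
(`p a ≠ a` for `a ≠ r`, since `a` reaches `r`). Connected: every vertex reaches `r` by `p`. The map
`a ↦ s(a, p a)` on `univ.erase r` is injective (if `s(a, p a) = s(b, p b)` with `a ≠ b` then `p a = b`,
`p b = a`, a 2-cycle, so `a` never reaches the fixed point `r`), so `G` has `n - 1` edges;
`SimpleGraph.isTree_iff_connected_and_card` (connected and `card edges + 1 = card vertices`).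
Antisymmetry: both arcs `a → b`, `b → a` would give `p a = b` and `p b = a` (2-cycle) or two values of
the same bit. `graphOf_eq`: the underlying graph does not depend on `e`.
-/

set_option autoImplicit false

namespace Pool.AAT

open Finset
open scoped Classical

private lemma fix_gen {α : Type} [Fintype α] {V R : Finset α} {p : α → α} (hp : p ∈ Forest V R)
    (x : α) (hx : x ∈ R) : p x = x := by
  rw [Forest, Finset.mem_filter] at hp
  apply hp.2.1
  intro h
  exact (Finset.mem_sdiff.1 h).2 hx

private lemma reach_gen {α : Type} [Fintype α] {V R : Finset α} {p : α → α} (hp : p ∈ Forest V R)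
    (x : α) (hx : x ∈ V) : ∃ i : ℕ, p^[i] x ∈ R := by
  rw [Forest, Finset.mem_filter] at hp
  exact hp.2.2.2 x hx

private lemma fixr {n : ℕ} {r : Fin n} {p : Fin n → Fin n} (hp : p ∈ Forest univ {r}) : p r = r :=
  fix_gen hp r (Finset.mem_singleton_self r)

private lemma reach {n : ℕ} {r : Fin n} {p : Fin n → Fin n} (hp : p ∈ Forest univ {r}) (x : Fin n) :
    ∃ i : ℕ, p^[i] x = r := by
  obtain ⟨i, hi⟩ := reach_gen hp x (Finset.mem_univ x)
  exact ⟨i, Finset.mem_singleton.1 hi⟩

private lemma two_cycle {n : ℕ} {r : Fin n} {p : Fin n → Fin n} (hp : p ∈ Forest univ {r})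
    (a b : Fin n) (hab : p a = b) (hba : p b = a) : a = r := by
  have h1 : ∀ i : ℕ, p^[i] a = a ∨ p^[i] a = b := by
    intro i
    induction i with
    | zero => left; rfl
    | succ i ih =>
      rw [Function.iterate_succ_apply']
      rcases ih with h | h
      · right; rw [h, hab]
      · left; rw [h, hba]
  obtain ⟨i, hi⟩ := reach hp a
  rcases h1 i with h | h
  · rw [← h, hi]
  · have h2 : b = r := by rw [← h, hi]
    rw [h2, fixr hp] at hba
    exact hba.symm

private theorem fromRel_treeOf' {n : ℕ} (r : Fin n) (p : Fin n → Fin n) (e : Fin n → Bool) :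
    SimpleGraph.fromRel (treeOf r p e).Adj =
      SimpleGraph.fromRel (fun a b : Fin n => a ≠ r ∧ p a = b) := by
  ext a b
  simp only [SimpleGraph.fromRel_adj, treeOf]
  constructor
  · rintro ⟨h, h1⟩
    refine ⟨h, ?_⟩
    rcases h1 with (h1 | h1) | (h1 | h1)
    · exact Or.inl ⟨h1.1, h1.2.1⟩
    · exact Or.inr ⟨h1.1, h1.2.1⟩
    · exact Or.inr ⟨h1.1, h1.2.1⟩
    · exact Or.inl ⟨h1.1, h1.2.1⟩
  · rintro ⟨h, h1⟩
    refine ⟨h, ?_⟩
    rcases h1 with h1 | h1
    · cases he : e a with
      | false => exact Or.inl (Or.inl ⟨h1.1, h1.2, rfl⟩)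
      | true => exact Or.inr (Or.inr ⟨h1.1, h1.2, rfl⟩)
    · cases he : e b with
      | false => exact Or.inr (Or.inl ⟨h1.1, h1.2, rfl⟩)
      | true => exact Or.inl (Or.inr ⟨h1.1, h1.2, rfl⟩)

private lemma tree_aux {n : ℕ} (r : Fin n) (p : Fin n → Fin n) (hp : p ∈ Forest univ {r}) :
    (SimpleGraph.fromRel (fun a b : Fin n => a ≠ r ∧ p a = b)).IsTree := by
  rw [SimpleGraph.isTree_iff_connected_and_card]
  have hne : ∀ a, a ≠ r → a ≠ p a := by
    intro a ha h
    exact ha (two_cycle hp a a h.symm h.symm)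
  have hadj : ∀ a, a ≠ r → (SimpleGraph.fromRel (fun a b : Fin n => a ≠ r ∧ p a = b)).Adj a (p a) := by
    intro a ha
    rw [SimpleGraph.fromRel_adj]
    exact ⟨hne a ha, Or.inl ⟨ha, rfl⟩⟩
  constructor
  · have hr : ∀ (i : ℕ) (x : Fin n), p^[i] x = r →
        (SimpleGraph.fromRel (fun a b : Fin n => a ≠ r ∧ p a = b)).Reachable x r := by
      intro i
      induction i with
      | zero =>
        intro x hx
        have : x = r := hx
        rw [this]
      | succ i ih =>
        intro x hx
        by_cases hxr : x = r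
        · rw [hxr]
        · rw [Function.iterate_succ_apply] at hx
          exact (hadj x hxr).reachable.trans (ih (p x) hx)
    have hr' : ∀ x : Fin n,
        (SimpleGraph.fromRel (fun a b : Fin n => a ≠ r ∧ p a = b)).Reachable x r := by
      intro x
      obtain ⟨i, hi⟩ := reach hp x
      exact hr i x hi
    haveI : Nonempty (Fin n) := ⟨r⟩
    exact SimpleGraph.Connected.mk (fun x y => (hr' x).trans (hr' y).symm)
  · have hset : (SimpleGraph.fromRel (fun a b : Fin n => a ≠ r ∧ p a = b)).edgeSet =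
        (fun a => s(a, p a)) '' {a : Fin n | a ≠ r} := by
      ext z
      induction z using Sym2.ind with
      | _ a b =>
      rw [SimpleGraph.mem_edgeSet, SimpleGraph.fromRel_adj]
      simp only [Set.mem_image, Set.mem_setOf_eq]
      constructor
      · rintro ⟨h, h1 | h1⟩
        · exact ⟨a, h1.1, by rw [h1.2]⟩
        · exact ⟨b, h1.1, by rw [h1.2, Sym2.eq_swap]⟩
      · rintro ⟨c, hc, hce⟩
        rw [Sym2.eq_iff] at hce
        rcases hce with ⟨h1, h2⟩ | ⟨h1, h2⟩
        · subst h1
          exact ⟨by rw [← h2]; exact hne c hc, Or.inl ⟨hc, h2⟩⟩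
        · subst h1
          exact ⟨by rw [← h2]; exact (hne c hc).symm, Or.inr ⟨hc, h2⟩⟩
    have hinj : Set.InjOn (fun a => s(a, p a)) {a : Fin n | a ≠ r} := by
      intro a ha b hb hab
      simp only [Sym2.eq_iff] at hab
      rcases hab with ⟨h1, _⟩ | ⟨h1, h2⟩
      · exact h1
      · exact (ha (two_cycle hp a (p a) rfl (by rw [h2, ← h1]))).elim
    rw [hset, Nat.card_image_of_injOn hinj]
    have h1 : Nat.card {a : Fin n | a ≠ r} = n - 1 := by
      rw [Nat.card_eq_fintype_card]
      have h2 : Fintype.card {a : Fin n // a ≠ r} = n - 1 := by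
        rw [Fintype.card_subtype_compl]
        simp
      exact h2
    rw [h1, Nat.card_eq_fintype_card, Fintype.card_fin]
    have := r.pos
    omega

theorem treeOf_otree {n : ℕ} (r : Fin n) (p : Fin n → Fin n) (hp : p ∈ Forest univ {r})
    (e : Fin n → Bool) : OTree n (treeOf r p e) := by
  refine ⟨?_, ?_⟩
  · intro a b h1 h2
    simp only [treeOf] at h1 h2
    rcases h1 with ⟨ha, hab, he⟩ | ⟨hb, hba, he⟩
    · rcases h2 with ⟨hb, hba, he'⟩ | ⟨ha', hab', he'⟩
      · exact ha (two_cycle hp a b hab hba)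
      · rw [he] at he'
        exact Bool.noConfusion he'
    · rcases h2 with ⟨hb', hba', he'⟩ | ⟨ha, hab, he'⟩
      · rw [he] at he'
        exact Bool.noConfusion he'
      · exact ha (two_cycle hp a b hab hba)
  · rw [fromRel_treeOf']
    exact tree_aux r p hp

theorem fromRel_treeOf {n : ℕ} (r : Fin n) (p : Fin n → Fin n) (e : Fin n → Bool) :
    SimpleGraph.fromRel (treeOf r p e).Adj =
      SimpleGraph.fromRel (fun a b : Fin n => a ≠ r ∧ p a = b) :=
  fromRel_treeOf' r p e

end Pool.AAT
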