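import Pool.Agent.AAT.Defs

/-!
# AAT-TreeB: every tree comes from exactly one parent function

PLAN. EXISTENCE (`exists_parent`): for a tree `G` on `Fin n` let `p r = r` and, for `a ≠ r`, `p a` = a
neighbour of `a` with `G.dist (p a) r < G.dist a r` (second vertex of a shortest walk to `r`). Then
`p ∈ Forest univ {r}` (the distance decreases until `r`). All edges are of the form `{a, p a}`:
`Pool.Helper1.Layered.cover_of_parents` proves this for `Fin (k + 1)` (count of edges), see
`Pool/Agent/Helper1/Layered/Tree.lean` (copy the argument; `n = k + 1` since `r : Fin n`).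
UNIQUENESS (`parent_inj`): if `p, p' ∈ Forest univ {r}` give the same graph and `p' x ≠ p x` for some
`x` (then `x ≠ r`), then the edge `{x, p x}` is `{y, p' y}` for some `y`, hence `p' (p x) = x`; by
induction `p' (p^[i+1] x) = p^[i] x` and `p^[i] x ≠ r` as long as the orbit has not reached `r`
[`z = p^[i+1] x ≠ r`: `p' z = p^[i] x ≠ p z` (no 2-cycle in `p`), so the edge `{z, p z}` must be
`{p z, p' (p z)}`]; at the first `i` with `p^[i+1] x = r` we get `p' r = p^[i] x ≠ r`, a contradiction.
-/

set_option autoImplicit false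

namespace Pool.AAT

open Finset
open scoped Classical

private theorem cover_aux {k : ℕ} (G : SimpleGraph (Fin (k + 1))) (hG : G.IsTree)
    (r : Fin (k + 1)) (p : Fin (k + 1) → Fin (k + 1)) (d : Fin (k + 1) → ℕ)
    (hp : ∀ i, i ≠ r → d (p i) < d i ∧ G.Adj i (p i)) :
    ∀ a b, G.Adj a b → ∃ i, i ≠ r ∧ ((i = a ∧ p i = b) ∨ (i = b ∧ p i = a)) := by
  have hinj : ∀ i j, i ≠ r → j ≠ r → s(i, p i) = s(j, p j) → i = j := by
    intro i j hi hj h
    rcases Sym2.eq_iff.1 h with h1 | h1
    · exact h1.1
    · exfalso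
      have e1 := (hp i hi).1
      have e2 := (hp j hj).1
      rw [h1.2] at e1
      rw [← h1.1] at e2
      omega
  intro a b hab
  have himg : (univ.erase r).image (fun i => s(i, p i)) = G.edgeFinset := by
    apply Finset.eq_of_subset_of_card_le
    · intro e he
      obtain ⟨i, hi, rfl⟩ := mem_image.1 he
      rw [SimpleGraph.mem_edgeFinset]
      exact (hp i (ne_of_mem_erase hi)).2
    · rw [Finset.card_image_of_injOn, card_erase_of_mem (mem_univ r), card_univ]
      · have := hG.card_edgeFinset
        omega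
      · intro i hi j hj h
        exact hinj i j (ne_of_mem_erase (mem_coe.1 hi)) (ne_of_mem_erase (mem_coe.1 hj)) h
  have hmem : s(a, b) ∈ (univ.erase r).image (fun i => s(i, p i)) := by
    rw [himg, SimpleGraph.mem_edgeFinset]; exact hab
  obtain ⟨i, hi, hi'⟩ := mem_image.1 hmem
  refine ⟨i, ne_of_mem_erase hi, ?_⟩
  rcases Sym2.eq_iff.1 hi' with h1 | h1
  · exact Or.inl h1
  · exact Or.inr h1

private theorem mem_forest {α : Type} [Fintype α] (V R : Finset α) (p : α → α) :
    p ∈ Forest V R ↔ (∀ x, ¬ (x ∈ V ∧ x ∉ R) → p x = x) ∧ (∀ x, x ∈ V → x ∉ R → p x ∈ V) ∧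
      ∀ x ∈ V, ∃ i : ℕ, p^[i] x ∈ R := by
  unfold Forest
  rw [Finset.mem_filter]
  constructor
  · rintro ⟨-, h1, h2, h3⟩
    refine ⟨fun x hx => h1 x (fun h => hx (Finset.mem_sdiff.mp h)),
      fun x hx hxR => h2 x (Finset.mem_sdiff.mpr ⟨hx, hxR⟩), h3⟩
  · rintro ⟨h1, h2, h3⟩
    refine ⟨Finset.mem_univ _, fun x hx => h1 x (fun h => hx (Finset.mem_sdiff.mpr h)),
      fun x hx => h2 x (Finset.mem_sdiff.mp hx).1 (Finset.mem_sdiff.mp hx).2, h3⟩

private theorem forest_prop {n : ℕ} (r : Fin n) (p : Fin n → Fin n)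
    (hp : p ∈ Forest univ {r}) : p r = r ∧ ∀ x, ∃ i : ℕ, p^[i] x = r := by
  rw [mem_forest] at hp
  obtain ⟨h1, -, h3⟩ := hp
  refine ⟨?_, ?_⟩
  · apply h1
    intro h
    exact h.2 (Finset.mem_singleton_self r)
  · intro x
    obtain ⟨i, hi⟩ := h3 x (Finset.mem_univ x)
    exact ⟨i, Finset.mem_singleton.mp hi⟩

private theorem no_two {n : ℕ} (r : Fin n) (p : Fin n → Fin n)
    (hp : p ∈ Forest univ {r}) (a : Fin n) (ha : a ≠ r) : p (p a) ≠ a := by
  intro h
  obtain ⟨hr, hreach⟩ := forest_prop r p hp
  obtain ⟨i, hi⟩ := hreach a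
  have h2 : ∀ m : ℕ, p^[2 * m] a = a := by
    intro m
    rw [Function.iterate_mul]
    apply Function.iterate_fixed
    exact h
  have h3 : p^[2 * i] a = r := by
    have h4 : 2 * i = i + i := by ring
    rw [h4, Function.iterate_add_apply, hi]
    exact Function.iterate_fixed hr i
  apply ha
  rw [← h2 i, h3]

theorem exists_parent {n : ℕ} (r : Fin n) (G : SimpleGraph (Fin n)) (hG : G.IsTree) :
    ∃ p ∈ Forest univ {r}, SimpleGraph.fromRel (fun a b : Fin n => a ≠ r ∧ p a = b) = G := by
  cases n with
  | zero => exact r.elim0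
  | succ k =>
    have hstep : ∀ i, i ≠ r → ∃ j, G.dist j r < G.dist i r ∧ G.Adj i j := by
      intro i hir
      obtain ⟨w, hw⟩ := (hG.1.preconnected i r).exists_walk_length_eq_dist
      cases w with
      | nil => exact absurd rfl hir
      | @cons _ j _ h q =>
        refine ⟨j, ?_, h⟩
        have h1 : G.dist j r ≤ q.length := SimpleGraph.dist_le q
        rw [SimpleGraph.Walk.length_cons] at hw
        omega
    choose! f hf using hstep
    obtain ⟨p, hp⟩ : ∃ p : Fin (k + 1) → Fin (k + 1), p = fun i => if i = r then r else f i :=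
      ⟨_, rfl⟩
    have hpr : p r = r := by
      rw [hp]
      simp
    have hpi : ∀ i, i ≠ r → G.dist (p i) r < G.dist i r ∧ G.Adj i (p i) := by
      intro i hi
      have h1 : p i = f i := by
        rw [hp]
        simp [hi]
      rw [h1]
      exact hf i hi
    refine ⟨p, ?_, ?_⟩
    · rw [mem_forest]
      refine ⟨?_, fun x _ _ => Finset.mem_univ _, ?_⟩
      · intro x hx
        have hxr : x = r := by
          by_contra h
          apply hx
          exact ⟨Finset.mem_univ _, fun h' => h (Finset.mem_singleton.mp h')⟩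
        rw [hxr, hpr]
      · have key : ∀ m : ℕ, ∀ x, G.dist x r ≤ m → ∃ i : ℕ, p^[i] x ∈ ({r} : Finset _) := by
          intro m
          induction m with
          | zero =>
            intro x hx
            by_cases hxr : x = r
            · exact ⟨0, Finset.mem_singleton.mpr hxr⟩
            · have := (hpi x hxr).1
              omega
          | succ m ih =>
            intro x hx
            by_cases hxr : x = r
            · exact ⟨0, Finset.mem_singleton.mpr hxr⟩
            · have h1 := (hpi x hxr).1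
              obtain ⟨i, hi⟩ := ih (p x) (by omega)
              exact ⟨i + 1, hi⟩
        intro x _
        exact key _ x le_rfl
    · ext a b
      rw [SimpleGraph.fromRel_adj]
      constructor
      · rintro ⟨-, ⟨h1, h2⟩ | ⟨h1, h2⟩⟩
        · rw [← h2]
          exact (hpi a h1).2
        · rw [← h2]
          exact (hpi b h1).2.symm
      · intro hab
        refine ⟨hab.ne, ?_⟩
        obtain ⟨i, hi, h | h⟩ := cover_aux G hG r p (fun x => G.dist x r) hpi a b hab
        · left
          rw [← h.1]
          exact ⟨hi, h.2⟩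
        · right
          rw [← h.1]
          exact ⟨hi, h.2⟩

theorem parent_inj {n : ℕ} (r : Fin n) (p p' : Fin n → Fin n) (hp : p ∈ Forest univ {r})
    (hp' : p' ∈ Forest univ {r})
    (h : SimpleGraph.fromRel (fun a b : Fin n => a ≠ r ∧ p a = b) =
      SimpleGraph.fromRel (fun a b : Fin n => a ≠ r ∧ p' a = b)) : p = p' := by
  by_contra hne
  obtain ⟨x, hx⟩ : ∃ x, p x ≠ p' x := by
    by_contra h'
    push Not at h'
    exact hne (funext h')
  obtain ⟨hr, hreach⟩ := forest_prop r p hp
  obtain ⟨hr', -⟩ := forest_prop r p' hp'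
  have hxr : x ≠ r := by
    intro e
    rw [e, hr, hr'] at hx
    exact hx rfl
  have hedge : ∀ z, z ≠ r → p z ≠ p' z → p z ≠ r ∧ p' (p z) = z := by
    intro z hz hzz
    have hzne : z ≠ p z := by
      intro e
      apply no_two r p hp z hz
      rw [← e, ← e]
    have h1 : (SimpleGraph.fromRel (fun a b : Fin n => a ≠ r ∧ p a = b)).Adj z (p z) := by
      rw [SimpleGraph.fromRel_adj]
      exact ⟨hzne, Or.inl ⟨hz, rfl⟩⟩
    rw [h, SimpleGraph.fromRel_adj] at h1
    rcases h1.2 with h2 | h2
    · exact absurd h2.2.symm hzz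
    · exact h2
  have key : ∀ i : ℕ, p^[i] x ≠ r ∧ p^[i + 1] x ≠ r ∧ p' (p^[i + 1] x) = p^[i] x := by
    intro i
    induction i with
    | zero => exact ⟨hxr, hedge x hxr hx⟩
    | succ i ih =>
      obtain ⟨h1, h2, h3⟩ := ih
      refine ⟨h2, ?_⟩
      have hz : p (p^[i + 1] x) ≠ p' (p^[i + 1] x) := by
        rw [h3, Function.iterate_succ_apply']
        exact no_two r p hp _ h1
      have h4 := hedge (p^[i + 1] x) h2 hz
      rw [Function.iterate_succ_apply' p (i + 1) x]
      exact h4
  obtain ⟨i, hi⟩ := hreach x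
  exact (key i).1 hi

end Pool.AAT
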