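import Pool.Agent.AAT.Defs
import Pool.Agent.AAT.TreeA
import Pool.Agent.AAT.TreeB

/-!
# AAT-TreeC: counting trees and oriented trees by parent functions

PLAN. `otree_exists`: for an oriented tree `T` take `p` from `exists_parent` for
`SimpleGraph.fromRel T.Adj` and `e x = true` iff `T.Adj (p x) x` (for `x ≠ r`, `e r = false`); since
exactly one of `T.Adj x (p x)`, `T.Adj (p x) x` holds, `treeOf r p e = T` (structure extensionality of
`Digraph`). `card_pairs`: the map `(p, e) ↦ treeOf r p e` from `Forest univ {r} ×ˢ univ` onto the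
oriented trees is exactly 2-to-1: `treeOf r p e = treeOf r p' e'` iff `p = p'` (`parent_inj` and
`fromRel_treeOf`) and `e = e'` off `r` (for `x ≠ r`: `T.Adj x (p x)` iff `e x = false`; `p x ≠ x`, no
2-cycles). `card_trees`: the same for graphs (1-to-1).
-/

set_option autoImplicit false

namespace Pool.AAT

open Finset
open scoped Classical

private lemma reach_gen {α : Type} [Fintype α] {V R : Finset α} {p : α → α} (hp : p ∈ Forest V R)
    (x : α) (hx : x ∈ V) : ∃ i : ℕ, p^[i] x ∈ R := by
  rw [Forest, Finset.mem_filter] at hp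
  exact hp.2.2.2 x hx

private lemma ne_parent {n : ℕ} {r : Fin n} {p : Fin n → Fin n} (hp : p ∈ Forest univ {r})
    (a : Fin n) (ha : a ≠ r) : a ≠ p a := by
  intro h
  obtain ⟨i, hi⟩ := reach_gen hp a (Finset.mem_univ a)
  have h1 : p^[i] a = a := Function.iterate_fixed h.symm i
  rw [h1] at hi
  exact ha (Finset.mem_singleton.1 hi)

theorem otree_exists {n : ℕ} (r : Fin n) (T : Digraph (Fin n)) (hT : OTree n T) :
    ∃ p ∈ Forest univ {r}, ∃ e : Fin n → Bool, treeOf r p e = T := by
  obtain ⟨hanti, htree⟩ := hT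
  obtain ⟨p, hp, hG⟩ := exists_parent r _ htree
  refine ⟨p, hp, fun x => decide (T.Adj (p x) x), ?_⟩
  have key : ∀ a b : Fin n, (a ≠ b ∧ ((a ≠ r ∧ p a = b) ∨ (b ≠ r ∧ p b = a))) ↔
      (a ≠ b ∧ (T.Adj a b ∨ T.Adj b a)) := by
    intro a b
    have h1 : (SimpleGraph.fromRel (fun a b : Fin n => a ≠ r ∧ p a = b)).Adj a b ↔
        (SimpleGraph.fromRel T.Adj).Adj a b := by rw [hG]
    rw [SimpleGraph.fromRel_adj, SimpleGraph.fromRel_adj] at h1
    exact h1
  ext a b
  simp only [treeOf, decide_eq_false_iff_not, decide_eq_true_eq]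
  constructor
  · rintro (⟨ha, hab, he⟩ | ⟨hb, hba, he⟩)
    · have h1 : a ≠ b := by
        rw [← hab]
        exact ne_parent hp a ha
      rcases ((key a b).1 ⟨h1, Or.inl ⟨ha, hab⟩⟩).2 with h2 | h2
      · exact h2
      · rw [hab] at he
        exact (he h2).elim
    · rw [hba] at he
      exact he
  · intro h
    have h1 : a ≠ b := by
      rintro rfl
      exact hanti a a h h
    rcases ((key a b).2 ⟨h1, Or.inl h⟩).2 with ⟨ha, hab⟩ | ⟨hb, hba⟩
    · refine Or.inl ⟨ha, hab, ?_⟩
      rw [hab]
      exact hanti a b h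
    · refine Or.inr ⟨hb, hba, ?_⟩
      rw [hba]
      exact h

private lemma pair_inj {n : ℕ} (r : Fin n) {p p' : Fin n → Fin n} (hp : p ∈ Forest univ {r})
    (hp' : p' ∈ Forest univ {r}) {e e' : Fin n → Bool} (he : e r = e' r)
    (h : treeOf r p e = treeOf r p' e') : p = p' ∧ e = e' := by
  have h1 : p = p' := by
    refine parent_inj r p p' hp hp' ?_
    rw [← fromRel_treeOf r p e, ← fromRel_treeOf r p' e', h]
  subst h1
  refine ⟨rfl, ?_⟩
  funext x
  by_cases hx : x = r
  · rw [hx]
    exact he
  · have h2 : (treeOf r p e).Adj x (p x) ↔ (treeOf r p e').Adj x (p x) := by rw [h]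
    have hanti := (treeOf_otree r p hp e).1
    have h3 : ∀ e : Fin n → Bool, (treeOf r p e).Adj x (p x) ↔ e x = false := by
      intro e
      constructor
      · intro h4
        by_contra h5
        have h6 : e x = true := by
          cases hex : e x with
          | false => exact (h5 hex).elim
          | true => rfl
        have h7 : (treeOf r p e).Adj (p x) x := Or.inr ⟨hx, rfl, h6⟩
        exact (treeOf_otree r p hp e).1 _ _ h4 h7
      · intro h4
        exact Or.inl ⟨hx, rfl, h4⟩
    rw [h3, h3] at h2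
    cases h4 : e x with
    | false => exact (h2.1 h4).symm
    | true =>
      cases h5 : e' x with
      | false => rw [h2.2 h5] at h4; exact h4.symm
      | true => rfl

theorem card_pairs {n : ℕ} (r : Fin n) (Q : Digraph (Fin n) → Prop) :
    (((Forest univ {r} : Finset (Fin n → Fin n)) ×ˢ (univ : Finset (Fin n → Bool))).filter
        (fun x => Q (treeOf r x.1 x.2))).card = 2 * {T | OTree n T ∧ Q T}.ncard := by
  set S := ((Forest univ {r} : Finset (Fin n → Fin n)) ×ˢ
    (univ : Finset (Fin n → Bool))).filter (fun x => Q (treeOf r x.1 x.2)) with hS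
  have hb : ∀ b : Bool, (S.filter (fun x => x.2 r = b)).card = {T | OTree n T ∧ Q T}.ncard := by
    intro b
    have h1 : (fun x : (Fin n → Fin n) × (Fin n → Bool) => treeOf r x.1 x.2) ''
        (S.filter (fun x => x.2 r = b) : Set ((Fin n → Fin n) × (Fin n → Bool))) =
        {T | OTree n T ∧ Q T} := by
      ext T
      constructor
      · rintro ⟨x, hx, rfl⟩
        have hx1 := Finset.mem_filter.1 (Finset.mem_coe.1 hx)
        have hx2 := Finset.mem_filter.1 hx1.1
        have hx3 := Finset.mem_product.1 hx2.1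
        exact ⟨treeOf_otree r x.1 hx3.1 x.2, hx2.2⟩
      · rintro ⟨hT, hQ⟩
        obtain ⟨p, hp, e, he⟩ := otree_exists r T hT
        have h2 : treeOf r p (Function.update e r b) = T := by
          rw [← he]
          ext c d
          simp only [treeOf]
          constructor
          · rintro (⟨ha, hab, hee⟩ | ⟨hb, hba, hee⟩)
            · rw [Function.update_of_ne ha] at hee
              exact Or.inl ⟨ha, hab, hee⟩
            · rw [Function.update_of_ne hb] at hee
              exact Or.inr ⟨hb, hba, hee⟩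
          · rintro (⟨ha, hab, hee⟩ | ⟨hb, hba, hee⟩)
            · refine Or.inl ⟨ha, hab, ?_⟩
              rw [Function.update_of_ne ha]
              exact hee
            · refine Or.inr ⟨hb, hba, ?_⟩
              rw [Function.update_of_ne hb]
              exact hee
        refine ⟨(p, Function.update e r b), ?_, h2⟩
        refine Finset.mem_coe.2 (Finset.mem_filter.2 ⟨Finset.mem_filter.2
          ⟨Finset.mem_product.2 ⟨hp, Finset.mem_univ _⟩, ?_⟩, ?_⟩)
        · change Q (treeOf r p (Function.update e r b))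
          rw [h2]
          exact hQ
        · change Function.update e r b r = b
          rw [Function.update_self]
    rw [← h1, Set.InjOn.ncard_image, Set.ncard_coe_finset]
    intro x hx y hy hxy
    have hx1 := Finset.mem_filter.1 (Finset.mem_coe.1 hx)
    have hx2 := Finset.mem_filter.1 hx1.1
    have hx3 := Finset.mem_product.1 hx2.1
    have hy1 := Finset.mem_filter.1 (Finset.mem_coe.1 hy)
    have hy2 := Finset.mem_filter.1 hy1.1
    have hy3 := Finset.mem_product.1 hy2.1
    obtain ⟨h3, h4⟩ := pair_inj r hx3.1 hy3.1 (hx1.2.trans hy1.2.symm) hxy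
    exact Prod.ext h3 h4
  have h2 : S.card = ∑ b : Bool, (S.filter (fun x => x.2 r = b)).card :=
    Finset.card_eq_sum_card_fiberwise (s := S)
      (f := fun x : (Fin n → Fin n) × (Fin n → Bool) => x.2 r) (t := univ)
      (fun x _ => Finset.mem_coe.2 (Finset.mem_univ _))
  rw [h2, Fintype.sum_bool, hb true, hb false]
  omega

theorem card_trees {n : ℕ} (r : Fin n) (Q : SimpleGraph (Fin n) → Prop) :
    ((Forest univ {r} : Finset (Fin n → Fin n)).filter
        (fun p => Q (SimpleGraph.fromRel (fun a b : Fin n => a ≠ r ∧ p a = b)))).card =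
      {G : SimpleGraph (Fin n) | G.IsTree ∧ Q G}.ncard := by
  set S := (Forest univ {r} : Finset (Fin n → Fin n)).filter
    (fun p => Q (SimpleGraph.fromRel (fun a b : Fin n => a ≠ r ∧ p a = b))) with hS
  have h1 : (fun p : Fin n → Fin n => SimpleGraph.fromRel (fun a b : Fin n => a ≠ r ∧ p a = b)) ''
      (S : Set (Fin n → Fin n)) = {G : SimpleGraph (Fin n) | G.IsTree ∧ Q G} := by
    ext G
    constructor
    · rintro ⟨p, hp, rfl⟩
      have hp1 := Finset.mem_filter.1 (Finset.mem_coe.1 hp)
      refine ⟨?_, hp1.2⟩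
      have h2 := (treeOf_otree r p hp1.1 (fun _ => false)).2
      rw [fromRel_treeOf] at h2
      exact h2
    · rintro ⟨hT, hQ⟩
      obtain ⟨p, hp, he⟩ := exists_parent r G hT
      refine ⟨p, Finset.mem_coe.2 (Finset.mem_filter.2 ⟨hp, ?_⟩), he⟩
      rw [he]
      exact hQ
  rw [← h1, Set.InjOn.ncard_image, Set.ncard_coe_finset]
  intro x hx y hy hxy
  have hx1 := Finset.mem_filter.1 (Finset.mem_coe.1 hx)
  have hy1 := Finset.mem_filter.1 (Finset.mem_coe.1 hy)
  exact parent_inj r x y hx1.1 hy1.1 hxy

end Pool.AAT
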