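import Pool.Agent.AAT.Defs

/-!
# AAT-ChD: chains of subtrees (definition only, nothing to prove)
-/

set_option autoImplicit false

namespace Pool.AAT

open Finset
open scoped Classical

/-- `T` (on the vertex set `Fin n`) has a chain of subtrees of total cost `c - 1`:
`{r} = X 0 ⊆ X 1 ⊆ … ⊆ X m = V(T)`; the step from `X (i-1)` to `X i` costs `(a + b) (4 |X i| - 7)`
if the height of each vertex of `X i`, relative to the nearest vertex of `X (i-1)`, lies in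
`[-a, b]`, or `4 |X i| - 6` if all new vertices are adjacent to `X (i-1)`. -/
def ChainBound (n : ℕ) (T : Digraph (Fin n)) (c : ℕ) : Prop :=
  ∃ (h : Fin n → ℤ) (m : ℕ) (X : ℕ → Set (Fin n)) (r : Fin n) (w : ℕ → ℕ),
    (∀ a b, T.Adj a b → h b = h a + 1) ∧ X 0 = {r} ∧ X m = Set.univ ∧
    (∀ i < m, X i ⊆ X (i + 1)) ∧
    (∀ i ≤ m, ((SimpleGraph.fromRel T.Adj).induce (X i)).Connected) ∧
    (∀ i, 1 ≤ i → i ≤ m →
      (∃ a b : ℕ, (∀ u ∈ X i, ∀ x ∈ X (i - 1),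
          (∀ y ∈ X (i - 1), (SimpleGraph.fromRel T.Adj).dist u x ≤
            (SimpleGraph.fromRel T.Adj).dist u y) → h x - a ≤ h u ∧ h u ≤ h x + b) ∧
        (a + b) * (4 * (X i).ncard - 7) ≤ w i) ∨
      ((∀ u ∈ X i, u ∉ X (i - 1) → ∃ x ∈ X (i - 1), (SimpleGraph.fromRel T.Adj).Adj u x) ∧
        4 * (X i).ncard - 6 ≤ w i)) ∧
    ∑ i ∈ Icc 1 m, w i + 1 ≤ c

end Pool.AAT
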