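import Pool.Agent.AAT.Elim
import Pool.Agent.Helper1.Layered.Embed

/-!
# AAT-Dead: the vertices dead at the gate level have few colours
-/

set_option autoImplicit false

namespace Pool.AAT

open Finset
open scoped Classical

variable {V : Type} [Fintype V]

theorem dead_col (k r a : ℕ) (hk : 1 ≤ k) (hr : 1 ≤ r) (ha : a ≤ r) (R : V → V → Prop)
    (hirr : ∀ v, ¬ R v v) (W : Finset V) :
    ∃ S : Finset (ℕ × V × V), Pool.Helper1.Layered.Stuck k r S ∧
      (∀ i u v, (i, u, v) ∈ S → i < r ∧ R u v ∧ u ∈ W ∧ v ∈ W) ∧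
      ∃ c : V → ℕ, (∀ v, c v < r * (4 * k - 3)) ∧
        ∀ u ∈ W, ∀ v ∈ W, ¬ Pool.Helper1.Layered.Alive r S a u →
          ¬ Pool.Helper1.Layered.Alive r S a v → R u v → c u ≠ c v := by
  obtain ⟨B, hB⟩ : ∃ B : Finset (ℕ × V × V), ∀ i u v, (i, u, v) ∈ B ↔
      i < r ∧ R u v ∧ u ∈ W ∧ v ∈ W := by
    refine ⟨(range r ×ˢ (W ×ˢ W)).filter (fun x => R x.2.1 x.2.2), ?_⟩
    intro i u v
    simp only [mem_filter, mem_product, mem_range]
    tauto
  obtain ⟨S, hSB, hS, O, I, ρ, hO, hI, h⟩ := elim_max k r B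
  refine ⟨S, hS, fun i u v hx => (hB i u v).1 (hSB hx), ?_⟩
  -- the classes
  have hcls : ∀ v, ∃ j, j < r ∧ (¬ Pool.Helper1.Layered.Alive r S a v →
      (a ≤ j → (¬ ∃ w, (j, v, w) ∈ S) ∧ (1 ≤ j → ρ j v = true) ∧
        ¬ (j + 1 < r ∧ (¬ ∃ w, (j + 1, v, w) ∈ S) ∧ ρ (j + 1) v = true)) ∧
      (j < a → (¬ ∃ w, (j, w, v) ∈ S) ∧ (j + 1 < r → ρ (j + 1) v = false) ∧
        ¬ (1 ≤ j ∧ (¬ ∃ w, (j - 1, w, v) ∈ S) ∧ ρ j v = false))) := by
    intro v
    by_cases hup : a < r ∧ (a = 0 ∨ ρ a v = true)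
    · -- upper classes
      have hex : ∃ i, a ≤ i ∧ ¬ (i + 1 < r ∧ (¬ ∃ w, (i + 1, v, w) ∈ S) ∧
          ρ (i + 1) v = true) := ⟨r - 1, by omega, fun h1 => by omega⟩
      obtain ⟨h1, h2⟩ := Nat.find_spec hex
      have h3 : ∀ i, a ≤ i → i < Nat.find hex → (i + 1 < r ∧ (¬ ∃ w, (i + 1, v, w) ∈ S) ∧
          ρ (i + 1) v = true) := by
        intro i hi hi'
        by_contra hcon
        exact Nat.find_min hex hi' ⟨hi, hcon⟩
      have h4 : Nat.find hex ≤ r - 1 := Nat.find_min' hex ⟨by omega, fun h1 => by omega⟩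
      generalize Nat.find hex = j at h1 h2 h3 h4
      refine ⟨j, by omega, fun hdead => ⟨fun _ => ⟨?_, ?_, h2⟩, fun hj => absurd hj (by omega)⟩⟩
      · rcases Nat.eq_or_lt_of_le h1 with h5 | h5
        · subst h5
          rintro ⟨w, hw⟩
          refine hdead ⟨fun _ => ⟨w, hw⟩, ?_⟩
          intro j hj
          subst hj
          exact (hS.2.2 j v (by omega)).2 ⟨w, hw⟩
        · have := (h3 (j - 1) (by omega) (by omega)).2.1
          rwa [show j - 1 + 1 = j by omega] at this
      · intro hj1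
        rcases Nat.eq_or_lt_of_le h1 with h5 | h5
        · subst h5
          rcases hup.2 with h6 | h6
          · omega
          · exact h6
        · have := (h3 (j - 1) (by omega) (by omega)).2.2
          rwa [show j - 1 + 1 = j by omega] at this
    · -- lower classes
      have ha1 : 1 ≤ a := by
        by_contra hcon
        exact hup ⟨by omega, Or.inl (by omega)⟩
      have hs : ¬ (1 ≤ Nat.findGreatest (fun j => ¬ (1 ≤ j ∧ (¬ ∃ w, (j - 1, w, v) ∈ S) ∧
          ρ j v = false)) (a - 1) ∧ (¬ ∃ w, (Nat.findGreatest (fun j => ¬ (1 ≤ j ∧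
          (¬ ∃ w, (j - 1, w, v) ∈ S) ∧ ρ j v = false)) (a - 1) - 1, w, v) ∈ S) ∧
          ρ (Nat.findGreatest (fun j => ¬ (1 ≤ j ∧ (¬ ∃ w, (j - 1, w, v) ∈ S) ∧
          ρ j v = false)) (a - 1)) v = false) :=
        Nat.findGreatest_spec (P := fun j => ¬ (1 ≤ j ∧ (¬ ∃ w, (j - 1, w, v) ∈ S) ∧
          ρ j v = false)) (Nat.zero_le (a - 1)) (fun h1 => by omega)
      have hg : ∀ i, Nat.findGreatest (fun j => ¬ (1 ≤ j ∧ (¬ ∃ w, (j - 1, w, v) ∈ S) ∧
          ρ j v = false)) (a - 1) < i → i ≤ a - 1 → (1 ≤ i ∧ (¬ ∃ w, (i - 1, w, v) ∈ S) ∧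
          ρ i v = false) := by
        intro i hi hi'
        by_contra hcon
        exact Nat.findGreatest_is_greatest hi hi' hcon
      have hle : Nat.findGreatest (fun j => ¬ (1 ≤ j ∧ (¬ ∃ w, (j - 1, w, v) ∈ S) ∧
          ρ j v = false)) (a - 1) ≤ a - 1 := Nat.findGreatest_le (a - 1)
      generalize Nat.findGreatest (fun j => ¬ (1 ≤ j ∧ (¬ ∃ w, (j - 1, w, v) ∈ S) ∧
          ρ j v = false)) (a - 1) = j at hs hg hle
      refine ⟨j, by omega, fun hdead => ⟨fun hj => absurd hj (by omega), fun _ => ⟨?_, ?_, hs⟩⟩⟩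
      · by_cases h5 : j + 1 = a
        · rintro ⟨w, hw⟩
          refine hdead ⟨fun h6 => ?_, ?_⟩
          · have := (hS.2.2 j v (by omega)).1 ⟨w, hw⟩
            rwa [h5] at this
          · intro j' hj'
            have : j' = j := by omega
            subst this
            exact ⟨w, hw⟩
        · have := (hg (j + 1) (by omega) (by omega)).2.1
          rwa [Nat.add_sub_cancel] at this
      · intro hj1
        by_cases h5 : j + 1 = a
        · rw [h5]
          by_contra hcon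
          rw [Bool.not_eq_false] at hcon
          exact hup ⟨by omega, Or.inr hcon⟩
        · exact (hg (j + 1) (by omega) (by omega)).2.2
  choose cl hclr hcl using hcls
  -- arcs within a class are covered
  have hcov : ∀ u ∈ W, ∀ v ∈ W, ¬ Pool.Helper1.Layered.Alive r S a u →
      ¬ Pool.Helper1.Layered.Alive r S a v → R u v → cl u = cl v →
      v ∈ O (cl u) u ∨ u ∈ I (cl v) v := by
    intro u hu v hv hdu hdv huv hclass
    have hj := hclr u
    have hu' := hcl u hdu
    have hv' := hcl v hdv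
    rw [← hclass] at hv' ⊢
    generalize cl u = j at hj hu' hv'
    by_cases haj : a ≤ j
    · obtain ⟨u1, u2, u3⟩ := hu'.1 haj
      obtain ⟨v1, v2, v3⟩ := hv'.1 haj
      rcases h j u v ((hB j u v).2 ⟨hj, huv, hu, hv⟩) (fun hx => u1 ⟨v, hx⟩) with
        h5 | h5 | h5 | h5
      · exact Or.inl h5
      · exact Or.inr h5
      · exact absurd h5 v3
      · have := u2 h5.1
        rw [h5.2.2.2] at this
        exact absurd this (by simp)
    · obtain ⟨u1, u2, u3⟩ := hu'.2 (by omega)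
      obtain ⟨v1, v2, v3⟩ := hv'.2 (by omega)
      rcases h j u v ((hB j u v).2 ⟨hj, huv, hu, hv⟩) (fun hx => v1 ⟨u, hx⟩) with
        h5 | h5 | h5 | h5
      · exact Or.inl h5
      · exact Or.inr h5
      · have := v2 h5.1
        rw [h5.2.2] at this
        exact absurd this (by simp)
      · exact absurd ⟨h5.1, h5.2.2.1, h5.2.2.2⟩ u3
  -- colours of a class
  have hcc : ∀ j, ∃ c : V → ℕ, (∀ v, c v < 4 * k - 3) ∧
      ∀ u ∈ W, ∀ v ∈ W, ¬ Pool.Helper1.Layered.Alive r S a u →
      ¬ Pool.Helper1.Layered.Alive r S a v → R u v → cl u = j → cl v = j → c u ≠ c v := by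
    intro j
    obtain ⟨c, hc1, hc2⟩ := Pool.Helper1.Layered.col_of_cover R (fun v => O j v ∪ I j v)
      (2 * (k - 1)) (by
        intro v
        refine le_trans (card_union_le _ _) ?_
        have := hO j v
        have := hI j v
        omega) hirr
      (W.filter (fun v => ¬ Pool.Helper1.Layered.Alive r S a v ∧ cl v = j)) (by
        intro u hu v hv huv
        obtain ⟨hu1, hu2, hu3⟩ := mem_filter.1 hu
        obtain ⟨hv1, hv2, hv3⟩ := mem_filter.1 hv
        rcases hcov u hu1 v hv1 hu2 hv2 huv (hu3.trans hv3.symm) with h5 | h5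
        · left
          rw [hu3] at h5
          exact mem_union_left _ h5
        · right
          rw [hv3] at h5
          exact mem_union_right _ h5)
    refine ⟨c, fun v => ?_, ?_⟩
    · have := hc1 v
      omega
    · intro u hu v hv hdu hdv huv h1 h2
      exact hc2 u (mem_filter.2 ⟨hu, hdu, h1⟩) v (mem_filter.2 ⟨hv, hdv, h2⟩) huv
  choose c hc1 hc2 using hcc
  refine ⟨fun v => cl v * (4 * k - 3) + c (cl v) v, ?_, ?_⟩
  · intro v
    have h1 := hc1 (cl v) v
    have h2 := hclr v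
    calc cl v * (4 * k - 3) + c (cl v) v < cl v * (4 * k - 3) + (4 * k - 3) := by omega
      _ = (cl v + 1) * (4 * k - 3) := by ring
      _ ≤ r * (4 * k - 3) := Nat.mul_le_mul_right _ h2
  · intro u hu v hv hdu hdv huv heq
    simp only at heq
    have h1 := hc1 (cl u) u
    have h2 := hc1 (cl v) v
    have hclass : cl u = cl v := by
      rcases lt_trichotomy (cl u) (cl v) with h3 | h3 | h3
      · have h4 : (cl u + 1) * (4 * k - 3) ≤ cl v * (4 * k - 3) := Nat.mul_le_mul_right _ h3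
        rw [Nat.add_mul, Nat.one_mul] at h4
        omega
      · exact h3
      · have h4 : (cl v + 1) * (4 * k - 3) ≤ cl u * (4 * k - 3) := Nat.mul_le_mul_right _ h3
        rw [Nat.add_mul, Nat.one_mul] at h4
        omega
    rw [hclass] at heq
    have h5 : c (cl v) u = c (cl v) v := by omega
    exact hc2 (cl v) u hu v hv hdu hdv huv hclass rfl h5

end Pool.AAT
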