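import Pool.Agent.AAT.StageD
import Pool.Agent.AAT.Dead

/-!
# AAT-StageG: existence of stages

PLAN. `stage_gen`: `dead_col` with `k = t`, `r = a + b`, gate level `a`. `W' = {v ∈ W | Alive (a+b) S a v}`
and `P j v := v ∈ W ∧ ∃ i : ℕ, (i : ℤ) = a + j ∧ i ≤ a + b ∧ Alive (a+b) S i v`. Up-step at `j` (so
`i = a + j < a + b`): `v` is alive at `i < r`, so there is an arc `(i, v, ·)` in `S` and, `S` being
stuck, the set `Z = {z | (i, v, z) ∈ S}` has at least `t` elements, all in `W`, all alive at `i + 1`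
(`Alive.up`), `R v z`, and `v ∉ Z` by irreflexivity. Down-step (`i = a + j ≥ 1`): `Z = {z | (i-1, z, v) ∈ S}`,
`Alive.down`. The vertices of `W \ W'` are dead at `a`: colouring of `dead_col`.
`stage_leaf`: `W' = {v ∈ W | t ≤ #out-neighbours in W, t ≤ #in-neighbours in W}`, `P 0 v := v ∈ W'`,
`P j v := v ∈ W` for `j ≠ 0`. The vertices of `W` with less than `t` out-neighbours in `W` can be
coloured with `2(t-1)+1` colours (`col_of_cover`), the same for in-neighbours, together `4t - 2`; see
`col_lev` in `Pool/Agent/Helper1/Layered/Embed.lean`.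
-/

set_option autoImplicit false

namespace Pool.AAT

open Finset
open scoped Classical

variable {V : Type} [Fintype V]

theorem stage_gen (R : V → V → Prop) (hirr : ∀ v, ¬ R v v) (t a b : ℕ) (ht : 1 ≤ t)
    (hab : 1 ≤ a + b) (W : Finset V) :
    ∃ (W' : Finset V) (P : ℤ → V → Prop), Stage R t a b false W W' P ∧
      ∃ c : V → ℕ, (∀ v, c v < (a + b) * (4 * t - 3)) ∧
        ∀ u ∈ W, u ∉ W' → ∀ v ∈ W, v ∉ W' → R u v → c u ≠ c v := by
  obtain ⟨S, hS, hSB, c, hc1, hc2⟩ := dead_col t (a + b) a ht hab (Nat.le_add_right a b) R hirr W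
  refine ⟨W.filter (fun v => Pool.Helper1.Layered.Alive (a + b) S a v),
    fun j v => v ∈ W ∧ ∃ i : ℕ, (i : ℤ) = a + j ∧ i ≤ a + b ∧
      Pool.Helper1.Layered.Alive (a + b) S i v, ⟨filter_subset _ _, ?_, fun j v h => h.1, ?_, ?_⟩,
    c, hc1, ?_⟩
  · intro v hv
    obtain ⟨h1, h2⟩ := mem_filter.1 hv
    exact ⟨h1, a, by omega, Nat.le_add_right a b, h2⟩
  · intro j hj v hv
    rw [if_neg (by simp)] at hj
    obtain ⟨hvW, i, hi, hir, hal⟩ := hv
    have hi2 : i < a + b := by omega
    obtain ⟨w, hw⟩ := hal.1 hi2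
    refine ⟨univ.filter (fun z => (i, v, z) ∈ S), hS.1 i v ⟨w, hw⟩, ?_, ?_⟩
    · intro h
      exact hirr v (hSB i v v (mem_filter.1 h).2).2.1
    · intro z hz
      have h := (mem_filter.1 hz).2
      have h1 := hSB i v z h
      exact ⟨⟨h1.2.2.2, i + 1, by push_cast; omega, by omega,
        Pool.Helper1.Layered.Alive.up hS h⟩, h1.2.1⟩
  · intro j hj v hv
    rw [if_neg (by simp)] at hj
    obtain ⟨hvW, i, hi, hir, hal⟩ := hv
    obtain ⟨i', rfl⟩ : ∃ i', i = i' + 1 := ⟨i - 1, by omega⟩
    obtain ⟨u, hu⟩ := hal.2 i' rfl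
    refine ⟨univ.filter (fun z => (i', z, v) ∈ S), hS.2.1 i' v ⟨u, hu⟩, ?_, ?_⟩
    · intro h
      exact hirr v (hSB i' v v (mem_filter.1 h).2).2.1
    · intro z hz
      have h := (mem_filter.1 hz).2
      have h1 := hSB i' z v h
      exact ⟨⟨h1.2.2.1, i', by push_cast at hi; omega, by omega,
        Pool.Helper1.Layered.Alive.down hS (by omega) h⟩, h1.2.1⟩
  · intro u hu hu' v hv hv' huv
    exact hc2 u hu v hv (fun h => hu' (mem_filter.2 ⟨hu, h⟩))
      (fun h => hv' (mem_filter.2 ⟨hv, h⟩)) huv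

theorem stage_leaf (R : V → V → Prop) (hirr : ∀ v, ¬ R v v) (t a b : ℕ) (ht : 1 ≤ t)
    (W : Finset V) :
    ∃ (W' : Finset V) (P : ℤ → V → Prop), Stage R t a b true W W' P ∧
      ∃ c : V → ℕ, (∀ v, c v < 4 * t - 2) ∧
        ∀ u ∈ W, u ∉ W' → ∀ v ∈ W, v ∉ W' → R u v → c u ≠ c v := by
  obtain ⟨W', hW'⟩ : ∃ W', W' = W.filter (fun v => t ≤ (W.filter (fun w => R v w)).card ∧
      t ≤ (W.filter (fun w => R w v)).card) := ⟨_, rfl⟩
  have hsub : W' ⊆ W := by
    rw [hW']
    exact filter_subset _ _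
  have hmem : ∀ v, v ∈ W' ↔ v ∈ W ∧ t ≤ (W.filter (fun w => R v w)).card ∧
      t ≤ (W.filter (fun w => R w v)).card := by
    intro v
    rw [hW', mem_filter]
  obtain ⟨c1, hc1, hc1'⟩ := Pool.Helper1.Layered.col_of_cover R
    (fun v => if (W.filter (fun w => R v w)).card < t then W.filter (fun w => R v w) else ∅)
    (t - 1) (by
      intro v
      split_ifs with h
      · omega
      · simp) hirr (W.filter (fun v => (W.filter (fun w => R v w)).card < t)) (by
      intro u hu v hv huv
      left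
      rw [if_pos (mem_filter.1 hu).2]
      exact mem_filter.2 ⟨(mem_filter.1 hv).1, huv⟩)
  obtain ⟨c2, hc2, hc2'⟩ := Pool.Helper1.Layered.col_of_cover R
    (fun v => if (W.filter (fun w => R w v)).card < t then W.filter (fun w => R w v) else ∅)
    (t - 1) (by
      intro v
      split_ifs with h
      · omega
      · simp) hirr (W.filter (fun v => (W.filter (fun w => R w v)).card < t)) (by
      intro u hu v hv huv
      right
      rw [if_pos (mem_filter.1 hv).2]
      exact mem_filter.2 ⟨(mem_filter.1 hu).1, huv⟩)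
  refine ⟨W', fun j v => if j = 0 then v ∈ W' else v ∈ W, ⟨hsub, ?_, ?_, ?_, ?_⟩,
    fun v => if (W.filter (fun w => R v w)).card < t then c1 v else 2 * (t - 1) + 1 + c2 v, ?_, ?_⟩
  · intro v hv
    simp only [if_true]
    exact hv
  · intro j v h
    by_cases hj : j = 0
    · simp only [if_pos hj] at h
      exact hsub h
    · simp only [if_neg hj] at h
      exact h
  · intro j hj v hv
    rw [if_pos rfl] at hj
    subst hj
    simp only [if_true] at hv
    have h1 := (hmem v).1 hv
    refine ⟨W.filter (fun w => R v w), h1.2.1, fun h => hirr v (mem_filter.1 h).2, ?_⟩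
    intro z hz
    refine ⟨?_, (mem_filter.1 hz).2⟩
    simp only [zero_add, one_ne_zero, if_false]
    exact (mem_filter.1 hz).1
  · intro j hj v hv
    rw [if_pos rfl] at hj
    subst hj
    simp only [if_true] at hv
    have h1 := (hmem v).1 hv
    refine ⟨W.filter (fun w => R w v), h1.2.2, fun h => hirr v (mem_filter.1 h).2, ?_⟩
    intro z hz
    refine ⟨?_, (mem_filter.1 hz).2⟩
    have h2 : (0 : ℤ) - 1 ≠ 0 := by norm_num
    simp only [if_neg h2]
    exact (mem_filter.1 hz).1
  · intro v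
    simp only
    have e1 := hc1 v
    have e2 := hc2 v
    split_ifs <;> omega
  · intro u hu hu' v hv hv' huv
    have hcl : ∀ x ∈ W, x ∉ W' → ¬ (W.filter (fun w => R x w)).card < t →
        (W.filter (fun w => R w x)).card < t := by
      intro x hx hx' h3
      by_contra h4
      exact hx' ((hmem x).2 ⟨hx, not_lt.1 h3, not_lt.1 h4⟩)
    by_cases hu2 : (W.filter (fun w => R u w)).card < t
    · by_cases hv2 : (W.filter (fun w => R v w)).card < t
      · simp only [if_pos hu2, if_pos hv2]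
        exact hc1' u (mem_filter.2 ⟨hu, hu2⟩) v (mem_filter.2 ⟨hv, hv2⟩) huv
      · simp only [if_pos hu2, if_neg hv2]
        have := hc1 u
        omega
    · by_cases hv2 : (W.filter (fun w => R v w)).card < t
      · simp only [if_neg hu2, if_pos hv2]
        have := hc1 v
        omega
      · simp only [if_neg hu2, if_neg hv2]
        have := hc2' u (mem_filter.2 ⟨hu, hcl u hu hu' hu2⟩) v
          (mem_filter.2 ⟨hv, hcl v hv hv' hv2⟩) huv
        omega

end Pool.AAT
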