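import Pool.Agent.AAT.StageD
import Pool.Agent.AAT.StageG

/-!
# AAT-Chain: nested stages

The stages are applied downwards; the vertices lost are coloured with disjoint palettes.
-/

set_option autoImplicit false

namespace Pool.AAT

open Finset
open scoped Classical

variable {V : Type} [Fintype V]

private theorem chn_step (R : V → V → Prop) (hirr : ∀ v, ¬ R v v) (t a b : ℕ) (leaf : Bool)
    (W : Finset V) : ∃ (W' : Finset V) (P : ℤ → V → Prop) (c : V → ℕ), W' ⊆ W ∧
      (1 ≤ t → (leaf = false → 1 ≤ a + b) → Stage R t a b leaf W W' P) ∧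
      (∀ v ∈ W, v ∉ W' → c v < cost t a b leaf) ∧
      ∀ u ∈ W, u ∉ W' → ∀ v ∈ W, v ∉ W' → R u v → c u ≠ c v := by
  by_cases h : 1 ≤ t ∧ (leaf = false → 1 ≤ a + b)
  · cases leaf with
    | false =>
      obtain ⟨W', P, hS, c, hc1, hc2⟩ := stage_gen R hirr t a b h.1 (h.2 rfl) W
      exact ⟨W', P, c, hS.sub, fun _ _ => hS, fun v _ _ => by simpa [cost] using hc1 v, hc2⟩
    | true =>
      obtain ⟨W', P, hS, c, hc1, hc2⟩ := stage_leaf R hirr t a b h.1 W
      exact ⟨W', P, c, hS.sub, fun _ _ => hS, fun v _ _ => by simpa [cost] using hc1 v, hc2⟩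
  · refine ⟨W, fun _ _ => False, fun _ => 0, subset_rfl, fun h1 h2 => absurd ⟨h1, h2⟩ h, ?_, ?_⟩
    · intro v hv hv'
      exact absurd hv hv'
    · intro u hu hu'
      exact absurd hu hu'

private theorem chn_sum (f : ℕ → ℕ) (m : ℕ) :
    ∑ j ∈ range m, f (m - j) = ∑ s ∈ Icc 1 m, f s := by
  refine Finset.sum_nbij' (fun j => m - j) (fun s => m - s) ?_ ?_ ?_ ?_ ?_
  · intro j hj
    rw [mem_range] at hj
    rw [mem_Icc]
    omega
  · intro s hs
    rw [mem_Icc] at hs
    rw [mem_range]
    omega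
  · intro j hj
    rw [mem_range] at hj
    show m - (m - j) = j
    omega
  · intro s hs
    rw [mem_Icc] at hs
    show m - (m - s) = s
    omega
  · intro j _
    rfl

theorem chain_col (R : V → V → Prop) (hirr : ∀ v, ¬ R v v) (m : ℕ) (t a b : ℕ → ℕ)
    (leaf : ℕ → Bool)
    (hno : ¬ ∃ c : V → ℕ, (∀ v, c v < ∑ s ∈ Icc 1 m, cost (t s) (a s) (b s) (leaf s)) ∧
      ∀ u v, R u v → c u ≠ c v) :
    ∃ (W : ℕ → Finset V) (P : ℕ → ℤ → V → Prop), (W 0).Nonempty ∧
      ∀ s, 1 ≤ s → s ≤ m → W (s - 1) ⊆ W s ∧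
        (1 ≤ t s → (leaf s = false → 1 ≤ a s + b s) →
          Stage R (t s) (a s) (b s) (leaf s) (W s) (W (s - 1)) (P s)) := by
  have hstep := fun (s : ℕ) (W : Finset V) => chn_step R hirr (t s) (a s) (b s) (leaf s) W
  choose F Q c hF1 hF2 hF3 hF4 using hstep
  obtain ⟨U, hU0, hU1⟩ : ∃ U : ℕ → Finset V, U 0 = univ ∧ ∀ k, U (k + 1) = F (m - k) (U k) :=
    ⟨fun k => Nat.rec univ (fun k U => F (m - k) U) k, rfl, fun k => rfl⟩
  have hcol : ∀ k, ∃ d : V → ℕ,
      (∀ v, v ∉ U k → d v < ∑ j ∈ range k, cost (t (m - j)) (a (m - j)) (b (m - j)) (leaf (m - j))) ∧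
      ∀ u v, u ∉ U k → v ∉ U k → R u v → d u ≠ d v := by
    intro k
    induction k with
    | zero =>
      refine ⟨fun _ => 0, fun v hv => ?_, fun u v hu => ?_⟩
      · exact absurd (by rw [hU0]; exact mem_univ v) hv
      · exact absurd (by rw [hU0]; exact mem_univ u) hu
    | succ k ih =>
      obtain ⟨d, hd1, hd2⟩ := ih
      refine ⟨fun v : V => if v ∈ U k then
        (∑ j ∈ range k, cost (t (m - j)) (a (m - j)) (b (m - j)) (leaf (m - j))) +
          c (m - k) (U k) v else d v, ?_, ?_⟩
      · intro v hv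
        rw [sum_range_succ]
        by_cases hk : v ∈ U k
        · simp only [if_pos hk]
          have := hF3 (m - k) (U k) v hk (by rw [← hU1]; exact hv)
          omega
        · simp only [if_neg hk]
          have := hd1 v hk
          omega
      · intro u v hu hv huv
        rw [hU1] at hu hv
        by_cases hk : u ∈ U k
        · by_cases hk' : v ∈ U k
          · simp only [if_pos hk, if_pos hk']
            have := hF4 (m - k) (U k) u hk hu v hk' hv huv
            omega
          · simp only [if_pos hk, if_neg hk']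
            have := hd1 v hk'
            omega
        · by_cases hk' : v ∈ U k
          · simp only [if_neg hk, if_pos hk']
            have := hd1 u hk
            omega
          · simp only [if_neg hk, if_neg hk']
            exact hd2 u v hk hk' huv
  refine ⟨fun s => U (m - s), fun s => Q s (U (m - s)), ?_, ?_⟩
  · refine nonempty_iff_ne_empty.2 fun hemp => ?_
    have hemp' : U m = ∅ := hemp
    obtain ⟨d, hd1, hd2⟩ := hcol m
    refine hno ⟨d, fun v => ?_, fun u v huv => ?_⟩
    · rw [← chn_sum (fun s => cost (t s) (a s) (b s) (leaf s)) m]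
      exact hd1 v (by rw [hemp']; exact notMem_empty v)
    · exact hd2 u v (by rw [hemp']; exact notMem_empty u) (by rw [hemp']; exact notMem_empty v) huv
  · intro s hs1 hs2
    have e : U (m - (s - 1)) = F s (U (m - s)) := by
      have e1 : m - (s - 1) = (m - s) + 1 := by omega
      have e2 : m - (m - s) = s := by omega
      rw [e1, hU1, e2]
    show U (m - (s - 1)) ⊆ U (m - s) ∧ (1 ≤ t s → (leaf s = false → 1 ≤ a s + b s) →
          Stage R (t s) (a s) (b s) (leaf s) (U (m - s)) (U (m - (s - 1))) (Q s (U (m - s))))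
    rw [e]
    exact ⟨hF1 s _, hF2 s _⟩

end Pool.AAT
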