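import Pool.Agent.AAT.ChainP
import Pool.Agent.AAT.ChD
import Pool.Agent.Helper1.Layered.Tree

/-!
# AAT-ChainG: the chain theorem for subtrees

PLAN. `G = fromRel T.Adj`, `n = k + 1` since `r : Fin n`. For `i ≠ r` let `p i` be the neighbour of
`i` on a shortest path to `r` (`dist (p i) r < dist i r`), `d i = dist i r`, `st i` = least `s` with
`i ∈ X s`. (A) `p i ∈ X s` for `i ∈ X s`, `i ≠ r`: `X s` is connected and contains `r`
(`X 0 ⊆ X s`), so the path from `i` to `r` inside `X s` is the unique path of the tree, and its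
second vertex is `p i`. (B) gate `g i` = `p^[j] i` with the least `j ≥ 1` such that
`st (p^[j] i) < st i` (exists: the root). With `A = X (st i - 1)`, the gate is a nearest vertex of `A`
to `i`: let `B` be the set of vertices outside `A` whose first ancestor in `A` is `g i`; every edge
(`{x, p x}`) with exactly one end in `B` has other end `g i` (because `A` is closed under parents),
so every walk from `i ∈ B` to a vertex of `A` passes through `g i`, and `dist i y ≥ dist i (g i)` for
all `y ∈ A`. So the range hypothesis applies to `(i, g i)`. (C) the hypothesis gives for each stage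
`s` a type: `leaf s = false` with the given `a, b` (choice), or `leaf s = true`; in the second case a
vertex `i` of stage `s` is adjacent to a vertex `x` of `X (s-1)`, and `x = p i` (otherwise `i = p x`,
`x ≠ r`, and `i ∈ X (s-1)` by (A)), so `st (p i) < st i`. `RT.cov`: every edge of the tree is `{i, p i}`
(`Pool.Helper1.Layered.cover_of_parents`). `cnt st s = (X s).ncard` for `s ≤ m`;
`cost (N-1) a b false = (a+b)(4N-7)` and `cost (N-1) a b true = 4N-6` for `N ≥ 1`. Apply `chainP`.
-/

set_option autoImplicit false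

namespace Pool.AAT

open Finset
open scoped Classical

/-- every walk that leaves the fringe of `t` uses the parent of `t` -/
private theorem cg_cross {V : Type} {G : SimpleGraph V} {r : V} {p : V → V}
    (hcov : ∀ a b, G.Adj a b → ∃ i, i ≠ r ∧ ((i = a ∧ p i = b) ∨ (i = b ∧ p i = a))) {t u v : V}
    (w : G.Walk u v) (hu : ∃ j : ℕ, p^[j] u = t) (hv : ¬ ∃ j : ℕ, p^[j] v = t) :
    p t ∈ w.support := by
  obtain ⟨d, hd, h1, h2⟩ := w.exists_boundary_dart {x | ∃ j : ℕ, p^[j] x = t} hu hv
  obtain ⟨i, _, h3 | h3⟩ := hcov _ _ d.adj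
  · obtain ⟨j, hj⟩ := h1
    have h4 : d.fst = t := by
      rcases j with _ | j
      · exact hj
      · exfalso
        apply h2
        refine ⟨j, ?_⟩
        rw [← h3.2, h3.1, ← Function.iterate_succ_apply]
        exact hj
    rw [← h4, ← h3.1, h3.2]
    exact w.dart_snd_mem_support_of_mem_darts hd
  · exfalso
    obtain ⟨j, hj⟩ := h1
    apply h2
    refine ⟨j + 1, ?_⟩
    rw [Function.iterate_succ_apply, ← h3.1, h3.2]
    exact hj

/-- connected sets containing the root are closed under parents -/
private theorem cg_par {V : Type} {G : SimpleGraph V} {r : V} {p : V → V} (hpr : p r = r)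
    (hcov : ∀ a b, G.Adj a b → ∃ i, i ≠ r ∧ ((i = a ∧ p i = b) ∨ (i = b ∧ p i = a)))
    (X : Set V) (hX : (G.induce X).Connected) (hr : r ∈ X) {i : V} (hi : i ∈ X) (hir : i ≠ r) :
    p i ∈ X := by
  obtain ⟨w⟩ := hX.preconnected ⟨i, hi⟩ ⟨r, hr⟩
  have h1 := cg_cross hcov (t := i) (w.map (SimpleGraph.Embedding.induce X).toHom) ⟨0, rfl⟩ (by
    rintro ⟨j, hj⟩
    have h2 : p^[j] r = r := Function.iterate_fixed hpr j
    exact hir (hj.symm.trans h2))
  rw [SimpleGraph.Walk.support_map, List.mem_map] at h1
  obtain ⟨x, _, hx⟩ := h1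
  rw [← hx]
  exact x.2

/-- the gates -/
private theorem cg_gate {V : Type} {r : V} {p : V → V} {st : V → ℕ} (hst0 : st r = 0)
    (hst1 : ∀ i, i ≠ r → 1 ≤ st i) (hstm : ∀ i, st (p i) ≤ st i)
    (hreach : ∀ i, ∃ j : ℕ, p^[j] i = r) :
    ∃ g : V → V, ∀ i, i ≠ r → (st (p i) < st i → g i = p i) ∧
      (st (p i) = st i → g i = g (p i)) ∧
      ∃ t, (∃ j : ℕ, p^[j] i = t) ∧ st t = st i ∧ t ≠ r ∧ p t = g i ∧ st (g i) < st i := by
  have hex : ∀ i, i ≠ r → ∃ j : ℕ, st (p^[j] i) < st i := by
    intro i hi
    obtain ⟨j, hj⟩ := hreach i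
    refine ⟨j, ?_⟩
    rw [hj, hst0]
    exact hst1 i hi
  obtain ⟨J, hJ1, hJ2⟩ : ∃ J : V → ℕ, (∀ i, i ≠ r → st (p^[J i] i) < st i) ∧
      ∀ i, i ≠ r → ∀ j < J i, ¬ st (p^[j] i) < st i := by
    refine ⟨fun i => if h : i ≠ r then Nat.find (hex i h) else 0, fun i hi => ?_,
      fun i hi j hj => ?_⟩
    · simp only [dif_pos hi]
      exact Nat.find_spec (hex i hi)
    · simp only [dif_pos hi] at hj
      exact Nat.find_min (hex i hi) hj
  have hit : ∀ (j : ℕ) i, st (p^[j] i) ≤ st i := by
    intro j
    induction j with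
    | zero => intro i; exact le_rfl
    | succ j ih =>
      intro i
      rw [Function.iterate_succ_apply']
      exact (hstm _).trans (ih i)
  have hpos : ∀ i, i ≠ r → 1 ≤ J i := by
    intro i hi
    by_contra h
    have h0 : J i = 0 := by omega
    have h1 := hJ1 i hi
    rw [h0] at h1
    exact lt_irrefl _ h1
  refine ⟨fun i => p^[J i] i, fun i hi => ⟨fun h => ?_, fun h => ?_, ?_⟩⟩
  · have h1 : J i = 1 := by
      by_contra hne
      have h2 : 1 < J i := by
        have := hpos i hi
        omega
      exact hJ2 i hi 1 h2 h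
    show p^[J i] i = p i
    rw [h1]
    rfl
  · have hpi : p i ≠ r := by
      intro h1
      have h2 := hst1 i hi
      rw [h1, hst0] at h
      omega
    have h1 : J i = J (p i) + 1 := by
      refine le_antisymm ?_ ?_
      · by_contra hlt
        rw [not_le] at hlt
        have h2 := hJ2 i hi _ hlt
        rw [Function.iterate_succ_apply, ← h] at h2
        exact h2 (hJ1 (p i) hpi)
      · by_contra hlt
        rw [not_le] at hlt
        have h3 : J i - 1 < J (p i) := by
          have := hpos i hi
          omega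
        have h2 := hJ2 (p i) hpi _ h3
        apply h2
        rw [← Function.iterate_succ_apply, h]
        have h4 : (J i - 1).succ = J i := by
          have := hpos i hi
          omega
        rw [h4]
        exact hJ1 i hi
    show p^[J i] i = p^[J (p i)] (p i)
    rw [h1, Function.iterate_succ_apply]
  · have h0 := hpos i hi
    have h4 : J i - 1 + 1 = J i := by omega
    have h5 : st (p^[J i - 1] i) = st i :=
      le_antisymm (hit _ _) (not_lt.1 (hJ2 i hi _ (by omega)))
    refine ⟨p^[J i - 1] i, ⟨_, rfl⟩, h5, ?_, ?_, hJ1 i hi⟩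
    · intro h6
      have h7 := hst1 i hi
      rw [h6, hst0] at h5
      omega
    · show p (p^[J i - 1] i) = p^[J i] i
      have h8 := Function.iterate_succ_apply' p (J i - 1) i
      rw [← h8, Nat.succ_eq_add_one, h4]

theorem chainG (n : ℕ) (T : Digraph (Fin n)) (hT : OTree n T) (c : ℕ) (hc : ChainBound n T c) :
    Unavoidable n T c := by
  obtain ⟨h, m, X, r, w, hh, hX0, hXm, hXs, hXc, hcase, hsum⟩ := hc
  obtain ⟨hor, hG⟩ := hT
  cases n with
  | zero => exact r.elim0
  | succ k =>
  have hstep : ∀ i, i ≠ r → ∃ j, (SimpleGraph.fromRel T.Adj).Adj i j ∧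
      (SimpleGraph.fromRel T.Adj).dist j r < (SimpleGraph.fromRel T.Adj).dist i r := by
    intro i hi
    obtain ⟨q, hq⟩ := (hG.1.preconnected i r).exists_walk_length_eq_dist
    cases q with
    | nil => exact absurd rfl hi
    | @cons _ j _ h' q =>
      refine ⟨j, h', ?_⟩
      have := SimpleGraph.dist_le q
      rw [SimpleGraph.Walk.length_cons] at hq
      omega
  generalize hGG : SimpleGraph.fromRel T.Adj = G at *
  have hadj : ∀ a b, G.Adj a b ↔ a ≠ b ∧ (T.Adj a b ∨ T.Adj b a) := by
    intro a b
    rw [← hGG]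
    exact SimpleGraph.fromRel_adj _ _ _
  obtain ⟨p, hp, hpr⟩ : ∃ p : Fin (k + 1) → Fin (k + 1),
      (∀ i, i ≠ r → G.dist (p i) r < G.dist i r ∧ G.Adj i (p i)) ∧ p r = r := by
    choose! p0 hp0 using hstep
    refine ⟨fun i => if i = r then r else p0 i, fun i hi => ?_, if_pos rfl⟩
    simp only [if_neg hi]
    exact ⟨(hp0 i hi).2, (hp0 i hi).1⟩
  have hcov := Pool.Helper1.Layered.cover_of_parents G hG r p (fun i => G.dist i r) hp
  have hmono : ∀ s s', s ≤ s' → s' ≤ m → X s ⊆ X s' := by
    intro s s' hs
    induction s', hs using Nat.le_induction with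
    | base => intro _; exact subset_rfl
    | succ s' _ ih =>
      intro h1
      exact (ih (by omega)).trans (hXs s' (by omega))
  have hr0 : r ∈ X 0 := by
    rw [hX0]
    rfl
  have hrs : ∀ s, s ≤ m → r ∈ X s := fun s hs => hmono 0 s (Nat.zero_le _) hs hr0
  have hpar : ∀ s, s ≤ m → ∀ i ∈ X s, p i ∈ X s := by
    intro s hs i hi
    by_cases hir : i = r
    · rw [hir, hpr]
      exact hrs s hs
    · exact cg_par hpr hcov (X s) (hXc s hs) (hrs s hs) hi hir
  have hex : ∀ i, ∃ s, i ∈ X s := fun i => ⟨m, by rw [hXm]; trivial⟩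
  obtain ⟨st, hst1, hst2⟩ : ∃ st : Fin (k + 1) → ℕ, (∀ i, i ∈ X (st i)) ∧
      ∀ i s, i ∈ X s → st i ≤ s :=
    ⟨fun i => Nat.find (hex i), fun i => Nat.find_spec (hex i),
      fun i s hs => Nat.find_min' (hex i) hs⟩
  have hstm : ∀ i, st i ≤ m := fun i => hst2 i m (by rw [hXm]; trivial)
  have hst : ∀ i s, s ≤ m → (st i ≤ s ↔ i ∈ X s) := fun i s hs =>
    ⟨fun h1 => hmono _ _ h1 hs (hst1 i), fun h1 => hst2 i s h1⟩
  have hst0 : st r = 0 := Nat.le_zero.1 (hst2 r 0 hr0)
  have hstp : ∀ i, i ≠ r → 1 ≤ st i := by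
    intro i hi
    by_contra hlt
    have h0 : st i = 0 := by omega
    have h1 := hst1 i
    rw [h0, hX0] at h1
    exact hi h1
  have hstpar : ∀ i, st (p i) ≤ st i := fun i => hst2 _ _ (hpar _ (hstm i) _ (hst1 i))
  have hreach : ∀ i, ∃ j : ℕ, p^[j] i = r := by
    have h1 : ∀ N i, G.dist i r ≤ N → ∃ j : ℕ, p^[j] i = r := by
      intro N
      induction N with
      | zero =>
        intro i hi
        by_cases hir : i = r
        · exact ⟨0, hir⟩
        · have := (hp i hir).1
          omega
      | succ N ih =>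
        intro i hi
        by_cases hir : i = r
        · exact ⟨0, hir⟩
        · obtain ⟨j, hj⟩ := ih (p i) (by have := (hp i hir).1; omega)
          exact ⟨j + 1, hj⟩
    exact fun i => h1 _ i le_rfl
  obtain ⟨g, hg⟩ := cg_gate hst0 hstp hstpar hreach
  -- the choice of the type of each stage
  have hty : ∀ s, ∃ (lf : Bool) (a b : ℕ), 1 ≤ s → s ≤ m →
      (lf = false → (∀ u ∈ X s, ∀ x ∈ X (s - 1), (∀ y ∈ X (s - 1), G.dist u x ≤ G.dist u y) →
        h x - a ≤ h u ∧ h u ≤ h x + b) ∧ (a + b) * (4 * (X s).ncard - 7) ≤ w s) ∧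
      (lf = true → (∀ u ∈ X s, u ∉ X (s - 1) → ∃ x ∈ X (s - 1), G.Adj u x) ∧
        4 * (X s).ncard - 6 ≤ w s) := by
    intro s
    by_cases hs : 1 ≤ s ∧ s ≤ m
    · rcases hcase s hs.1 hs.2 with ⟨a, b, h1, h2⟩ | ⟨h1, h2⟩
      · exact ⟨false, a, b, fun _ _ => ⟨fun _ => ⟨h1, h2⟩, fun hf => absurd hf (by decide)⟩⟩
      · exact ⟨true, 0, 0, fun _ _ => ⟨fun hf => absurd hf (by decide), fun _ => ⟨h1, h2⟩⟩⟩
    · exact ⟨true, 0, 0, fun h1 h2 => absurd ⟨h1, h2⟩ hs⟩
  choose leaf a b hlf using hty
  refine chainP (k + 1) T r p (fun i => G.dist i r) h m st g a b leaf ?_ c ?_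
  · refine ⟨fun i hi => (hp i hi).1, ?_, ?_, hst0, fun i hi => ⟨hstp i hi, hstm i⟩,
      fun i _ => hstpar i, fun i hi => (hg i hi).1, fun i hi => (hg i hi).2.1, ?_, ?_⟩
    · intro x y hxy
      have hne : x ≠ y := by
        rintro rfl
        exact hor _ _ hxy hxy
      obtain ⟨i, hi, h1 | h1⟩ := hcov x y ((hadj x y).2 ⟨hne, Or.inl hxy⟩)
      · right
        refine ⟨?_, ?_, hh x y hxy⟩
        · rw [← h1.1]
          exact hi
        · rw [← h1.1]
          exact h1.2
      · left
        refine ⟨?_, ?_, hh x y hxy⟩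
        · rw [← h1.1]
          exact hi
        · rw [← h1.1]
          exact h1.2
    · intro i hi
      rcases ((hadj i (p i)).1 (hp i hi).2).2 with h1 | h1
      · right
        have := hh _ _ h1
        omega
      · left
        exact hh _ _ h1
    · intro i hi hleaf
      obtain ⟨t, ht1, ht2, ht3, ht4, ht5⟩ := (hg i hi).2.2
      have h1 := ((hlf (st i) (hstp i hi) (hstm i)).1 hleaf).1 i (hst1 i)
      have hA : ∀ x, x ∈ X (st i - 1) ↔ st x ≤ st i - 1 := fun x =>
        (hst x (st i - 1) (by have := hstm i; omega)).symm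
      have hgA : g i ∈ X (st i - 1) := (hA _).2 (by omega)
      have hnear : ∀ y ∈ X (st i - 1), G.dist i (g i) ≤ G.dist i y := by
        intro y hy
        obtain ⟨q, hq⟩ := (hG.1.preconnected i y).exists_walk_length_eq_dist
        have h2 : p t ∈ q.support := by
          refine cg_cross hcov q ht1 ?_
          rintro ⟨j, hj⟩
          have h3 : ∀ j : ℕ, p^[j] y ∈ X (st i - 1) := by
            intro j
            induction j with
            | zero => exact hy
            | succ j ih =>
              rw [Function.iterate_succ_apply']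
              exact hpar _ (by have := hstm i; omega) _ ih
          have h4 := (hA _).1 (h3 j)
          rw [hj, ht2] at h4
          have := hstp i hi
          omega
        rw [ht4] at h2
        have h5 := SimpleGraph.dist_le (q.takeUntil (g i) h2)
        have h6 := q.length_takeUntil_le_length h2
        omega
      have h2 := h1 (g i) hgA hnear
      constructor <;> linarith [h2.1, h2.2]
    · intro i hi hleaf
      have h1 := ((hlf (st i) (hstp i hi) (hstm i)).2 hleaf).1 i (hst1 i)
      have hle : st i - 1 ≤ m := by have := hstm i; omega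
      obtain ⟨x, hx, hix⟩ := h1 (by
        intro h2
        have := (hst i (st i - 1) hle).2 h2
        have := hstp i hi
        omega)
      obtain ⟨j, hj, h2 | h2⟩ := hcov i x hix
      · rw [h2.1] at h2
        rw [h2.2]
        have := (hst x (st i - 1) hle).2 hx
        have := hstp i hi
        omega
      · exfalso
        have h3 := hpar _ hle x hx
        rw [← h2.1, h2.2] at h3
        have := (hst i (st i - 1) hle).2 h3
        have := hstp i hi
        omega
  · refine le_trans (Nat.add_le_add_right (Finset.sum_le_sum fun s hs => ?_) 1) hsum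
    obtain ⟨hs1, hs2⟩ := Finset.mem_Icc.1 hs
    have hcnt : cnt st s = (X s).ncard := by
      unfold cnt
      rw [← Set.ncard_coe_finset]
      congr 1
      ext i
      rw [Finset.coe_filter]
      simp only [Set.mem_ofPred_eq, Finset.mem_univ, true_and]
      exact hst i s hs2
    have hN : 1 ≤ (X s).ncard := by
      rw [Nat.one_le_iff_ne_zero]
      intro h0
      rw [Set.ncard_eq_zero] at h0
      have := hrs s hs2
      rw [h0] at this
      exact this
    rw [hcnt]
    unfold cost
    have hl := hlf s hs1 hs2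
    cases hle : leaf s with
    | true =>
      rw [if_pos rfl]
      have := (hl.2 hle).2
      omega
    | false =>
      rw [if_neg (by decide)]
      have h1 := (hl.1 hle).2
      have h2 : 4 * ((X s).ncard - 1) - 3 = 4 * (X s).ncard - 7 := by omega
      rw [h2]
      exact h1

end Pool.AAT
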