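import Pool.Agent.AAT.Defs

/-!
# AAT-Mom8: the eighth moment of a sum of signs

Recursion for the even moments, from the involution that changes one sign.
-/

set_option autoImplicit false

namespace Pool.AAT

open Finset
open scoped Classical

variable {α : Type} [Fintype α]

private theorem sg_cases (b : Bool) : (sg b = 1 ∧ sg (!b) = -1) ∨ (sg b = -1 ∧ sg (!b) = 1) := by
  cases b <;> simp [sg]

/-- changing the sign at the point `y` -/
private noncomputable def flip (y : α) : (α → Bool) ≃ (α → Bool) where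
  toFun e := Function.update e y (!e y)
  invFun e := Function.update e y (!e y)
  left_inv e := by
    funext z
    by_cases h : z = y
    · subst h
      simp
    · simp [Function.update_of_ne h]
  right_inv e := by
    funext z
    by_cases h : z = y
    · subst h
      simp
    · simp [Function.update_of_ne h]

private theorem mom_step (x : ℕ → α) (d : ℕ) (hx : Set.InjOn x (range (d + 1) : Set ℕ))
    (F : ℤ → ℤ) :
    2 * ∑ e : α → Bool, F (∑ j ∈ range (d + 1), sg (e (x j))) =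
      ∑ e : α → Bool, (F ((∑ j ∈ range d, sg (e (x j))) + 1) +
        F ((∑ j ∈ range d, sg (e (x j))) - 1)) := by
  have h1 : ∑ e : α → Bool, F (∑ j ∈ range (d + 1), sg (e (x j))) =
      ∑ e : α → Bool, F (∑ j ∈ range (d + 1), sg (flip (x d) e (x j))) :=
    ((flip (x d)).sum_comp (fun e : α → Bool => F (∑ j ∈ range (d + 1), sg (e (x j))))).symm
  rw [two_mul]
  conv_lhs => rw [h1]
  rw [← h1]
  conv_lhs =>
    rhs
    rw [h1]
  rw [← Finset.sum_add_distrib]
  apply Finset.sum_congr rfl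
  intro e _
  rw [Finset.sum_range_succ, Finset.sum_range_succ]
  have h2 : ∑ j ∈ range d, sg (flip (x d) e (x j)) = ∑ j ∈ range d, sg (e (x j)) := by
    apply Finset.sum_congr rfl
    intro j hj
    have hj' : j < d := Finset.mem_range.1 hj
    have hne : x j ≠ x d := by
      intro h
      have := hx (by simp; omega) (by simp) h
      omega
    have h3 : flip (x d) e (x j) = e (x j) := Function.update_of_ne hne _ _
    rw [h3]
  have h4 : flip (x d) e (x d) = (!e (x d)) := by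
    change Function.update e (x d) (!e (x d)) (x d) = _
    rw [Function.update_self]
  rw [h2, h4]
  rcases sg_cases (e (x d)) with ⟨h5, h6⟩ | ⟨h5, h6⟩
  · rw [h5, h6, sub_eq_add_neg]
  · rw [h5, h6, sub_eq_add_neg, add_comm]

/-- all even moments up to the eighth -/
private theorem mom_all (x : ℕ → α) (d : ℕ) (hx : Set.InjOn x (range d : Set ℕ)) :
    (∑ e : α → Bool, (∑ j ∈ range d, sg (e (x j))) ^ 2 = (d : ℤ) * 2 ^ (Fintype.card α)) ∧
    (∑ e : α → Bool, (∑ j ∈ range d, sg (e (x j))) ^ 4 ≤ 3 * (d : ℤ) ^ 2 * 2 ^ (Fintype.card α)) ∧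
    (∑ e : α → Bool, (∑ j ∈ range d, sg (e (x j))) ^ 6 ≤ 15 * (d : ℤ) ^ 3 * 2 ^ (Fintype.card α)) ∧
    (∑ e : α → Bool, (∑ j ∈ range d, sg (e (x j))) ^ 8 ≤
      105 * (d : ℤ) ^ 4 * 2 ^ (Fintype.card α)) := by
  induction d with
  | zero => simp
  | succ d ih =>
    obtain ⟨i2, i4, i6, i8⟩ := ih (hx.mono (by
      intro j hj
      simp only [Finset.coe_range, Set.mem_Iio] at hj ⊢
      omega))
    have hN : ∑ e : α → Bool, (1 : ℤ) = 2 ^ (Fintype.card α) := by
      simp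
    have hN0 : (0 : ℤ) < 2 ^ (Fintype.card α) := by positivity
    have hd0 : (0 : ℤ) ≤ d := Int.natCast_nonneg d
    have s2 := mom_step x d hx (fun t => t ^ 2)
    have s4 := mom_step x d hx (fun t => t ^ 4)
    have s6 := mom_step x d hx (fun t => t ^ 6)
    have s8 := mom_step x d hx (fun t => t ^ 8)
    obtain ⟨N, hNe⟩ : ∃ N : ℤ, N = 2 ^ (Fintype.card α) := ⟨_, rfl⟩
    rw [← hNe] at i2 i4 i6 i8 hN hN0 ⊢
    obtain ⟨A2, hA2⟩ : ∃ A : ℤ, A = ∑ e : α → Bool, (∑ j ∈ range d, sg (e (x j))) ^ 2 := ⟨_, rfl⟩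
    obtain ⟨A4, hA4⟩ : ∃ A : ℤ, A = ∑ e : α → Bool, (∑ j ∈ range d, sg (e (x j))) ^ 4 := ⟨_, rfl⟩
    obtain ⟨A6, hA6⟩ : ∃ A : ℤ, A = ∑ e : α → Bool, (∑ j ∈ range d, sg (e (x j))) ^ 6 := ⟨_, rfl⟩
    obtain ⟨A8, hA8⟩ : ∃ A : ℤ, A = ∑ e : α → Bool, (∑ j ∈ range d, sg (e (x j))) ^ 8 := ⟨_, rfl⟩
    rw [← hA2] at i2
    rw [← hA4] at i4
    rw [← hA6] at i6
    rw [← hA8] at i8
    have t2 : ∑ e : α → Bool, (((∑ j ∈ range d, sg (e (x j))) + 1) ^ 2 +
        ((∑ j ∈ range d, sg (e (x j))) - 1) ^ 2) = 2 * (A2 + N) := by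
      rw [hA2, ← hN, ← Finset.sum_add_distrib, Finset.mul_sum]
      apply Finset.sum_congr rfl
      intro e _
      ring
    have t4 : ∑ e : α → Bool, (((∑ j ∈ range d, sg (e (x j))) + 1) ^ 4 +
        ((∑ j ∈ range d, sg (e (x j))) - 1) ^ 4) = 2 * (A4 + 6 * A2 + N) := by
      rw [hA2, hA4, ← hN, Finset.mul_sum, ← Finset.sum_add_distrib, ← Finset.sum_add_distrib,
        Finset.mul_sum]
      apply Finset.sum_congr rfl
      intro e _
      ring
    have t6 : ∑ e : α → Bool, (((∑ j ∈ range d, sg (e (x j))) + 1) ^ 6 +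
        ((∑ j ∈ range d, sg (e (x j))) - 1) ^ 6) = 2 * (A6 + 15 * A4 + 15 * A2 + N) := by
      rw [hA2, hA4, hA6, ← hN, Finset.mul_sum, Finset.mul_sum, ← Finset.sum_add_distrib,
        ← Finset.sum_add_distrib, ← Finset.sum_add_distrib, Finset.mul_sum]
      apply Finset.sum_congr rfl
      intro e _
      ring
    have t8 : ∑ e : α → Bool, (((∑ j ∈ range d, sg (e (x j))) + 1) ^ 8 +
        ((∑ j ∈ range d, sg (e (x j))) - 1) ^ 8) =
          2 * (A8 + 28 * A6 + 70 * A4 + 28 * A2 + N) := by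
      rw [hA2, hA4, hA6, hA8, ← hN, Finset.mul_sum, Finset.mul_sum, Finset.mul_sum,
        ← Finset.sum_add_distrib, ← Finset.sum_add_distrib, ← Finset.sum_add_distrib,
        ← Finset.sum_add_distrib, Finset.mul_sum]
      apply Finset.sum_congr rfl
      intro e _
      ring
    rw [t2] at s2
    rw [t4] at s4
    rw [t6] at s6
    rw [t8] at s8
    have e2 := mul_left_cancel₀ (two_ne_zero) s2
    have e4 := mul_left_cancel₀ (two_ne_zero) s4
    have e6 := mul_left_cancel₀ (two_ne_zero) s6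
    have e8 := mul_left_cancel₀ (two_ne_zero) s8
    rw [e2, e4, e6, e8]
    push_cast
    have hdN : 0 ≤ (d : ℤ) * N := by positivity
    have hd2N : 0 ≤ (d : ℤ) ^ 2 * N := by positivity
    refine ⟨?_, ?_, ?_, ?_⟩
    · rw [i2]
      ring
    · have : 3 * ((d : ℤ) + 1) ^ 2 * N = 3 * (d : ℤ) ^ 2 * N + 6 * ((d : ℤ) * N) + 3 * N := by ring
      rw [this]
      linarith
    · have : 15 * ((d : ℤ) + 1) ^ 3 * N = 15 * (d : ℤ) ^ 3 * N + 15 * (3 * (d : ℤ) ^ 2 * N) +
          45 * ((d : ℤ) * N) + 15 * N := by ring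
      rw [this]
      linarith
    · have : 105 * ((d : ℤ) + 1) ^ 4 * N = 105 * (d : ℤ) ^ 4 * N + 28 * (15 * (d : ℤ) ^ 3 * N) +
          630 * ((d : ℤ) ^ 2 * N) + 420 * ((d : ℤ) * N) + 105 * N := by ring
      rw [this]
      have h7 : 3 * (d : ℤ) ^ 2 * N = 3 * ((d : ℤ) ^ 2 * N) := by ring
      rw [h7] at i4
      linarith

theorem moment8 (x : ℕ → α) (d : ℕ) (hx : Set.InjOn x (range d : Set ℕ)) :
    ∑ e : α → Bool, (∑ j ∈ range d, sg (e (x j))) ^ 8 ≤
      105 * (d : ℤ) ^ 4 * 2 ^ (Fintype.card α) :=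
  (mom_all x d hx).2.2.2

end Pool.AAT
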