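import Mathlib

/-!
# AAT-Num5: a numerical sum

PLAN. `P d = (m-1).descFactorial d / m^d`, `P 0 = 1`, `P d = P (d-1) * (m - d) / m` for `1 ≤ d ≤ m`
(`Nat.descFactorial_succ`), so `P (d-1) - P d = P (d-1) * d / m`, `P m = 0`. With
`A_a = Σ_{d=1}^m d^a P (d-1)`: `A_1 = m (P 0 - P m) = m` and, by summation by parts,
`A_(a+1) = m Σ_{d=1}^m d^a (P (d-1) - P d) = m Σ_{d=1}^m (d^a - (d-1)^a) P (d-1) ≤ m a A_(a-1)`; so
`A_3 ≤ 2 m^2`, `A_5 ≤ 4 m A_3 ≤ 8 m^3`. Finally `d^4 (d+1) P d ≤ 2 d^5 P (d-1)` for `d ≥ 1`.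
-/

set_option autoImplicit false

namespace Pool.AAT

open Finset

private noncomputable def Pq (n i : ℕ) : ℝ := (n.descFactorial i : ℝ) / ((n : ℝ) + 1) ^ i

private theorem Pq_nonneg (n i : ℕ) : 0 ≤ Pq n i := by
  unfold Pq
  positivity

private theorem Pq_zero (n : ℕ) : Pq n 0 = 1 := by
  simp [Pq]

private theorem Pq_step (n i : ℕ) (hi : i ≤ n) :
    ((i : ℝ) + 1) * Pq n i = ((n : ℝ) + 1) * (Pq n i - Pq n (i + 1)) := by
  unfold Pq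
  rw [Nat.descFactorial_succ, Nat.cast_mul, Nat.cast_sub hi, pow_succ]
  have h : (0 : ℝ) < ((n : ℝ) + 1) ^ i := by positivity
  have h' : (0 : ℝ) < (n : ℝ) + 1 := by positivity
  field_simp
  ring

private theorem Pq_anti (n i : ℕ) (hi : i ≤ n) : Pq n (i + 1) ≤ Pq n i := by
  have h := Pq_step n i hi
  have h1 : 0 ≤ ((i : ℝ) + 1) * Pq n i := mul_nonneg (by positivity) (Pq_nonneg n i)
  rw [h] at h1
  have h' : (0 : ℝ) < (n : ℝ) + 1 := by positivity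
  have h2 := nonneg_of_mul_nonneg_right h1 h'
  linarith

private noncomputable def Aq (n a : ℕ) : ℝ := ∑ i ∈ range (n + 1), ((i : ℝ) + 1) ^ a * Pq n i

private theorem Aq_step (n a : ℕ) :
    Aq n (a + 1) ≤ ((n : ℝ) + 1) * (∑ i ∈ range (n + 1), (((i : ℝ) + 1) ^ a - (i : ℝ) ^ a) * Pq n i +
      (0 : ℝ) ^ a) := by
  have htel : ∀ k : ℕ, ∑ i ∈ range k, ((i : ℝ) + 1) ^ a * (Pq n i - Pq n (i + 1)) =
      ∑ i ∈ range k, (((i : ℝ) + 1) ^ a - (i : ℝ) ^ a) * Pq n i + (0 : ℝ) ^ a -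
        (k : ℝ) ^ a * Pq n k := by
    intro k
    induction k with
    | zero => simp [Pq_zero]
    | succ k ih =>
      rw [sum_range_succ, sum_range_succ, ih]
      push_cast
      ring
  have h1 : Aq n (a + 1) = ((n : ℝ) + 1) * ∑ i ∈ range (n + 1),
      ((i : ℝ) + 1) ^ a * (Pq n i - Pq n (i + 1)) := by
    unfold Aq
    rw [mul_sum]
    refine sum_congr rfl fun i hi => ?_
    have h2 := Pq_step n i (by rw [mem_range] at hi; omega)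
    calc ((i : ℝ) + 1) ^ (a + 1) * Pq n i = ((i : ℝ) + 1) ^ a * (((i : ℝ) + 1) * Pq n i) := by ring
      _ = ((i : ℝ) + 1) ^ a * (((n : ℝ) + 1) * (Pq n i - Pq n (i + 1))) := by rw [h2]
      _ = _ := by ring
  rw [h1, htel]
  refine mul_le_mul_of_nonneg_left ?_ (by positivity)
  have h3 : 0 ≤ (((n + 1 : ℕ) : ℝ)) ^ a * Pq n (n + 1) := mul_nonneg (by positivity) (Pq_nonneg _ _)
  linarith

private theorem Aq_one (n : ℕ) : Aq n 1 ≤ (n : ℝ) + 1 := by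
  have h := Aq_step n 0
  simpa using h

private theorem Aq_three (n : ℕ) : Aq n 3 ≤ 2 * ((n : ℝ) + 1) ^ 2 := by
  have h := Aq_step n 2
  have h1 : ∑ i ∈ range (n + 1), (((i : ℝ) + 1) ^ 2 - (i : ℝ) ^ 2) * Pq n i ≤ 2 * Aq n 1 := by
    unfold Aq
    rw [mul_sum]
    refine sum_le_sum fun i _ => ?_
    have h2 := Pq_nonneg n i
    have h3 : ((i : ℝ) + 1) ^ 2 - (i : ℝ) ^ 2 ≤ 2 * ((i : ℝ) + 1) ^ 1 := by nlinarith
    nlinarith
  have h2 := Aq_one n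
  have h' : (0 : ℝ) < (n : ℝ) + 1 := by positivity
  calc Aq n 3 ≤ _ := h
    _ ≤ ((n : ℝ) + 1) * (2 * ((n : ℝ) + 1)) := by
        refine mul_le_mul_of_nonneg_left ?_ h'.le
        norm_num
        linarith
    _ = 2 * ((n : ℝ) + 1) ^ 2 := by ring

private theorem Aq_five (n : ℕ) : Aq n 5 ≤ 8 * ((n : ℝ) + 1) ^ 3 := by
  have h := Aq_step n 4
  have h1 : ∑ i ∈ range (n + 1), (((i : ℝ) + 1) ^ 4 - (i : ℝ) ^ 4) * Pq n i ≤ 4 * Aq n 3 := by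
    unfold Aq
    rw [mul_sum]
    refine sum_le_sum fun i _ => ?_
    have h2 := Pq_nonneg n i
    have hi : (0 : ℝ) ≤ (i : ℝ) := Nat.cast_nonneg i
    have h3 : ((i : ℝ) + 1) ^ 4 - (i : ℝ) ^ 4 ≤ 4 * ((i : ℝ) + 1) ^ 3 := by nlinarith [sq_nonneg (i : ℝ)]
    nlinarith
  have h2 := Aq_three n
  have h' : (0 : ℝ) < (n : ℝ) + 1 := by positivity
  calc Aq n 5 ≤ _ := h
    _ ≤ ((n : ℝ) + 1) * (8 * ((n : ℝ) + 1) ^ 2) := by
        refine mul_le_mul_of_nonneg_left ?_ h'.le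
        norm_num
        linarith
    _ = 8 * ((n : ℝ) + 1) ^ 3 := by ring

theorem num5 (m : ℕ) (hm : 1 ≤ m) :
    ∑ d ∈ range m, (d : ℝ) ^ 4 * ((d : ℝ) + 1) * ((m - 1).descFactorial d : ℝ) / (m : ℝ) ^ d ≤
      16 * (m : ℝ) ^ 3 := by
  obtain ⟨n, rfl⟩ : ∃ n, m = n + 1 := ⟨m - 1, by omega⟩
  rw [Nat.add_sub_cancel]
  have h0 : ∀ d : ℕ, (d : ℝ) ^ 4 * ((d : ℝ) + 1) * (n.descFactorial d : ℝ) / ((n + 1 : ℕ) : ℝ) ^ d =
      (d : ℝ) ^ 4 * ((d : ℝ) + 1) * Pq n d := by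
    intro d
    unfold Pq
    push_cast
    ring
  rw [sum_congr rfl fun d _ => h0 d, sum_range_succ']
  have h1 : ∑ i ∈ range n, (((i + 1 : ℕ) : ℝ)) ^ 4 * ((((i + 1 : ℕ) : ℝ)) + 1) * Pq n (i + 1) ≤
      2 * Aq n 5 := by
    have h2 : ∑ i ∈ range n, (((i + 1 : ℕ) : ℝ)) ^ 4 * ((((i + 1 : ℕ) : ℝ)) + 1) * Pq n (i + 1) ≤
        ∑ i ∈ range n, 2 * (((i : ℝ) + 1) ^ 5 * Pq n i) := by
      refine sum_le_sum fun i hi => ?_
      have h3 := Pq_anti n i (mem_range.1 hi).le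
      have h4 := Pq_nonneg n i
      have hi0 : (0 : ℝ) ≤ (i : ℝ) := Nat.cast_nonneg i
      push_cast
      calc ((i : ℝ) + 1) ^ 4 * ((i : ℝ) + 1 + 1) * Pq n (i + 1)
          ≤ ((i : ℝ) + 1) ^ 4 * ((i : ℝ) + 1 + 1) * Pq n i :=
            mul_le_mul_of_nonneg_left h3 (by positivity)
        _ ≤ ((i : ℝ) + 1) ^ 4 * (2 * ((i : ℝ) + 1)) * Pq n i := by
            refine mul_le_mul_of_nonneg_right ?_ h4
            refine mul_le_mul_of_nonneg_left ?_ (by positivity)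
            linarith
        _ = 2 * (((i : ℝ) + 1) ^ 5 * Pq n i) := by ring
    refine h2.trans ?_
    rw [← mul_sum]
    refine mul_le_mul_of_nonneg_left ?_ (by norm_num)
    unfold Aq
    refine sum_le_sum_of_subset_of_nonneg (range_subset_range.2 (Nat.le_succ n)) fun i _ _ => ?_
    exact mul_nonneg (by positivity) (Pq_nonneg n i)
  have h2 := Aq_five n
  push_cast at h1 ⊢
  norm_num
  linarith

end Pool.AAT
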