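import Pool.Agent.AAT.Defs
import Pool.Agent.AAT.Rad
import Pool.Agent.AAT.DepthC
import Pool.Agent.AAT.Mom8
import Pool.Agent.AAT.Num5

/-!
# AAT-Rad8: the eighth moment of the radius, and its mean

PLAN. `rad8`: for `q ∈ Forest S {v}` (`fr q v = S`): `(rad q e v)^8 ≤ Σ_{w ∈ S} (ht q e v w)^8`, so by
`moment8` (with `x j = q^[j] w`, injective by `dep_inj`) `Σ_e (rad q e v)^8 ≤ Σ_{w ∈ S} 105 (dep q v w)^4 2^n`.
Sum over `q` and sort by `d = dep q v w < m` (`hgt_lt`): with `depth_count` (divide by `m^d`) the sum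
is `≤ 105 * 2^n * (Forest S {v}).card * Σ_{d<m} d^4 (d+1) (m-1).descFactorial d / m^d`, and `num5`
bounds the last sum by `16 m^3`. `rad1`: power mean inequality
(Mathlib:
`Real.pow_arith_mean_le_arith_mean_pow`): `((1/K) Σ a)^8 ≤ (1/K) Σ a^8`, `K = (Forest S {v}).card * 2^n`
(if `K = 0` both sides are `0`), and `1680 m^3 ≤ (3 m^(3/8))^8 = 6561 m^3`.
-/

set_option autoImplicit false

namespace Pool.AAT

open Finset
open scoped Classical

variable {α : Type} [Fintype α]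

/-- the eighth power of the radius is at most the sum of the eighth powers of the heights -/
private theorem rad_pow_le (S : Finset α) (v : α) (q : α → α) (e : α → Bool) (hq : fr q v = S) :
    (rad q e v : ℝ) ^ 8 ≤ ∑ w ∈ S, ((ht q e v w : ℤ) : ℝ) ^ 8 := by
  have hne : (fr q v).Nonempty := ⟨v, mem_fr_self q v⟩
  obtain ⟨w, hw, h⟩ := exists_mem_eq_sup (fr q v) hne (fun w => (ht q e v w).natAbs)
  have h1 : rad q e v = (ht q e v w).natAbs := h
  have h2 : ((ht q e v w).natAbs : ℝ) ^ 8 = ((ht q e v w : ℤ) : ℝ) ^ 8 := by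
    have h3 : ((ht q e v w).natAbs : ℝ) = |((ht q e v w : ℤ) : ℝ)| := by
      rw [Nat.cast_natAbs, Int.cast_abs]
    rw [h3]
    exact Even.pow_abs (by decide) _
  rw [h1, h2]
  rw [hq] at hw
  exact single_le_sum (f := fun w => ((ht q e v w : ℤ) : ℝ) ^ 8)
    (fun i _ => Even.pow_nonneg (by decide) _) hw

/-- the sum over the orientations -/
private theorem sum_e (v : α) (q : α → α) (w : α) (hw : w ∈ fr q v) :
    ∑ e : α → Bool, ((ht q e v w : ℤ) : ℝ) ^ 8 ≤
      105 * (dep q v w : ℝ) ^ 4 * 2 ^ (Fintype.card α) := by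
  have h := moment8 (fun j => q^[j] w) (dep q v w) (dep_inj q v w hw)
  have h1 : ((∑ e : α → Bool, (ht q e v w) ^ 8 : ℤ) : ℝ) ≤
      ((105 * (dep q v w : ℤ) ^ 4 * 2 ^ (Fintype.card α) : ℤ) : ℝ) := by
    exact_mod_cast h
  push_cast at h1
  exact h1

private theorem dep_lt (S : Finset α) (v : α) (q : α → α) (hq : fr q v = S) (w : α) (hw : w ∈ S) :
    dep q v w < S.card := by
  have h1 : dep q v w ≤ hgt q v := by
    unfold hgt
    rw [hq]
    exact le_sup (f := fun w => dep q v w) hw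
  have h2 := hgt_lt q v
  rw [hq] at h2
  omega

/-- the sum of the fourth powers of the depths, sorted by depth -/
private theorem sum_dep (S : Finset α) (v : α) (q : α → α) (hq : fr q v = S) :
    ∑ w ∈ S, (dep q v w : ℝ) ^ 4 =
      ∑ d ∈ range S.card, (d : ℝ) ^ 4 * ((S.filter (fun w => dep q v w = d)).card : ℝ) := by
  rw [← sum_fiberwise_of_maps_to (g := fun w => dep q v w) (t := range S.card)
    (fun w hw => mem_range.2 (dep_lt S v q hq w hw))]
  refine sum_congr rfl fun d _ => ?_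
  have h : ∀ w ∈ S.filter (fun w => dep q v w = d), (dep q v w : ℝ) ^ 4 = (d : ℝ) ^ 4 := by
    intro w hw
    rw [(mem_filter.1 hw).2]
  rw [sum_congr rfl h, sum_const, nsmul_eq_mul, mul_comm]

theorem rad8 (S : Finset α) (v : α) (hv : v ∈ S) :
    ∑ q ∈ Forest S {v}, ∑ e : α → Bool, (rad q e v : ℝ) ^ 8 ≤
      1680 * (S.card : ℝ) ^ 3 * ((Forest S {v}).card : ℝ) * 2 ^ (Fintype.card α) := by
  have hm : 1 ≤ S.card := card_pos.2 ⟨v, hv⟩
  have hm0 : (0 : ℝ) < S.card := by exact_mod_cast hm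
  have h1 : ∀ q ∈ Forest S {v}, ∑ e : α → Bool, (rad q e v : ℝ) ^ 8 ≤
      105 * 2 ^ (Fintype.card α) * ∑ d ∈ range S.card, (d : ℝ) ^ 4 *
        ((S.filter (fun w => dep q v w = d)).card : ℝ) := by
    intro q hq
    have hS := fr_forest S v hv q hq
    calc ∑ e : α → Bool, (rad q e v : ℝ) ^ 8
        ≤ ∑ e : α → Bool, ∑ w ∈ S, ((ht q e v w : ℤ) : ℝ) ^ 8 :=
          sum_le_sum fun e _ => rad_pow_le S v q e hS
      _ = ∑ w ∈ S, ∑ e : α → Bool, ((ht q e v w : ℤ) : ℝ) ^ 8 := sum_comm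
      _ ≤ ∑ w ∈ S, 105 * (dep q v w : ℝ) ^ 4 * 2 ^ (Fintype.card α) :=
          sum_le_sum fun w hw => sum_e v q w (by rw [hS]; exact hw)
      _ = 105 * 2 ^ (Fintype.card α) * ∑ w ∈ S, (dep q v w : ℝ) ^ 4 := by
          rw [mul_sum]
          exact sum_congr rfl fun w _ => by ring
      _ = _ := by rw [sum_dep S v q hS]
  have h2 : ∀ d ∈ range S.card, ∑ q ∈ Forest S {v}, ((d : ℝ) ^ 4 *
      ((S.filter (fun w => dep q v w = d)).card : ℝ)) = ((Forest S {v}).card : ℝ) *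
        ((d : ℝ) ^ 4 * ((d : ℝ) + 1) * ((S.card - 1).descFactorial d : ℝ) / (S.card : ℝ) ^ d) := by
    intro d _
    have h3 : (((∑ q ∈ Forest S {v}, (S.filter (fun w => dep q v w = d)).card) *
        S.card ^ d : ℕ) : ℝ) =
        (((Forest S {v}).card * ((S.card - 1).descFactorial d * (d + 1)) : ℕ) : ℝ) := by
      rw [depth_count S v hv d]
    push_cast at h3
    rw [← mul_sum]
    have h4 : (∑ q ∈ Forest S {v}, ((S.filter (fun w => dep q v w = d)).card : ℝ)) =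
        ((Forest S {v}).card * (((S.card - 1).descFactorial d : ℝ) * (d + 1))) /
          (S.card : ℝ) ^ d := by
      rw [eq_div_iff (pow_pos hm0 d).ne']
      exact h3
    rw [h4]
    ring
  calc ∑ q ∈ Forest S {v}, ∑ e : α → Bool, (rad q e v : ℝ) ^ 8
      ≤ ∑ q ∈ Forest S {v}, 105 * 2 ^ (Fintype.card α) * ∑ d ∈ range S.card, (d : ℝ) ^ 4 *
        ((S.filter (fun w => dep q v w = d)).card : ℝ) := sum_le_sum h1
    _ = 105 * 2 ^ (Fintype.card α) * ∑ d ∈ range S.card, ∑ q ∈ Forest S {v}, (d : ℝ) ^ 4 *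
        ((S.filter (fun w => dep q v w = d)).card : ℝ) := by rw [← mul_sum, sum_comm]
    _ = 105 * 2 ^ (Fintype.card α) * (((Forest S {v}).card : ℝ) * ∑ d ∈ range S.card,
        ((d : ℝ) ^ 4 * ((d : ℝ) + 1) * ((S.card - 1).descFactorial d : ℝ) /
          (S.card : ℝ) ^ d)) := by rw [sum_congr rfl h2, ← mul_sum]
    _ ≤ 105 * 2 ^ (Fintype.card α) * (((Forest S {v}).card : ℝ) * (16 * (S.card : ℝ) ^ 3)) := by
        have h5 := num5 S.card hm
        gcongr
    _ = _ := by ring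

theorem rad1 (S : Finset α) (v : α) (hv : v ∈ S) :
    ∑ q ∈ Forest S {v}, ∑ e : α → Bool, (rad q e v : ℝ) ≤
      3 * (S.card : ℝ) ^ ((3 : ℝ) / 8) * ((Forest S {v}).card : ℝ) * 2 ^ (Fintype.card α) := by
  rcases (Forest S {v}).eq_empty_or_nonempty with h0 | h0
  · rw [h0]
    simp
  · have hm0 : (0 : ℝ) ≤ S.card := Nat.cast_nonneg _
    have hF : (0 : ℝ) < (Forest S {v}).card := by exact_mod_cast card_pos.2 h0
    set K : ℝ := ((Forest S {v}).card : ℝ) * 2 ^ (Fintype.card α) with hK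
    have hK0 : 0 < K := by positivity
    have hcard : (((Forest S {v}) ×ˢ (univ : Finset (α → Bool))).card : ℝ) = K := by
      rw [card_product, card_univ, Fintype.card_fun, Fintype.card_bool, hK]
      push_cast
      rfl
    have h1 := pow_sum_div_card_le_sum_pow (s := (Forest S {v}) ×ˢ (univ : Finset (α → Bool)))
      (f := fun x => (rad x.1 x.2 v : ℝ)) (fun x _ => Nat.cast_nonneg _) 7
    rw [hcard, sum_product, sum_product] at h1
    have h2 := rad8 S v hv
    set A : ℝ := ∑ q ∈ Forest S {v}, ∑ e : α → Bool, (rad q e v : ℝ) with hA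
    have h3 : A ^ 8 / K ^ 7 ≤ 1680 * (S.card : ℝ) ^ 3 * K := by
      refine h1.trans (h2.trans (le_of_eq ?_))
      rw [hK]
      ring
    have h4 : A ^ 8 ≤ (3 * (S.card : ℝ) ^ ((3 : ℝ) / 8) * K) ^ 8 := by
      have h5 : ((S.card : ℝ) ^ ((3 : ℝ) / 8)) ^ 8 = (S.card : ℝ) ^ 3 := by
        rw [← Real.rpow_natCast, ← Real.rpow_mul hm0]
        norm_num
      rw [div_le_iff₀ (by positivity)] at h3
      rw [mul_pow, mul_pow, h5]
      have h6 : (0 : ℝ) ≤ (S.card : ℝ) ^ 3 * K ^ 8 := by positivity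
      calc A ^ 8 ≤ 1680 * (S.card : ℝ) ^ 3 * K * K ^ 7 := h3
        _ = 1680 * ((S.card : ℝ) ^ 3 * K ^ 8) := by ring
        _ ≤ 6561 * ((S.card : ℝ) ^ 3 * K ^ 8) := by linarith
        _ = 3 ^ 8 * (S.card : ℝ) ^ 3 * K ^ 8 := by ring
    have h7 : A ≤ 3 * (S.card : ℝ) ^ ((3 : ℝ) / 8) * K :=
      le_of_pow_le_pow_left₀ (by norm_num) (by positivity) h4
    rw [hK] at h7
    linarith

end Pool.AAT
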