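import Pool.Agent.AAT.Defs
import Pool.Agent.AAT.TtLe

/-!
# AAT-SumT: the sums of `tt n m` with weights

By `tt_le` the terms are at most a constant times `n (m^(-9/8) + (n/2)^(-5/8) (n-m)^(-1/2))`; both sums telescope.
-/

set_option autoImplicit false

namespace Pool.AAT

open Finset
open scoped Classical

private lemma tele {f u : ℕ → ℝ} {a b : ℕ} (hab : a ≤ b)
    (h : ∀ m, a ≤ m → m < b → u m ≤ f m - f (m + 1)) : ∑ m ∈ Ico a b, u m ≤ f a - f b := by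
  induction b, hab using Nat.le_induction with
  | base => simp
  | succ b hab ih =>
    rw [Finset.sum_Ico_succ_top hab]
    have h1 := ih fun m h1 h2 => h m h1 (by omega)
    have h2 := h b hab (Nat.lt_succ_self b)
    linarith

private lemma st1 {x : ℝ} (hx : 1 ≤ x) : x ^ (-((9 : ℝ) / 8)) ≤
    16 * x ^ (-((1 : ℝ) / 8)) - 16 * (x + 1) ^ (-((1 : ℝ) / 8)) := by
  have hx0 : 0 < x := by linarith
  have hx1 : 0 < x + 1 := by linarith
  have hy := rpow_one_add_le_one_add_mul_self (s := -(1 / (x + 1)))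
    (by
      have : 1 / (x + 1) ≤ 1 := by
        rw [div_le_one hx1]
        linarith
      linarith) (p := 1 / 8) (by norm_num) (by norm_num)
  have e1 : 1 + -(1 / (x + 1)) = x / (x + 1) := by
    field_simp
    ring
  rw [e1] at hy
  have e2 : (x + 1) ^ (-((1 : ℝ) / 8)) = x ^ (-((1 : ℝ) / 8)) * (x / (x + 1)) ^ ((1 : ℝ) / 8) := by
    rw [Real.div_rpow hx0.le hx1.le, Real.rpow_neg hx0.le, Real.rpow_neg hx1.le]
    have h1 : 0 < x ^ ((1 : ℝ) / 8) := Real.rpow_pos_of_pos hx0 _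
    field_simp
  have e3 : x ^ (-((9 : ℝ) / 8)) = x ^ (-((1 : ℝ) / 8)) * (1 / x) := by
    rw [one_div x, ← Real.rpow_neg_one x, ← Real.rpow_add hx0]
    norm_num
  have hp : 0 < x ^ (-((1 : ℝ) / 8)) := Real.rpow_pos_of_pos hx0 _
  have h4 : 1 / x ≤ 16 * (1 - (x / (x + 1)) ^ ((1 : ℝ) / 8)) := by
    have h5 : 1 / x ≤ 2 / (x + 1) := by
      rw [div_le_div_iff₀ hx0 hx1]
      linarith
    have h6 : 16 * (1 / 8 * (1 / (x + 1))) = 2 / (x + 1) := by ring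
    linarith
  rw [e2, e3]
  have h7 := mul_le_mul_of_nonneg_left h4 hp.le
  linarith

private lemma sum1 {a b : ℕ} (ha : 1 ≤ a) (hab : a ≤ b) :
    ∑ m ∈ Ico a b, (m : ℝ) ^ (-((9 : ℝ) / 8)) ≤ 16 * (a : ℝ) ^ (-((1 : ℝ) / 8)) := by
  have h1 := tele (f := fun m => 16 * (m : ℝ) ^ (-((1 : ℝ) / 8)))
    (u := fun m => (m : ℝ) ^ (-((9 : ℝ) / 8))) hab (by
      intro m hm _
      have hx : (1 : ℝ) ≤ m := by
        have : 1 ≤ m := ha.trans hm
        exact_mod_cast this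
      have := st1 hx
      push_cast
      exact this)
  refine h1.trans ?_
  have : 0 ≤ (b : ℝ) ^ (-((1 : ℝ) / 8)) := Real.rpow_nonneg (Nat.cast_nonneg b) _
  linarith

private lemma sum2 {a n : ℕ} (han : a ≤ n) :
    ∑ m ∈ Ico a n, 1 / Real.sqrt ((n : ℝ) - m) ≤ 2 * Real.sqrt n := by
  have h1 := tele (f := fun m => 2 * Real.sqrt ((n : ℝ) - m))
    (u := fun m => 1 / Real.sqrt ((n : ℝ) - m)) han (by
      intro m _ hm
      have ht : (1 : ℝ) ≤ (n : ℝ) - m := by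
        have : (m : ℝ) + 1 ≤ n := by exact_mod_cast hm
        linarith
      obtain ⟨a, ha⟩ : ∃ a, a = Real.sqrt ((n : ℝ) - m) := ⟨_, rfl⟩
      obtain ⟨b, hb⟩ : ∃ b, b = Real.sqrt ((n : ℝ) - ((m + 1 : ℕ) : ℝ)) := ⟨_, rfl⟩
      have ha2 : a ^ 2 = (n : ℝ) - m := by rw [ha]; exact Real.sq_sqrt (by linarith)
      have hb2 : b ^ 2 = (n : ℝ) - m - 1 := by
        rw [hb]
        push_cast
        rw [Real.sq_sqrt (by linarith)]
        ring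
      have ha0 : 0 < a := by rw [ha]; exact Real.sqrt_pos.2 (by linarith)
      rw [← ha, ← hb, div_le_iff₀ ha0]
      nlinarith [sq_nonneg (a - b)])
  refine h1.trans ?_
  have h2 : Real.sqrt ((n : ℝ) - a) ≤ Real.sqrt n :=
    Real.sqrt_le_sqrt (by have : (0 : ℝ) ≤ a := Nat.cast_nonneg a; linarith)
  have h3 := Real.sqrt_nonneg ((n : ℝ) - n)
  linarith

private lemma term {x y : ℝ} (hx : 1 ≤ x) (hxy : x < y) :
    Real.sqrt (y / (x ^ 3 * (y - x))) * x ^ ((3 : ℝ) / 8) ≤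
      2 * x ^ (-((9 : ℝ) / 8)) + 2 * (y / 2) ^ (-((5 : ℝ) / 8)) * (1 / Real.sqrt (y - x)) := by
  have hx0 : 0 < x := by linarith
  have hy0 : 0 < y := by linarith
  have hd : 0 < y - x := by linarith
  have hs : 0 < Real.sqrt (y - x) := Real.sqrt_pos.2 hd
  have hss : Real.sqrt (y - x) ^ 2 = y - x := Real.sq_sqrt hd.le
  have hp : 0 ≤ x ^ ((3 : ℝ) / 8) := Real.rpow_nonneg hx0.le _
  have hp1 : 0 ≤ x ^ (-((9 : ℝ) / 8)) := Real.rpow_nonneg hx0.le _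
  have hp2 : 0 ≤ (y / 2) ^ (-((5 : ℝ) / 8)) := Real.rpow_nonneg (by linarith) _
  have hp3 : 0 ≤ 1 / Real.sqrt (y - x) := by positivity
  rcases le_or_gt (2 * x) y with h | h
  · have h1 : Real.sqrt (y / (x ^ 3 * (y - x))) ≤ 2 * x ^ (-((3 : ℝ) / 2)) := by
      rw [Real.sqrt_le_iff]
      refine ⟨by positivity, ?_⟩
      have e1 : (x ^ (-((3 : ℝ) / 2))) ^ 2 = 1 / x ^ 3 := by
        rw [← Real.rpow_natCast (x ^ (-((3 : ℝ) / 2))) 2, ← Real.rpow_mul hx0.le]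
        have : -((3 : ℝ) / 2) * ((2 : ℕ) : ℝ) = -((3 : ℕ) : ℝ) := by push_cast; norm_num
        rw [this, Real.rpow_neg hx0.le, Real.rpow_natCast, one_div]
      rw [mul_pow, e1, mul_one_div, div_le_div_iff₀ (by positivity) (by positivity)]
      have h2 : y ≤ 2 ^ 2 * (y - x) := by linarith
      calc y * x ^ 3 ≤ (2 ^ 2 * (y - x)) * x ^ 3 := mul_le_mul_of_nonneg_right h2 (by positivity)
        _ = 2 ^ 2 * (x ^ 3 * (y - x)) := by ring
    have h2 := mul_le_mul_of_nonneg_right h1 hp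
    have e2 : 2 * x ^ (-((3 : ℝ) / 2)) * x ^ ((3 : ℝ) / 8) = 2 * x ^ (-((9 : ℝ) / 8)) := by
      rw [mul_assoc, ← Real.rpow_add hx0]
      norm_num
    rw [e2] at h2
    have h3 : 0 ≤ 2 * (y / 2) ^ (-((5 : ℝ) / 8)) * (1 / Real.sqrt (y - x)) := by positivity
    linarith
  · have h1 : Real.sqrt (y / (x ^ 3 * (y - x))) ≤ 2 * (x ^ (-(1 : ℝ)) * (1 / Real.sqrt (y - x))) := by
      rw [Real.sqrt_le_iff]
      refine ⟨by positivity, ?_⟩
      rw [Real.rpow_neg_one, mul_pow, mul_pow, div_pow, hss, one_pow, inv_pow]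
      have e1 : (2 : ℝ) ^ 2 * ((x ^ 2)⁻¹ * (1 / (y - x))) = 4 * x / (x ^ 3 * (y - x)) := by
        field_simp
        norm_num
      rw [e1]
      refine div_le_div_of_nonneg_right ?_ (by positivity)
      linarith
    have h2 := mul_le_mul_of_nonneg_right h1 hp
    have e2 : 2 * (x ^ (-(1 : ℝ)) * (1 / Real.sqrt (y - x))) * x ^ ((3 : ℝ) / 8) =
        2 * x ^ (-((5 : ℝ) / 8)) * (1 / Real.sqrt (y - x)) := by
      have e3 : x ^ (-((5 : ℝ) / 8)) = x ^ (-(1 : ℝ)) * x ^ ((3 : ℝ) / 8) := by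
        rw [← Real.rpow_add hx0]
        norm_num
      rw [e3]
      ring
    rw [e2] at h2
    have h3 : x ^ (-((5 : ℝ) / 8)) ≤ (y / 2) ^ (-((5 : ℝ) / 8)) :=
      Real.rpow_le_rpow_of_nonpos (by linarith) (by linarith) (by norm_num)
    have h4 := mul_le_mul_of_nonneg_right h3 hp3
    have h5 : 0 ≤ 2 * x ^ (-((9 : ℝ) / 8)) := by positivity
    nlinarith

theorem sum_tt : ∃ C : ℝ, 0 < C ∧ ∀ n : ℕ, 2 ≤ n → ∀ m0 : ℕ, 1 ≤ m0 →
    ∑ m ∈ Ico m0 n, tt n m * (m : ℝ) ^ ((3 : ℝ) / 8) ≤ C * n * (m0 : ℝ) ^ (-((1 : ℝ) / 8)) := by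
  obtain ⟨C, hC, htt⟩ := tt_le
  refine ⟨40 * C, by positivity, ?_⟩
  intro n hn m0 hm0
  have hm0R : (1 : ℝ) ≤ m0 := by exact_mod_cast hm0
  have hpm : 0 ≤ (m0 : ℝ) ^ (-((1 : ℝ) / 8)) := Real.rpow_nonneg (by linarith) _
  have hnR : (0 : ℝ) < n := by
    have : 0 < n := by omega
    exact_mod_cast this
  rcases le_or_gt n m0 with h | h
  · rw [Finset.Ico_eq_empty (by omega), Finset.sum_empty]
    positivity
  · have hterm : ∀ m ∈ Ico m0 n, tt n m * (m : ℝ) ^ ((3 : ℝ) / 8) ≤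
        C * n * (2 * (m : ℝ) ^ (-((9 : ℝ) / 8)) +
          2 * ((n : ℝ) / 2) ^ (-((5 : ℝ) / 8)) * (1 / Real.sqrt ((n : ℝ) - m))) := by
      intro m hm
      rw [mem_Ico] at hm
      have h1 : 1 ≤ m := hm0.trans hm.1
      have h1R : (1 : ℝ) ≤ m := by exact_mod_cast h1
      have h2R : (m : ℝ) < n := by exact_mod_cast hm.2
      have h3 := htt n m h1 hm.2
      have h4 := term h1R h2R
      have h5 : 0 ≤ (m : ℝ) ^ ((3 : ℝ) / 8) := Real.rpow_nonneg (by linarith) _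
      calc tt n m * (m : ℝ) ^ ((3 : ℝ) / 8) ≤
          C * n * Real.sqrt ((n : ℝ) / ((m : ℝ) ^ 3 * ((n : ℝ) - m))) * (m : ℝ) ^ ((3 : ℝ) / 8) :=
            mul_le_mul_of_nonneg_right h3 h5
        _ = C * n * (Real.sqrt ((n : ℝ) / ((m : ℝ) ^ 3 * ((n : ℝ) - m))) *
            (m : ℝ) ^ ((3 : ℝ) / 8)) := by ring
        _ ≤ _ := mul_le_mul_of_nonneg_left h4 (by positivity)
    refine (Finset.sum_le_sum hterm).trans ?_
    rw [← Finset.mul_sum, Finset.sum_add_distrib, ← Finset.mul_sum, ← Finset.mul_sum]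
    have hs1 := sum1 hm0 h.le
    have hs2 := sum2 h.le
    have hpn : 0 ≤ 2 * ((n : ℝ) / 2) ^ (-((5 : ℝ) / 8)) := by positivity
    have h6 : 2 * ((n : ℝ) / 2) ^ (-((5 : ℝ) / 8)) * ∑ m ∈ Ico m0 n, 1 / Real.sqrt ((n : ℝ) - m) ≤
        8 * (m0 : ℝ) ^ (-((1 : ℝ) / 8)) := by
      refine (mul_le_mul_of_nonneg_left hs2 hpn).trans ?_
      have e1 : ((n : ℝ) / 2) ^ (-((5 : ℝ) / 8)) =
          (n : ℝ) ^ (-((5 : ℝ) / 8)) * (2 : ℝ) ^ ((5 : ℝ) / 8) := by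
        rw [Real.div_rpow hnR.le (by norm_num), Real.rpow_neg (by norm_num : (0 : ℝ) ≤ 2) (5 / 8)]
        field_simp
      have e2 : (2 : ℝ) ^ ((5 : ℝ) / 8) ≤ 2 := by
        calc (2 : ℝ) ^ ((5 : ℝ) / 8) ≤ (2 : ℝ) ^ (1 : ℝ) :=
              Real.rpow_le_rpow_of_exponent_le (by norm_num) (by norm_num)
          _ = 2 := Real.rpow_one 2
      have e3 : (n : ℝ) ^ (-((5 : ℝ) / 8)) * Real.sqrt n = (n : ℝ) ^ (-((1 : ℝ) / 8)) := by
        rw [Real.sqrt_eq_rpow, ← Real.rpow_add hnR]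
        norm_num
      have e4 : (n : ℝ) ^ (-((1 : ℝ) / 8)) ≤ (m0 : ℝ) ^ (-((1 : ℝ) / 8)) :=
        Real.rpow_le_rpow_of_nonpos (by linarith) (by exact_mod_cast h.le) (by norm_num)
      have e5 : 0 ≤ (n : ℝ) ^ (-((1 : ℝ) / 8)) := Real.rpow_nonneg hnR.le _
      calc 2 * ((n : ℝ) / 2) ^ (-((5 : ℝ) / 8)) * (2 * Real.sqrt n) =
          4 * (2 : ℝ) ^ ((5 : ℝ) / 8) * ((n : ℝ) ^ (-((5 : ℝ) / 8)) * Real.sqrt n) := by
            rw [e1]; ring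
        _ = 4 * (2 : ℝ) ^ ((5 : ℝ) / 8) * (n : ℝ) ^ (-((1 : ℝ) / 8)) := by rw [e3]
        _ ≤ 4 * 2 * (n : ℝ) ^ (-((1 : ℝ) / 8)) :=
            mul_le_mul_of_nonneg_right (by linarith) e5
        _ ≤ 4 * 2 * (m0 : ℝ) ^ (-((1 : ℝ) / 8)) := mul_le_mul_of_nonneg_left e4 (by norm_num)
        _ = _ := by ring
    have h7 : 2 * ∑ m ∈ Ico m0 n, (m : ℝ) ^ (-((9 : ℝ) / 8)) +
        2 * ((n : ℝ) / 2) ^ (-((5 : ℝ) / 8)) * ∑ m ∈ Ico m0 n, 1 / Real.sqrt ((n : ℝ) - m) ≤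
        40 * (m0 : ℝ) ^ (-((1 : ℝ) / 8)) := by linarith
    calc _ ≤ C * n * (40 * (m0 : ℝ) ^ (-((1 : ℝ) / 8))) :=
          mul_le_mul_of_nonneg_left h7 (by positivity)
      _ = _ := by ring

end Pool.AAT
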