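import Pool.Agent.AAT.Defs
import Pool.Agent.AAT.Rad8
import Pool.Agent.AAT.SumT
import Pool.Agent.AAT.Split
import Pool.Agent.AAT.CardF
import Pool.Agent.AAT.Rad

/-!
# AAT-First: the first moment

PLAN. `α = Fin n`. Exchange sums: `Σ_{v ≠ r} Σ_p Σ_e`, sort the `p` by `S = fr p v` (`v ∈ S`, `r ∉ S`
because `r` is a fixed point different from `v`). By `rad_cut` and `fringe_split` (`V = univ`,
`Φ q y q' = Σ_e rad q e v`) the part of `(v, S)` is
`(univ \ S).card * (Forest (univ \ S) {r}).card * Σ_{q ∈ Forest S {v}} Σ_e rad q e v`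
`≤ (n-m)^(n-m-1) * 3 m^(3/8) * m^(m-2) * 2^n`, `m = S.card` (`card_forest`:
`(Forest S {v}).card * m = m^(m-1)`, `(n-m) * (Forest (univ \ S) {r}).card = (n-m)^(n-m-1)`).
There are `(n-1 choose m) * m` pairs `(v, S)` with `S.card = m`, `r ∉ S`, `v ∈ S`. Since
`(Forest univ {r}).card = n^(n-2)` in ℝ, the total is
`≤ 3 * Σ_{m0 ≤ m < n} tt n m * m^(3/8) * (Forest univ {r}).card * 2^n`; apply `sum_tt`.
-/

set_option autoImplicit false

namespace Pool.AAT

open Finset
open scoped Classical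

private lemma card_S {α : Type} [Fintype α] (S : Finset α) (v : α) (hv : v ∈ S) :
    ((Forest S {v}).card : ℝ) = (S.card : ℝ) ^ (S.card - 1) / S.card := by
  have h1 := card_forest S {v} (by simpa using hv)
  rw [card_singleton, one_mul] at h1
  have h2 : (0 : ℝ) < S.card := by exact_mod_cast card_pos.2 ⟨v, hv⟩
  rw [eq_div_iff h2.ne']
  exact_mod_cast h1

private lemma part_le {α : Type} [Fintype α] (r v : α) (S : Finset α) (hv : v ∈ S) (hr : r ∉ S)
    (F : Finset (α → α)) (hF : ∀ p, p ∈ F ↔ p ∈ Forest univ {r} ∧ fr p v = S) (n : ℕ)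
    (hn : Fintype.card α = n) (W : Finset (α → Bool)) (hW : ∀ e, e ∈ W) :
    ∑ p ∈ F, ∑ e ∈ W, (rad p e v : ℝ) ≤
      ((n - S.card : ℕ) : ℝ) ^ (n - S.card - 1) *
        (3 * (S.card : ℝ) ^ ((3 : ℝ) / 8) * ((S.card : ℝ) ^ (S.card - 1) / S.card) * 2 ^ n) := by
  obtain rfl : W = univ := Finset.eq_univ_iff_forall.2 hW
  have h1 := fringe_split univ S r v (mem_univ r) hv (subset_univ S) hr
    (fun q _ _ => ∑ e : α → Bool, (rad q e v : ℝ))
  have hF2 : F = (Forest univ {r}).filter (fun p => fr p v = S) := by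
    ext p
    rw [hF, mem_filter]
  have h2 : ∑ p ∈ F, ∑ e : α → Bool, (rad p e v : ℝ) =
      ∑ p ∈ (Forest univ {r}).filter (fun p => fr p v = S),
        ∑ e : α → Bool, (rad (cut S v p) e v : ℝ) := by
    rw [hF2]
    refine sum_congr rfl fun p hp => sum_congr rfl fun e _ => ?_
    have h3 := (mem_filter.1 hp).2
    rw [← h3, rad_cut]
  rw [h2, h1]
  have hcard : (univ \ S).card = n - S.card := by
    rw [card_sdiff_of_subset (subset_univ S), card_univ, hn]
  have h4 := card_forest (univ \ S) {r} (by simpa using hr)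
  rw [card_singleton, one_mul, hcard] at h4
  have h5 : ((Forest (univ \ S) {r}).card : ℝ) * ((n - S.card : ℕ) : ℝ) =
      ((n - S.card : ℕ) : ℝ) ^ (n - S.card - 1) := by exact_mod_cast h4
  simp only [sum_const, nsmul_eq_mul, hcard]
  rw [← mul_sum, ← mul_sum, ← mul_assoc]
  have h6 : ((n - S.card : ℕ) : ℝ) * ((Forest (univ \ S) {r}).card : ℝ) =
      ((n - S.card : ℕ) : ℝ) ^ (n - S.card - 1) := by rw [mul_comm, h5]
  rw [h6]
  refine mul_le_mul_of_nonneg_left ?_ (by positivity)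
  have h7 := rad1 S v hv
  rw [card_S S v hv, hn] at h7
  exact h7

private lemma r_notMem {α : Type} [Fintype α] (r v : α) (hvr : v ≠ r) (p : α → α)
    (hp : p ∈ Forest univ {r}) : r ∉ fr p v := by
  intro h
  rw [Forest, mem_filter] at hp
  rw [fr, mem_filter] at h
  obtain ⟨i, hi⟩ := h.2
  have h1 : p r = r := hp.2.1 r (by simp)
  rw [Function.iterate_fixed h1] at hi
  exact hvr hi.symm

theorem first : ∃ C : ℝ, 0 < C ∧ ∀ n : ℕ, 2 ≤ n → ∀ (r : Fin n) (m0 : ℕ), 1 ≤ m0 →
    ∑ p ∈ Forest univ {r}, ∑ e : Fin n → Bool,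
        ∑ v ∈ (univ.erase r).filter (fun v => m0 ≤ (fr p v).card), (rad p e v : ℝ) ≤
      C * n * (m0 : ℝ) ^ (-((1 : ℝ) / 8)) * ((Forest univ {r} : Finset (Fin n → Fin n)).card : ℝ) *
        2 ^ n := by
  obtain ⟨C, hC, h⟩ := sum_tt
  refine ⟨3 * C, by positivity, fun n hn r m0 hm0 => ?_⟩
  have hn0 : (0 : ℝ) < n := by exact_mod_cast (by omega : 0 < n)
  have hF : ((Forest univ {r} : Finset (Fin n → Fin n)).card : ℝ) = (n : ℝ) ^ (n - 2) := by
    have h1 := card_forest (univ : Finset (Fin n)) {r} (subset_univ _)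
    rw [card_singleton, one_mul, card_univ, Fintype.card_fin] at h1
    have h2 : ((Forest univ {r} : Finset (Fin n → Fin n)).card : ℝ) * n = (n : ℝ) ^ (n - 2) * n := by
      rw [← pow_succ]
      have e : n - 2 + 1 = n - 1 := by omega
      rw [e]
      exact_mod_cast h1
    exact mul_right_cancel₀ hn0.ne' h2
  set B : ℕ → ℝ := fun m => ((n - m : ℕ) : ℝ) ^ (n - m - 1) *
        (3 * (m : ℝ) ^ ((3 : ℝ) / 8) * ((m : ℝ) ^ (m - 1) / m) * 2 ^ n) with hB
  have e1 : ∑ p ∈ Forest univ {r}, ∑ e : Fin n → Bool,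
        ∑ v ∈ (univ.erase r).filter (fun v => m0 ≤ (fr p v).card), (rad p e v : ℝ) =
      ∑ v ∈ univ.erase r, ∑ p ∈ (Forest univ {r}).filter (fun p => m0 ≤ (fr p v).card),
        ∑ e : Fin n → Bool, (rad p e v : ℝ) := by
    have e2 : ∀ p ∈ Forest univ {r}, ∑ e : Fin n → Bool,
        ∑ v ∈ (univ.erase r).filter (fun v => m0 ≤ (fr p v).card), (rad p e v : ℝ) =
        ∑ v ∈ univ.erase r, if m0 ≤ (fr p v).card then ∑ e : Fin n → Bool, (rad p e v : ℝ)
          else 0 := by
      intro p _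
      rw [sum_comm, sum_filter]
    rw [sum_congr rfl e2, sum_comm]
    refine sum_congr rfl fun v _ => ?_
    rw [sum_filter]
  have e3 : ∀ v ∈ univ.erase r, ∑ p ∈ (Forest univ {r}).filter (fun p => m0 ≤ (fr p v).card),
        ∑ e : Fin n → Bool, (rad p e v : ℝ) ≤
      ∑ S ∈ (univ.erase r).powerset.filter (fun S => v ∈ S ∧ m0 ≤ S.card), B S.card := by
    intro v hv
    have hvr : v ≠ r := (mem_erase.1 hv).1
    have hmaps : ∀ p ∈ (Forest univ {r}).filter (fun p => m0 ≤ (fr p v).card),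
        fr p v ∈ (univ.erase r).powerset.filter (fun S => v ∈ S ∧ m0 ≤ S.card) := by
      intro p hp
      rw [mem_filter] at hp ⊢
      refine ⟨?_, mem_fr_self p v, hp.2⟩
      rw [mem_powerset]
      intro x hx
      refine mem_erase.2 ⟨?_, mem_univ _⟩
      rintro rfl
      exact r_notMem _ _ hvr p hp.1 hx
    rw [← sum_fiberwise_of_maps_to hmaps]
    refine sum_le_sum fun S hS => ?_
    rw [mem_filter, mem_powerset] at hS
    have hrS : r ∉ S := fun hr => (mem_erase.1 (hS.1 hr)).1 rfl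
    have h1 := part_le r v S hS.2.1 hrS ((Forest univ {r}).filter (fun p => fr p v = S))
      (fun p => mem_filter) n (Fintype.card_fin n) univ (fun e => mem_univ e)
    have h2 : ((Forest univ {r}).filter (fun p => m0 ≤ (fr p v).card)).filter
        (fun p => fr p v = S) = (Forest univ {r}).filter (fun p => fr p v = S) := by
      ext p
      simp only [mem_filter]
      constructor
      · rintro ⟨⟨h3, -⟩, h4⟩
        exact ⟨h3, h4⟩
      · rintro ⟨h3, h4⟩
        exact ⟨⟨h3, by rw [h4]; exact hS.2.2⟩, h4⟩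
    rw [h2]
    exact h1
  have e4 : ∑ v ∈ univ.erase r, ∑ S ∈ (univ.erase r).powerset.filter
      (fun S => v ∈ S ∧ m0 ≤ S.card), B S.card =
      ∑ S ∈ (univ.erase r).powerset, if m0 ≤ S.card then (S.card : ℝ) * B S.card else 0 := by
    rw [← sum_filter]
    rw [sum_comm' (s' := fun S => S) (t' := (univ.erase r).powerset.filter (fun S => m0 ≤ S.card))]
    · refine sum_congr rfl fun S _ => ?_
      rw [sum_const, nsmul_eq_mul]
    · intro v S
      simp only [mem_filter, mem_powerset]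
      constructor
      · rintro ⟨-, h1, h2, h3⟩
        exact ⟨h2, h1, h3⟩
      · rintro ⟨h1, h2, h3⟩
        exact ⟨h2 h1, h2, h1, h3⟩
  have e5 : ∑ S ∈ (univ.erase r).powerset, (if m0 ≤ S.card then (S.card : ℝ) * B S.card else 0) =
      ∑ m ∈ Ico m0 n, ((n - 1).choose m : ℝ) * (m * B m) := by
    have h1 := sum_powerset_apply_card (x := (univ.erase r : Finset (Fin n)))
      (fun m => if m0 ≤ m then (m : ℝ) * B m else 0)
    rw [h1, card_erase_of_mem (mem_univ r), card_univ, Fintype.card_fin]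
    have h2 : n - 1 + 1 = n := by omega
    rw [h2]
    have h3 : ∀ m ∈ range n, (n - 1).choose m • (if m0 ≤ m then (m : ℝ) * B m else 0) =
        if m0 ≤ m then ((n - 1).choose m : ℝ) * (m * B m) else 0 := by
      intro m _
      split_ifs
      · rw [nsmul_eq_mul]
      · simp
    rw [sum_congr rfl h3, ← sum_filter]
    refine sum_congr ?_ fun _ _ => rfl
    ext m
    simp only [mem_filter, mem_range, mem_Ico]
    tauto
  have e6 : ∀ m ∈ Ico m0 n, ((n - 1).choose m : ℝ) * (m * B m) =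
      (3 * ((Forest univ {r} : Finset (Fin n → Fin n)).card : ℝ) * 2 ^ n) *
        (tt n m * (m : ℝ) ^ ((3 : ℝ) / 8)) := by
    intro m hm
    rw [mem_Ico] at hm
    have hm1 : (m : ℝ) ≠ 0 := by
      have : 0 < m := by omega
      exact_mod_cast this.ne'
    have hn1 : (n : ℝ) ^ (n - 2) ≠ 0 := by positivity
    rw [hF, hB, tt]
    field_simp
  rw [e1]
  refine (sum_le_sum e3).trans ?_
  rw [e4, e5, sum_congr rfl e6, ← mul_sum]
  have h1 := h n hn m0 hm0
  calc (3 * ((Forest univ {r} : Finset (Fin n → Fin n)).card : ℝ) * 2 ^ n) *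
        ∑ m ∈ Ico m0 n, (tt n m * (m : ℝ) ^ ((3 : ℝ) / 8)) ≤
      (3 * ((Forest univ {r} : Finset (Fin n → Fin n)).card : ℝ) * 2 ^ n) *
        (C * n * (m0 : ℝ) ^ (-((1 : ℝ) / 8))) := by
        refine mul_le_mul_of_nonneg_left h1 (by positivity)
    _ = _ := by ring

end Pool.AAT
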