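import Mathlib

/-!
# AAT-Lim: two limits

Both expressions are powers of `1 - m/n` with exponent `n` minus a constant.
-/

set_option autoImplicit false

namespace Pool.AAT

open Filter Topology

private theorem lim_aux (m j : ℕ) :
    Tendsto (fun n : ℕ => (((n - m : ℕ) : ℝ) / (n : ℝ)) ^ (n - j)) atTop
      (𝓝 (Real.exp (-(m : ℝ)))) := by
  have h1 := Real.tendsto_one_add_div_pow_exp (-(m : ℝ))
  have h2 : Tendsto (fun n : ℕ => (1 + -(m : ℝ) / (n : ℝ)) ^ j) atTop (𝓝 1) := by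
    have h3 : Tendsto (fun n : ℕ => 1 + -(m : ℝ) / (n : ℝ)) atTop (𝓝 (1 + 0)) :=
      tendsto_const_nhds.add (tendsto_const_div_atTop_nhds_zero_nat _)
    rw [add_zero] at h3
    have h4 := h3.pow j
    rwa [one_pow] at h4
  have h5 := h1.div h2 one_ne_zero
  rw [div_one] at h5
  refine h5.congr' ?_
  filter_upwards [eventually_gt_atTop m, eventually_ge_atTop j] with n hn hj
  have hn0 : (0 : ℝ) < n := by
    have : 0 < n := by omega
    exact_mod_cast this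
  have hnm : (m : ℝ) < n := by exact_mod_cast hn
  have e1 : 1 + -(m : ℝ) / (n : ℝ) = ((n - m : ℕ) : ℝ) / (n : ℝ) := by
    rw [Nat.cast_sub hn.le]
    field_simp
    ring
  have hne : 1 + -(m : ℝ) / (n : ℝ) ≠ 0 := by
    rw [e1, Nat.cast_sub hn.le]
    exact (div_pos (by linarith) hn0).ne'
  show (1 + -(m : ℝ) / (n : ℝ)) ^ n / (1 + -(m : ℝ) / (n : ℝ)) ^ j = _
  rw [← e1, div_eq_iff (pow_ne_zero _ hne), ← pow_add]
  congr 1
  omega

private theorem quot_aux {n a b c : ℕ} {x : ℝ} (hn : 0 < n) (h : c = a + b) :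
    (n : ℝ) ^ a * x ^ b / (n : ℝ) ^ c = (x / (n : ℝ)) ^ b := by
  have hn0 : (n : ℝ) ≠ 0 := by exact_mod_cast hn.ne'
  rw [h, pow_add, div_pow, mul_div_mul_left _ _ (pow_ne_zero _ hn0)]

theorem lim1 (m : ℕ) (hm : 1 ≤ m) :
    Tendsto (fun n : ℕ => (n : ℝ) ^ (m - 1) * ((n - m : ℕ) : ℝ) ^ (n - m - 1) / (n : ℝ) ^ (n - 2))
      atTop (𝓝 (Real.exp (-(m : ℝ)))) := by
  refine (lim_aux m (m + 1)).congr' ?_
  filter_upwards [eventually_gt_atTop m] with n hn
  rw [quot_aux (by omega) (show n - 2 = (m - 1) + (n - m - 1) by omega), Nat.sub_sub]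

theorem lim2 (k : ℕ) (hk : 2 ≤ k) :
    Tendsto (fun n : ℕ => (n : ℝ) ^ (k - 2) * ((n - k : ℕ) : ℝ) ^ (n - k) / (n : ℝ) ^ (n - 2))
      atTop (𝓝 (Real.exp (-(k : ℝ)))) := by
  refine (lim_aux k k).congr' ?_
  filter_upwards [eventually_ge_atTop k] with n hn
  rw [quot_aux (by omega) (show n - 2 = (k - 2) + (n - k) by omega)]

end Pool.AAT
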