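import Pool.Agent.AAT.Defs

/-!
# AAT-Indep: independence of functions of disjoint sets of bits

PLAN. `(Σ f) (Σ g) = Σ_{e, e'} f e * g e'`. The involution `(e, e') ↦ (e with the coordinates of B
replaced by those of e', e' with the coordinates of B replaced by those of e)` is a bijection of
pairs under which `f e * g e'` becomes `f e * g e` (f does not see B since A and B are disjoint; the
new `e` agrees with `e'` on `B`): so the double sum is `Σ_{e,e'} f e * g e = 2^(card α) Σ_e f e * g e`.
-/

set_option autoImplicit false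

namespace Pool.AAT

open Finset
open scoped Classical

variable {α : Type} [Fintype α]

private noncomputable def swapB (B : Finset α) (q : (α → Bool) × (α → Bool)) : (α → Bool) × (α → Bool) :=
  (fun x => if x ∈ B then q.2 x else q.1 x, fun x => if x ∈ B then q.1 x else q.2 x)

omit [Fintype α] in
private theorem swapB_inv (B : Finset α) : Function.Involutive (swapB B) := by
  rintro ⟨e, e'⟩
  apply Prod.ext
  · funext x
    by_cases hx : x ∈ B <;> simp [swapB, hx]
  · funext x
    by_cases hx : x ∈ B <;> simp [swapB, hx]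

theorem indep (A B : Finset α) (hd : Disjoint A B) (f g : (α → Bool) → ℝ)
    (hf : ∀ e e' : α → Bool, (∀ x ∈ A, e x = e' x) → f e = f e')
    (hg : ∀ e e' : α → Bool, (∀ x ∈ B, e x = e' x) → g e = g e') :
    (∑ e : α → Bool, f e * g e) * 2 ^ (Fintype.card α) =
      (∑ e : α → Bool, f e) * ∑ e : α → Bool, g e := by
  have h1 : (∑ e : α → Bool, f e) * ∑ e : α → Bool, g e =
      ∑ q : (α → Bool) × (α → Bool), f q.1 * g q.2 := by
    rw [Finset.sum_mul_sum, Fintype.sum_prod_type]
  have h2 : ∑ q : (α → Bool) × (α → Bool), f q.1 * g q.2 =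
      ∑ q : (α → Bool) × (α → Bool), f (swapB B q).1 * g (swapB B q).2 :=
    (Function.Bijective.sum_comp (swapB_inv B).bijective
      (fun q : (α → Bool) × (α → Bool) => f q.1 * g q.2)).symm
  have h3 : ∀ q : (α → Bool) × (α → Bool),
      f (swapB B q).1 * g (swapB B q).2 = f q.1 * g q.1 := by
    rintro ⟨e, e'⟩
    rw [hf (swapB B (e, e')).1 e ?_, hg (swapB B (e, e')).2 e ?_]
    · intro x hx
      simp [swapB, hx]
    · intro x hx
      have hxB : x ∉ B := Finset.disjoint_left.1 hd hx
      simp [swapB, hxB]
  rw [h1, h2, Finset.sum_congr rfl fun q _ => h3 q, Fintype.sum_prod_type, Finset.sum_mul]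
  refine Finset.sum_congr rfl fun e _ => ?_
  change f e * g e * 2 ^ Fintype.card α = ∑ _y : α → Bool, f e * g e
  rw [Finset.sum_const, nsmul_eq_mul, Finset.card_univ, Fintype.card_fun, Fintype.card_bool]
  push_cast
  ring

end Pool.AAT
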