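import Pool.Agent.AAT.Defs
import Pool.Agent.AAT.Split2
import Pool.Agent.AAT.Split
import Pool.Agent.AAT.CardF
import Pool.Agent.AAT.Rad
import Pool.Agent.AAT.Indep

/-!
# AAT-SecA: the second moment of the small fringes, exact part

For a random rooted labelled tree with random orientation bits, `Y` is the sum of the radii of the
fringes with at most `m0` vertices. The statement bounds `F 2^n Σ Σ Y^2 - (Σ Σ Y)^2`: the pairs of
disjoint fringes are counted exactly by `fringe_split2` and `indep`, the pairs of fringes that meet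
are nested and there are at most `2 n m0` of them for each tree.
-/

set_option autoImplicit false

namespace Pool.AAT

open Finset
open scoped Classical

variable {α : Type} [Fintype α]

/-- The vertices other than the root with a small fringe. -/
private noncomputable def secT (r : α) (m0 : ℕ) (p : α → α) : Finset α :=
  univ.filter (fun v => v ≠ r ∧ (fr p v).card ≤ m0)

private lemma mem_secT (r : α) (m0 : ℕ) (p : α → α) (v : α) :
    v ∈ secT r m0 p ↔ v ≠ r ∧ (fr p v).card ≤ m0 := by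
  simp only [secT, Finset.mem_filter, Finset.mem_univ, true_and]

/-- Pairs `(v, S)` of a possible fringe vertex and its fringe. -/
private noncomputable def secI (r : α) (m0 : ℕ) : Finset (α × Finset (α)) :=
  univ.filter (fun x => x.1 ∈ x.2 ∧ r ∉ x.2 ∧ x.2.card ≤ m0)

/-- The total radius over all trees on `S` with root `v` and all orientation bits. -/
private noncomputable def secW (x : α × Finset (α)) : ℝ :=
  ∑ q ∈ Forest x.2 {x.1}, ∑ e : α → Bool, (rad q e x.1 : ℝ)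

private lemma mem_secI (r : α) (m0 : ℕ) (x : α × Finset (α)) :
    x ∈ secI r m0 ↔ x.1 ∈ x.2 ∧ r ∉ x.2 ∧ x.2.card ≤ m0 := by
  simp only [secI, Finset.mem_filter, Finset.mem_univ, true_and]

private lemma secW_nonneg (x : α × Finset (α)) : 0 ≤ secW x :=
  Finset.sum_nonneg fun _ _ => Finset.sum_nonneg fun _ _ => Nat.cast_nonneg _

private lemma root_fix (r : α) (p : α → α) (hp : p ∈ Forest univ {r}) : p r = r := by
  simp only [Forest, Finset.mem_filter, Finset.mem_univ, true_and] at hp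
  exact hp.1 r (by simp)

private lemma root_notMem (r : α) (p : α → α) (hp : p ∈ Forest univ {r}) (v : α)
    (hv : v ≠ r) : r ∉ fr p v := by
  intro h
  simp only [fr, Finset.mem_filter, Finset.mem_univ, true_and] at h
  obtain ⟨i, hi⟩ := h
  rw [Function.iterate_fixed (root_fix r p hp)] at hi
  exact hv hi.symm

private lemma sec_index (r : α) (m0 : ℕ) (p : α → α) (hp : p ∈ Forest univ {r})
    (g : α → ℝ) :
    ∑ v ∈ secT r m0 p, g v =
      ∑ x ∈ secI r m0, if fr p x.1 = x.2 then g x.1 else 0 := by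
  rw [← Finset.sum_filter]
  refine Finset.sum_nbij' (fun v => (v, fr p v)) (fun x => x.1) ?_ ?_ ?_ ?_ ?_
  · intro v hv
    rw [mem_secT] at hv
    rw [Finset.mem_filter, mem_secI]
    exact ⟨⟨mem_fr_self p v, root_notMem r p hp v hv.1, hv.2⟩, rfl⟩
  · intro x hx
    rw [Finset.mem_filter, mem_secI] at hx
    obtain ⟨⟨h1, h2, h3⟩, h4⟩ := hx
    rw [mem_secT]
    refine ⟨fun h => h2 (h ▸ h1), ?_⟩
    rw [h4]; exact h3
  · intro v _; rfl
  · intro x hx
    rw [Finset.mem_filter] at hx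
    exact Prod.ext rfl hx.2
  · intro v _; rfl

private lemma card_F (n : ℕ) (hn : Fintype.card α = n) (r : α) : ((Forest univ {r} : Finset (α → α)).card : ℝ) =
    (n : ℝ) ^ (n - 2) := by
  have hn0 : 0 < n := by rw [← hn]; exact Fintype.card_pos_iff.mpr ⟨r⟩
  have h := card_forest (univ : Finset (α)) {r} (Finset.subset_univ _)
  rw [Finset.card_univ, hn, Finset.card_singleton, one_mul] at h
  have h2 : (Forest univ {r} : Finset (α → α)).card = n ^ (n - 2) := by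
    rcases Nat.lt_or_ge n 2 with h1 | h1
    · have : n = 1 := by omega
      subst this
      simpa using h
    · have e : n - 1 = (n - 2) + 1 := by omega
      rw [e, pow_succ] at h
      exact Nat.eq_of_mul_eq_mul_right hn0 h
  rw [h2]; push_cast; rfl

private lemma card_U (U : Finset (α)) (r : α) (h : r ∈ U) :
    (U.card : ℝ) * ((Forest U {r} : Finset (α → α)).card : ℝ) =
      (U.card : ℝ) ^ (U.card - 1) := by
  have h := card_forest U {r} (Finset.singleton_subset_iff.mpr h)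
  rw [Finset.card_singleton, one_mul] at h
  rw [mul_comm]
  exact_mod_cast h

private lemma sec_first (n : ℕ) (hn : Fintype.card α = n) (r : α) (m0 : ℕ) :
    ∑ p ∈ Forest univ {r}, ∑ e : α → Bool,
      ∑ v ∈ secT r m0 p, (rad p e v : ℝ) =
    ∑ x ∈ secI r m0, ((n - x.2.card : ℕ) : ℝ) ^ (n - x.2.card - 1) * secW x := by
  have h1 : ∀ p ∈ Forest univ {r}, ∑ e : α → Bool,
      ∑ v ∈ secT r m0 p, (rad p e v : ℝ) =
      ∑ x ∈ secI r m0, if fr p x.1 = x.2 then
        ∑ e : α → Bool, (rad (cut x.2 x.1 p) e x.1 : ℝ) else 0 := by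
    intro p hp
    rw [Finset.sum_congr rfl (fun e _ => sec_index r m0 p hp (fun v => (rad p e v : ℝ)))]
    rw [Finset.sum_comm]
    refine Finset.sum_congr rfl fun x _ => ?_
    by_cases h : fr p x.1 = x.2
    · rw [if_pos h]
      refine Finset.sum_congr rfl fun e _ => ?_
      rw [if_pos h, ← h, rad_cut]
    · rw [if_neg h]
      refine Finset.sum_eq_zero fun e _ => ?_
      rw [if_neg h]
  rw [Finset.sum_congr rfl h1, Finset.sum_comm]
  refine Finset.sum_congr rfl fun x hx => ?_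
  rw [mem_secI] at hx
  rw [← Finset.sum_filter]
  have h2 := fringe_split univ x.2 r x.1 (Finset.mem_univ r) hx.1 (Finset.subset_univ _) hx.2.1
    (fun q _ _ => ∑ e : α → Bool, (rad q e x.1 : ℝ))
  rw [h2]
  have hc : (univ \ x.2 : Finset (α)).card = n - x.2.card := by
    rw [Finset.card_univ_sdiff, hn]
  have h3 := card_U (univ \ x.2) r (by simp [hx.2.1])
  rw [hc] at h3
  rw [← h3, secW, Finset.mul_sum]
  refine Finset.sum_congr rfl fun q _ => ?_
  rw [Finset.sum_const, Finset.sum_const, nsmul_eq_mul, nsmul_eq_mul, hc, mul_assoc]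

private lemma sec_pair (n : ℕ) (hn : Fintype.card α = n) (r : α) (x x' : α × Finset (α)) (hx : x.1 ∈ x.2)
    (hx' : x'.1 ∈ x'.2) (hr : r ∉ x.2) (hr' : r ∉ x'.2) (hd : Disjoint x.2 x'.2) :
    (∑ p ∈ (Forest univ {r}).filter (fun p => fr p x.1 = x.2 ∧ fr p x'.1 = x'.2),
      ∑ e : α → Bool, (rad p e x.1 : ℝ) * (rad p e x'.1 : ℝ)) * 2 ^ n =
    ((n - (x.2.card + x'.2.card) : ℕ) : ℝ) ^ (n - (x.2.card + x'.2.card)) *
      (secW x * secW x') := by
  have h1 : ∑ p ∈ (Forest univ {r}).filter (fun p => fr p x.1 = x.2 ∧ fr p x'.1 = x'.2),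
      ∑ e : α → Bool, (rad p e x.1 : ℝ) * (rad p e x'.1 : ℝ) =
      ∑ p ∈ (Forest univ {r}).filter (fun p => fr p x.1 = x.2 ∧ fr p x'.1 = x'.2),
      (fun q q' : α → α => ∑ e : α → Bool, (rad q e x.1 : ℝ) * (rad q' e x'.1 : ℝ))
        (cut x.2 x.1 p) (cut x'.2 x'.1 p) := by
    refine Finset.sum_congr rfl fun p hp => ?_
    rw [Finset.mem_filter] at hp
    refine Finset.sum_congr rfl fun e _ => ?_
    rw [← hp.2.1, ← hp.2.2, rad_cut, rad_cut]
  rw [h1, fringe_split2 x.2 x'.2 r x.1 x'.1 hx hx' hd hr hr'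
    (fun q q' : α → α => ∑ e : α → Bool, (rad q e x.1 : ℝ) * (rad q' e x'.1 : ℝ))]
  have hc : ((univ \ x.2) \ x'.2 : Finset (α)).card = n - (x.2.card + x'.2.card) := by
    rw [sdiff_sdiff_left, Finset.card_univ_sdiff, hn]
    show n - (x.2 ∪ x'.2).card = _
    rw [Finset.card_union_of_disjoint hd]
  have hrU : r ∈ ((univ \ x.2) \ x'.2 : Finset (α)) := by simp [hr, hr']
  have h3 := card_U ((univ \ x.2) \ x'.2) r hrU
  have hpos : 0 < ((univ \ x.2) \ x'.2 : Finset (α)).card := Finset.card_pos.mpr ⟨r, hrU⟩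
  rw [hc] at h3 hpos
  rw [hc]
  obtain ⟨k, hk⟩ : ∃ k, k = n - (x.2.card + x'.2.card) := ⟨_, rfl⟩
  rw [← hk] at h3 hpos ⊢
  have h4 : (k : ℝ) ^ 2 * ((Forest ((univ \ x.2) \ x'.2) {r} : Finset (α → α)).card : ℝ) =
      (k : ℝ) ^ k := by
    rw [pow_two, mul_assoc, h3, ← pow_succ']
    congr 1
    omega
  rw [h4, mul_assoc]
  congr 1
  rw [secW, secW, Finset.sum_mul_sum, Finset.sum_mul]
  refine Finset.sum_congr rfl fun q hq => ?_
  rw [Finset.sum_mul]
  refine Finset.sum_congr rfl fun q' hq' => ?_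
  have h5 := indep x.2 x'.2 hd (fun e => (rad q e x.1 : ℝ)) (fun e => (rad q' e x'.1 : ℝ)) (by
    intro e e' h
    show (rad q e x.1 : ℝ) = (rad q e' x.1 : ℝ)
    rw [rad_congr q e e' x.1 (by
      intro y hy _
      rw [fr_forest x.2 x.1 hx q hq] at hy
      exact h y hy)]) (by
    intro e e' h
    show (rad q' e x'.1 : ℝ) = (rad q' e' x'.1 : ℝ)
    rw [rad_congr q' e e' x'.1 (by
      intro y hy _
      rw [fr_forest x'.2 x'.1 hx' q' hq'] at hy
      exact h y hy)])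
  rw [hn] at h5
  exact h5

private lemma sec_disj (n : ℕ) (hn : Fintype.card α = n) (r : α) (m0 : ℕ) :
    (∑ p ∈ Forest univ {r}, ∑ e : α → Bool,
      ∑ v ∈ secT r m0 p,
      ∑ v' ∈ secT r m0 p,
        if Disjoint (fr p v) (fr p v') then (rad p e v : ℝ) * (rad p e v' : ℝ) else 0) * 2 ^ n =
    ∑ x ∈ secI r m0, ∑ x' ∈ secI r m0, if Disjoint x.2 x'.2 then
      ((n - (x.2.card + x'.2.card) : ℕ) : ℝ) ^ (n - (x.2.card + x'.2.card)) *
        (secW x * secW x') else 0 := by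
  have h1 : ∀ p ∈ Forest univ {r}, ∑ e : α → Bool,
      ∑ v ∈ secT r m0 p,
      (∑ v' ∈ secT r m0 p,
        if Disjoint (fr p v) (fr p v') then (rad p e v : ℝ) * (rad p e v' : ℝ) else 0) =
      ∑ x ∈ secI r m0, ∑ x' ∈ secI r m0,
        if Disjoint x.2 x'.2 then
          (if fr p x.1 = x.2 ∧ fr p x'.1 = x'.2 then
            ∑ e : α → Bool, (rad p e x.1 : ℝ) * (rad p e x'.1 : ℝ) else 0) else 0 := by
    intro p hp
    have h2 : ∀ e : α → Bool, ∑ v ∈ secT r m0 p,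
      (∑ v' ∈ secT r m0 p,
        if Disjoint (fr p v) (fr p v') then (rad p e v : ℝ) * (rad p e v' : ℝ) else 0) =
      ∑ x ∈ secI r m0, ∑ x' ∈ secI r m0,
        if Disjoint x.2 x'.2 then
          (if fr p x.1 = x.2 ∧ fr p x'.1 = x'.2 then
            (rad p e x.1 : ℝ) * (rad p e x'.1 : ℝ) else 0) else 0 := by
      intro e
      rw [sec_index r m0 p hp (fun v =>
        ∑ v' ∈ secT r m0 p,
        if Disjoint (fr p v) (fr p v') then (rad p e v : ℝ) * (rad p e v' : ℝ) else 0)]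
      refine Finset.sum_congr rfl fun x _ => ?_
      by_cases h : fr p x.1 = x.2
      · rw [if_pos h]
        show ∑ v' ∈ secT r m0 p,
          (if Disjoint (fr p x.1) (fr p v') then (rad p e x.1 : ℝ) * (rad p e v' : ℝ) else 0) = _
        rw [sec_index r m0 p hp (fun v' =>
          if Disjoint (fr p x.1) (fr p v') then (rad p e x.1 : ℝ) * (rad p e v' : ℝ) else 0)]
        refine Finset.sum_congr rfl fun x' _ => ?_
        by_cases h' : fr p x'.1 = x'.2
        · rw [if_pos h', if_pos (⟨h, h'⟩ : fr p x.1 = x.2 ∧ fr p x'.1 = x'.2)]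
          show (if Disjoint (fr p x.1) (fr p x'.1) then
            (rad p e x.1 : ℝ) * (rad p e x'.1 : ℝ) else 0) = _
          rw [h, h']
        · rw [if_neg h', if_neg (fun hh : fr p x.1 = x.2 ∧ fr p x'.1 = x'.2 => h' hh.2), ite_self]
      · rw [if_neg h]
        symm
        refine Finset.sum_eq_zero fun x' _ => ?_
        rw [if_neg (fun hh : fr p x.1 = x.2 ∧ fr p x'.1 = x'.2 => h hh.1), ite_self]
    rw [Finset.sum_congr rfl (fun e _ => h2 e)]
    rw [Finset.sum_comm]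
    refine Finset.sum_congr rfl fun x _ => ?_
    rw [Finset.sum_comm]
    refine Finset.sum_congr rfl fun x' _ => ?_
    by_cases hd : Disjoint x.2 x'.2
    · rw [if_pos hd]
      by_cases hh : fr p x.1 = x.2 ∧ fr p x'.1 = x'.2
      · rw [if_pos hh]
        refine Finset.sum_congr rfl fun e _ => ?_
        rw [if_pos hd, if_pos hh]
      · rw [if_neg hh]
        refine Finset.sum_eq_zero fun e _ => ?_
        rw [if_pos hd, if_neg hh]
    · rw [if_neg hd]
      refine Finset.sum_eq_zero fun e _ => ?_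
      rw [if_neg hd]
  rw [Finset.sum_congr rfl h1, Finset.sum_comm, Finset.sum_mul]
  refine Finset.sum_congr rfl fun x hx => ?_
  rw [Finset.sum_comm, Finset.sum_mul]
  refine Finset.sum_congr rfl fun x' hx' => ?_
  rw [mem_secI] at hx hx'
  by_cases hd : Disjoint x.2 x'.2
  · rw [if_pos hd]
    have h3 : ∑ p ∈ Forest univ {r}, (if Disjoint x.2 x'.2 then
          (if fr p x.1 = x.2 ∧ fr p x'.1 = x'.2 then
            ∑ e : α → Bool, (rad p e x.1 : ℝ) * (rad p e x'.1 : ℝ) else 0) else 0) =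
        ∑ p ∈ (Forest univ {r}).filter (fun p => fr p x.1 = x.2 ∧ fr p x'.1 = x'.2),
          ∑ e : α → Bool, (rad p e x.1 : ℝ) * (rad p e x'.1 : ℝ) := by
      rw [Finset.sum_filter]
      refine Finset.sum_congr rfl fun p _ => ?_
      rw [if_pos hd]
    rw [h3]
    exact sec_pair n hn r x x' hx.1 hx'.1 hx.2.1 hx'.2.1 hd
  · rw [if_neg hd]
    have h3 : ∑ p ∈ Forest univ {r}, (if Disjoint x.2 x'.2 then
          (if fr p x.1 = x.2 ∧ fr p x'.1 = x'.2 then
            ∑ e : α → Bool, (rad p e x.1 : ℝ) * (rad p e x'.1 : ℝ) else 0) else 0) = 0 := by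
      refine Finset.sum_eq_zero fun p _ => ?_
      rw [if_neg hd]
    rw [h3, zero_mul]

private lemma rad_le_m0 (m0 : ℕ) (p : α → α) (e : α → Bool) (v : α)
    (h : (fr p v).card ≤ m0) : (rad p e v : ℝ) ≤ m0 := by
  have h1 := rad_le_hgt p e v
  have h2 := hgt_lt p v
  exact_mod_cast (by omega : rad p e v ≤ m0)

private lemma not_disj (p : α → α) (v v' : α) (h : ¬ Disjoint (fr p v) (fr p v')) :
    v' ∈ fr p v ∨ v ∈ fr p v' := by
  rw [Finset.not_disjoint_iff] at h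
  obtain ⟨w, hw, hw'⟩ := h
  simp only [fr, Finset.mem_filter, Finset.mem_univ, true_and] at hw hw' ⊢
  obtain ⟨i, hi⟩ := hw
  obtain ⟨j, hj⟩ := hw'
  rcases le_total i j with hij | hij
  · right
    refine ⟨j - i, ?_⟩
    rw [← hi, ← Function.iterate_add_apply, Nat.sub_add_cancel hij, hj]
  · left
    refine ⟨i - j, ?_⟩
    rw [← hj, ← Function.iterate_add_apply, Nat.sub_add_cancel hij, hi]

private lemma sec_near (n : ℕ) (hn : Fintype.card α = n) (r : α) (m0 : ℕ) (p : α → α) (e : α → Bool) :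
    (∑ v ∈ secT r m0 p, (rad p e v : ℝ)) ^ 2 ≤
      (∑ v ∈ secT r m0 p,
      ∑ v' ∈ secT r m0 p,
        if Disjoint (fr p v) (fr p v') then (rad p e v : ℝ) * (rad p e v' : ℝ) else 0) +
      2 * (m0 : ℝ) ^ 3 * n := by
  obtain ⟨A, hA⟩ : ∃ A, A = secT r m0 p := ⟨_, rfl⟩
  have hmem : ∀ v ∈ A, (fr p v).card ≤ m0 := by
    intro v hv
    rw [hA, mem_secT] at hv
    exact hv.2
  rw [← hA]
  have hcard : (A.card : ℝ) ≤ n := by
    have := Finset.card_le_univ A
    rw [hn] at this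
    exact_mod_cast this
  have hm0 : (0 : ℝ) ≤ m0 := Nat.cast_nonneg _
  have hin : ∀ v ∈ A, ∑ v' ∈ A, (if v' ∈ fr p v then (m0 : ℝ) ^ 2 else 0) ≤ (m0 : ℝ) ^ 3 := by
    intro v hv
    rw [← Finset.sum_filter, Finset.sum_const, nsmul_eq_mul]
    have h1 : ((A.filter (fun v' => v' ∈ fr p v)).card : ℝ) ≤ m0 := by
      have h2 : (A.filter (fun v' => v' ∈ fr p v)).card ≤ (fr p v).card :=
        Finset.card_le_card (fun w hw => (Finset.mem_filter.mp hw).2)
      exact_mod_cast h2.trans (hmem v hv)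
    calc ((A.filter (fun v' => v' ∈ fr p v)).card : ℝ) * (m0 : ℝ) ^ 2
        ≤ (m0 : ℝ) * (m0 : ℝ) ^ 2 := mul_le_mul_of_nonneg_right h1 (by positivity)
      _ = (m0 : ℝ) ^ 3 := by ring
  have hsum : ∑ v ∈ A, ∑ v' ∈ A, (if v' ∈ fr p v then (m0 : ℝ) ^ 2 else 0) ≤
      (m0 : ℝ) ^ 3 * n := by
    calc ∑ v ∈ A, ∑ v' ∈ A, (if v' ∈ fr p v then (m0 : ℝ) ^ 2 else 0)
        ≤ ∑ _v ∈ A, (m0 : ℝ) ^ 3 := Finset.sum_le_sum hin
      _ = (A.card : ℝ) * (m0 : ℝ) ^ 3 := by rw [Finset.sum_const, nsmul_eq_mul]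
      _ ≤ (n : ℝ) * (m0 : ℝ) ^ 3 := mul_le_mul_of_nonneg_right hcard (by positivity)
      _ = (m0 : ℝ) ^ 3 * n := mul_comm _ _
  have hsum' : ∑ v ∈ A, ∑ v' ∈ A, (if v ∈ fr p v' then (m0 : ℝ) ^ 2 else 0) ≤
      (m0 : ℝ) ^ 3 * n := by
    rw [Finset.sum_comm]
    exact hsum
  have hsq : (∑ v ∈ A, (rad p e v : ℝ)) ^ 2 =
      ∑ v ∈ A, ∑ v' ∈ A, (rad p e v : ℝ) * (rad p e v' : ℝ) := by
    rw [pow_two, Finset.sum_mul_sum]
  rw [hsq]
  have hpt : ∀ v ∈ A, ∀ v' ∈ A, (rad p e v : ℝ) * (rad p e v' : ℝ) ≤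
      (if Disjoint (fr p v) (fr p v') then (rad p e v : ℝ) * (rad p e v' : ℝ) else 0) +
      ((if v' ∈ fr p v then (m0 : ℝ) ^ 2 else 0) + (if v ∈ fr p v' then (m0 : ℝ) ^ 2 else 0)) := by
    intro v hv v' hv'
    have hsqn : (0 : ℝ) ≤ (m0 : ℝ) ^ 2 := by positivity
    by_cases hd : Disjoint (fr p v) (fr p v')
    · rw [if_pos hd]
      have h1 : (0 : ℝ) ≤ (if v' ∈ fr p v then (m0 : ℝ) ^ 2 else 0) := by split_ifs <;> positivity
      have h2 : (0 : ℝ) ≤ (if v ∈ fr p v' then (m0 : ℝ) ^ 2 else 0) := by split_ifs <;> positivity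
      linarith
    · rw [if_neg hd]
      have h3 : (rad p e v : ℝ) * (rad p e v' : ℝ) ≤ (m0 : ℝ) ^ 2 := by
        rw [pow_two]
        exact mul_le_mul (rad_le_m0 m0 p e v (hmem v hv)) (rad_le_m0 m0 p e v' (hmem v' hv'))
          (Nat.cast_nonneg _) hm0
      rcases not_disj p v v' hd with h | h
      · rw [if_pos h]
        have h2 : (0 : ℝ) ≤ (if v ∈ fr p v' then (m0 : ℝ) ^ 2 else 0) := by
          split_ifs <;> positivity
        linarith
      · rw [if_pos h]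
        have h1 : (0 : ℝ) ≤ (if v' ∈ fr p v then (m0 : ℝ) ^ 2 else 0) := by
          split_ifs <;> positivity
        linarith
  calc ∑ v ∈ A, ∑ v' ∈ A, (rad p e v : ℝ) * (rad p e v' : ℝ)
      ≤ ∑ v ∈ A, ∑ v' ∈ A,
        ((if Disjoint (fr p v) (fr p v') then (rad p e v : ℝ) * (rad p e v' : ℝ) else 0) +
        ((if v' ∈ fr p v then (m0 : ℝ) ^ 2 else 0) +
          (if v ∈ fr p v' then (m0 : ℝ) ^ 2 else 0))) :=
        Finset.sum_le_sum fun v hv => Finset.sum_le_sum fun v' hv' => hpt v hv v' hv'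
    _ = (∑ v ∈ A, ∑ v' ∈ A,
        (if Disjoint (fr p v) (fr p v') then (rad p e v : ℝ) * (rad p e v' : ℝ) else 0)) +
        ((∑ v ∈ A, ∑ v' ∈ A, (if v' ∈ fr p v then (m0 : ℝ) ^ 2 else 0)) +
          ∑ v ∈ A, ∑ v' ∈ A, (if v ∈ fr p v' then (m0 : ℝ) ^ 2 else 0)) := by
        simp only [Finset.sum_add_distrib]
    _ ≤ _ := by linarith

private lemma secW_le (n : ℕ) (hn : Fintype.card α = n) (m0 : ℕ) (x : α × Finset (α)) (hx : x.1 ∈ x.2)
    (hm : x.2.card ≤ m0) : secW x ≤ (m0 : ℝ) ^ (m0 + 1) * 2 ^ n := by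
  have hpos : 0 < x.2.card := Finset.card_pos.mpr ⟨x.1, hx⟩
  have hm0 : 1 ≤ m0 := hpos.trans_le hm
  have hF : (Forest x.2 {x.1}).card ≤ m0 ^ m0 := by
    have h := card_forest x.2 {x.1} (Finset.singleton_subset_iff.mpr hx)
    rw [Finset.card_singleton, one_mul] at h
    calc (Forest x.2 {x.1}).card ≤ (Forest x.2 {x.1}).card * x.2.card :=
          Nat.le_mul_of_pos_right _ hpos
      _ = x.2.card ^ (x.2.card - 1) := h
      _ ≤ m0 ^ (x.2.card - 1) := Nat.pow_le_pow_left hm _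
      _ ≤ m0 ^ m0 := Nat.pow_le_pow_right hm0 (by omega)
  have hF' : ((Forest x.2 {x.1}).card : ℝ) ≤ (m0 : ℝ) ^ m0 := by exact_mod_cast hF
  have h1 : ∀ q ∈ Forest x.2 {x.1}, ∑ e : α → Bool, (rad q e x.1 : ℝ) ≤ 2 ^ n * (m0 : ℝ) := by
    intro q hq
    calc ∑ e : α → Bool, (rad q e x.1 : ℝ) ≤ ∑ _e : α → Bool, (m0 : ℝ) := by
          refine Finset.sum_le_sum fun e _ => rad_le_m0 m0 q e x.1 ?_
          rw [fr_forest x.2 x.1 hx q hq]
          exact hm
      _ = 2 ^ n * (m0 : ℝ) := by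
          rw [Finset.sum_const, nsmul_eq_mul, Finset.card_univ, Fintype.card_fun,
            Fintype.card_bool, hn]
          push_cast
          rfl
  calc secW x ≤ ∑ _q ∈ Forest x.2 {x.1}, (2 ^ n * (m0 : ℝ)) := Finset.sum_le_sum h1
    _ = ((Forest x.2 {x.1}).card : ℝ) * (2 ^ n * (m0 : ℝ)) := by
        rw [Finset.sum_const, nsmul_eq_mul]
    _ ≤ (m0 : ℝ) ^ m0 * (2 ^ n * (m0 : ℝ)) := mul_le_mul_of_nonneg_right hF' (by positivity)
    _ = (m0 : ℝ) ^ (m0 + 1) * 2 ^ n := by ring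

private lemma sec_count (n : ℕ) (hn : Fintype.card α = n) (r : α) (m0 : ℕ) (h : ℕ → ℝ) (hh : ∀ m, 0 ≤ h m) :
    ∑ x ∈ secI r m0, h x.2.card ≤ ∑ m ∈ Icc 1 m0, (m0 : ℝ) * (n : ℝ) ^ m * h m := by
  have hmaps : ∀ x ∈ secI r m0, x.2.card ∈ Icc 1 m0 := by
    intro x hx
    rw [mem_secI] at hx
    rw [Finset.mem_Icc]
    exact ⟨Finset.card_pos.mpr ⟨x.1, hx.1⟩, hx.2.2⟩
  rw [← Finset.sum_fiberwise_of_maps_to hmaps]
  refine Finset.sum_le_sum fun m hm => ?_
  have h1 : ∑ x ∈ (secI r m0).filter (fun x => x.2.card = m), h x.2.card =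
      (((secI r m0).filter (fun x => x.2.card = m)).card : ℝ) * h m := by
    rw [Finset.sum_congr rfl (fun x hx => by rw [(Finset.mem_filter.mp hx).2]),
      Finset.sum_const, nsmul_eq_mul]
  rw [h1]
  refine mul_le_mul_of_nonneg_right ?_ (hh m)
  have h2 : ((secI r m0).filter (fun x => x.2.card = m)).card ≤ m0 * n ^ m := by
    have hsub : (secI r m0).filter (fun x => x.2.card = m) ⊆
        ((univ : Finset (α)).powersetCard m).biUnion
          (fun S => S.image (fun v => (v, S))) := by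
      intro x hx
      rw [Finset.mem_filter, mem_secI] at hx
      rw [Finset.mem_biUnion]
      refine ⟨x.2, ?_, ?_⟩
      · rw [Finset.mem_powersetCard]
        exact ⟨Finset.subset_univ _, hx.2⟩
      · rw [Finset.mem_image]
        exact ⟨x.1, hx.1.1, rfl⟩
    have hm' := (Finset.mem_Icc.mp hm).2
    calc ((secI r m0).filter (fun x => x.2.card = m)).card
        ≤ (((univ : Finset (α)).powersetCard m).biUnion
          (fun S => S.image (fun v => (v, S)))).card := Finset.card_le_card hsub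
      _ ≤ ((univ : Finset (α)).powersetCard m).card * m0 := by
          refine Finset.card_biUnion_le_card_mul _ _ _ fun S hS => ?_
          rw [Finset.mem_powersetCard] at hS
          exact Finset.card_image_le.trans (by rw [hS.2]; exact hm')
      _ = n.choose m * m0 := by
          rw [Finset.card_powersetCard, Finset.card_univ, hn]
      _ ≤ n ^ m * m0 := Nat.mul_le_mul_right _ (Nat.choose_le_pow n m)
      _ = m0 * n ^ m := mul_comm _ _
  exact_mod_cast h2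

private lemma secA_gen (n : ℕ) (hn : Fintype.card α = n) (r : α) (m0 : ℕ) :
    ((Forest univ {r} : Finset (α → α)).card : ℝ) * 2 ^ n *
        (∑ p ∈ Forest univ {r}, ∑ e : α → Bool,
          (∑ v ∈ secT r m0 p, (rad p e v : ℝ)) ^ 2) ≤
      (∑ p ∈ Forest univ {r}, ∑ e : α → Bool,
          ∑ v ∈ secT r m0 p, (rad p e v : ℝ)) ^ 2 +
      4 ^ n * (∑ m ∈ Icc 1 m0, ∑ m' ∈ Icc 1 m0, ((m0 : ℝ) ^ (m0 + 2)) ^ 2 * (n : ℝ) ^ (m + m') *
          |(n : ℝ) ^ (n - 2) * ((n - (m + m') : ℕ) : ℝ) ^ (n - (m + m')) -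
            ((n - m : ℕ) : ℝ) ^ (n - m - 1) * ((n - m' : ℕ) : ℝ) ^ (n - m' - 1)| +
        2 * (m0 : ℝ) ^ 3 * n * ((n : ℝ) ^ (n - 2)) ^ 2) := by
  have hF := card_F n hn r
  have h2n : (0 : ℝ) ≤ 2 ^ n := by positivity
  rw [sec_first n hn r m0]
  have hE : (4 : ℝ) ^ n = 2 ^ n * 2 ^ n := by
    rw [← mul_pow]; norm_num
  -- the pointwise bound
  have hA : (∑ p ∈ Forest univ {r}, ∑ e : α → Bool,
      (∑ v ∈ secT r m0 p, (rad p e v : ℝ)) ^ 2) ≤
      (∑ p ∈ Forest univ {r}, ∑ e : α → Bool,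
        ∑ v ∈ secT r m0 p,
        ∑ v' ∈ secT r m0 p,
        if Disjoint (fr p v) (fr p v') then (rad p e v : ℝ) * (rad p e v' : ℝ) else 0) +
      (n : ℝ) ^ (n - 2) * (2 ^ n * (2 * (m0 : ℝ) ^ 3 * n)) := by
    calc _ ≤ ∑ p ∈ Forest univ {r}, ∑ e : α → Bool,
        ((∑ v ∈ secT r m0 p,
        ∑ v' ∈ secT r m0 p,
        if Disjoint (fr p v) (fr p v') then (rad p e v : ℝ) * (rad p e v' : ℝ) else 0) +
        2 * (m0 : ℝ) ^ 3 * n) :=
          Finset.sum_le_sum fun p _ => Finset.sum_le_sum fun e _ => sec_near n hn r m0 p e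
      _ = _ := by
          simp only [Finset.sum_add_distrib]
          rw [Finset.sum_const, Finset.sum_const, nsmul_eq_mul, nsmul_eq_mul, hF,
            Finset.card_univ, Fintype.card_fun, Fintype.card_bool, hn]
          push_cast
          rfl
  obtain ⟨D, hD⟩ : ∃ D, D = ∑ p ∈ Forest univ {r}, ∑ e : α → Bool,
        ∑ v ∈ secT r m0 p,
        ∑ v' ∈ secT r m0 p,
        (if Disjoint (fr p v) (fr p v') then (rad p e v : ℝ) * (rad p e v' : ℝ) else 0) :=
    ⟨_, rfl⟩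
  rw [← hD] at hA
  have hB : D * 2 ^ n = ∑ x ∈ secI r m0, ∑ x' ∈ secI r m0, (if Disjoint x.2 x'.2 then
      ((n - (x.2.card + x'.2.card) : ℕ) : ℝ) ^ (n - (x.2.card + x'.2.card)) *
        (secW x * secW x') else 0) := by
    rw [hD]
    exact sec_disj n hn r m0
  obtain ⟨G, hG⟩ : ∃ G : ℕ → ℕ → ℝ, G = fun m m' =>
      |(n : ℝ) ^ (n - 2) * ((n - (m + m') : ℕ) : ℝ) ^ (n - (m + m')) -
            ((n - m : ℕ) : ℝ) ^ (n - m - 1) * ((n - m' : ℕ) : ℝ) ^ (n - m' - 1)| := ⟨_, rfl⟩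
  have hGn : ∀ m m', 0 ≤ G m m' := by
    intro m m'
    rw [hG]
    exact abs_nonneg _
  obtain ⟨K, hK⟩ : ∃ K : ℝ, K = (m0 : ℝ) ^ (m0 + 1) * 2 ^ n := ⟨_, rfl⟩
  have hK0 : 0 ≤ K := by rw [hK]; positivity
  -- the comparison of the exact sums
  have hC : (n : ℝ) ^ (n - 2) * (D * 2 ^ n) ≤
      (∑ x ∈ secI r m0, ((n - x.2.card : ℕ) : ℝ) ^ (n - x.2.card - 1) * secW x) ^ 2 +
      ∑ x ∈ secI r m0, ∑ x' ∈ secI r m0, K ^ 2 * G x.2.card x'.2.card := by
    rw [hB, pow_two, Finset.sum_mul_sum, Finset.mul_sum, ← Finset.sum_add_distrib]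
    refine Finset.sum_le_sum fun x hx => ?_
    rw [Finset.mul_sum, ← Finset.sum_add_distrib]
    refine Finset.sum_le_sum fun x' hx' => ?_
    rw [mem_secI] at hx hx'
    have hW := secW_nonneg x
    have hW' := secW_nonneg x'
    have hWK : secW x ≤ K := by rw [hK]; exact secW_le n hn m0 x hx.1 hx.2.2
    have hWK' : secW x' ≤ K := by rw [hK]; exact secW_le n hn m0 x' hx'.1 hx'.2.2
    have hp1 : (0 : ℝ) ≤ ((n - x.2.card : ℕ) : ℝ) ^ (n - x.2.card - 1) := by positivity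
    have hp2 : (0 : ℝ) ≤ ((n - x'.2.card : ℕ) : ℝ) ^ (n - x'.2.card - 1) := by positivity
    have hg := hGn x.2.card x'.2.card
    by_cases hd : Disjoint x.2 x'.2
    · rw [if_pos hd]
      have h1 : (n : ℝ) ^ (n - 2) * ((n - (x.2.card + x'.2.card) : ℕ) : ℝ) ^
          (n - (x.2.card + x'.2.card)) - ((n - x.2.card : ℕ) : ℝ) ^ (n - x.2.card - 1) *
          ((n - x'.2.card : ℕ) : ℝ) ^ (n - x'.2.card - 1) ≤ G x.2.card x'.2.card := by
        rw [hG]
        exact le_abs_self _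
      have h2 : secW x * secW x' ≤ K ^ 2 := by
        rw [pow_two]
        exact mul_le_mul hWK hWK' hW' hK0
      have h3 : secW x * secW x' * G x.2.card x'.2.card ≤ K ^ 2 * G x.2.card x'.2.card :=
        mul_le_mul_of_nonneg_right h2 hg
      have h4 := mul_le_mul_of_nonneg_left h1 (mul_nonneg hW hW')
      nlinarith [h3, h4]
    · rw [if_neg hd, mul_zero]
      have h5 : 0 ≤ ((n - x.2.card : ℕ) : ℝ) ^ (n - x.2.card - 1) * secW x *
          (((n - x'.2.card : ℕ) : ℝ) ^ (n - x'.2.card - 1) * secW x') :=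
        mul_nonneg (mul_nonneg hp1 hW) (mul_nonneg hp2 hW')
      have h6 : 0 ≤ K ^ 2 * G x.2.card x'.2.card := by positivity
      linarith
  -- counting the pairs
  have hCnt : ∑ x ∈ secI r m0, ∑ x' ∈ secI r m0, K ^ 2 * G x.2.card x'.2.card ≤
      4 ^ n * ∑ m ∈ Icc 1 m0, ∑ m' ∈ Icc 1 m0, ((m0 : ℝ) ^ (m0 + 2)) ^ 2 *
        (n : ℝ) ^ (m + m') * G m m' := by
    calc ∑ x ∈ secI r m0, ∑ x' ∈ secI r m0, K ^ 2 * G x.2.card x'.2.card
        ≤ ∑ x ∈ secI r m0, ∑ m' ∈ Icc 1 m0, (m0 : ℝ) * (n : ℝ) ^ m' *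
            (K ^ 2 * G x.2.card m') := by
          refine Finset.sum_le_sum fun x _ => ?_
          exact sec_count n hn r m0 (fun m' => K ^ 2 * G x.2.card m')
            (fun m' => mul_nonneg (by positivity) (hGn _ _))
      _ ≤ ∑ m ∈ Icc 1 m0, (m0 : ℝ) * (n : ℝ) ^ m * ∑ m' ∈ Icc 1 m0, (m0 : ℝ) * (n : ℝ) ^ m' *
            (K ^ 2 * G m m') :=
          sec_count n hn r m0 (fun m => ∑ m' ∈ Icc 1 m0, (m0 : ℝ) * (n : ℝ) ^ m' *
            (K ^ 2 * G m m')) (fun m => Finset.sum_nonneg fun m' _ =>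
              mul_nonneg (by positivity) (mul_nonneg (by positivity) (hGn _ _)))
      _ = _ := by
          rw [Finset.mul_sum]
          refine Finset.sum_congr rfl fun m _ => ?_
          rw [Finset.mul_sum, Finset.mul_sum]
          refine Finset.sum_congr rfl fun m' _ => ?_
          rw [hK, hE]
          ring
  have hfin : ∑ m ∈ Icc 1 m0, ∑ m' ∈ Icc 1 m0, ((m0 : ℝ) ^ (m0 + 2)) ^ 2 * (n : ℝ) ^ (m + m') *
          |(n : ℝ) ^ (n - 2) * ((n - (m + m') : ℕ) : ℝ) ^ (n - (m + m')) -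
            ((n - m : ℕ) : ℝ) ^ (n - m - 1) * ((n - m' : ℕ) : ℝ) ^ (n - m' - 1)| =
      ∑ m ∈ Icc 1 m0, ∑ m' ∈ Icc 1 m0, ((m0 : ℝ) ^ (m0 + 2)) ^ 2 *
        (n : ℝ) ^ (m + m') * G m m' := by
    rw [hG]
  rw [hfin, hF]
  have hn2 : (0 : ℝ) ≤ (n : ℝ) ^ (n - 2) := by positivity
  have hL := mul_le_mul_of_nonneg_left hA (mul_nonneg hn2 h2n)
  refine hL.trans ?_
  have e1 : (n : ℝ) ^ (n - 2) * 2 ^ n * (D + (n : ℝ) ^ (n - 2) * (2 ^ n * (2 * (m0 : ℝ) ^ 3 * n))) =
      (n : ℝ) ^ (n - 2) * (D * 2 ^ n) + 4 ^ n * (2 * (m0 : ℝ) ^ 3 * n * ((n : ℝ) ^ (n - 2)) ^ 2) := by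
    rw [hE]; ring
  rw [e1, mul_add]
  linarith

theorem secA (n : ℕ) (r : Fin n) (m0 : ℕ) :
    ((Forest univ {r} : Finset (Fin n → Fin n)).card : ℝ) * 2 ^ n *
        (∑ p ∈ Forest univ {r}, ∑ e : Fin n → Bool,
          (∑ v ∈ (univ.erase r).filter (fun v => (fr p v).card ≤ m0), (rad p e v : ℝ)) ^ 2) ≤
      (∑ p ∈ Forest univ {r}, ∑ e : Fin n → Bool,
          ∑ v ∈ (univ.erase r).filter (fun v => (fr p v).card ≤ m0), (rad p e v : ℝ)) ^ 2 +
      4 ^ n * (∑ m ∈ Icc 1 m0, ∑ m' ∈ Icc 1 m0, ((m0 : ℝ) ^ (m0 + 2)) ^ 2 * (n : ℝ) ^ (m + m') *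
          |(n : ℝ) ^ (n - 2) * ((n - (m + m') : ℕ) : ℝ) ^ (n - (m + m')) -
            ((n - m : ℕ) : ℝ) ^ (n - m - 1) * ((n - m' : ℕ) : ℝ) ^ (n - m' - 1)| +
        2 * (m0 : ℝ) ^ 3 * n * ((n : ℝ) ^ (n - 2)) ^ 2) := by
  have hT : ∀ p : Fin n → Fin n, (univ.erase r).filter (fun v => (fr p v).card ≤ m0) =
      secT r m0 p := by
    intro p
    ext v
    rw [mem_secT]
    simp only [Finset.mem_filter, Finset.mem_erase, Finset.mem_univ, and_true]
  simp only [hT]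
  have h := secA_gen n (Fintype.card_fin n) r m0
  have hI : ∀ i1 i2 : Fintype (Fin n → Bool), i1 = i2 := fun i1 i2 => Subsingleton.elim i1 i2
  rw [hI (@Pi.instFintype (Fin n) (fun _ => Bool) (fun a b => Classical.propDecidable (a = b))
    (Fin.fintype n) (fun _ => inferInstance)) inferInstance] at h
  exact h

end Pool.AAT
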