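import Pool.Agent.AAT.Defs
import Pool.Agent.AAT.First
import Pool.Agent.AAT.SecB

/-!
# AAT-Conc: the radius sum is at most `C n` for almost all trees

PLAN. `C1` from `first`; take `C = C1 + 2`. `K = (Forest univ {r}).card * 2^n > 0` for `n ≥ 1` (or `0`,
then trivial). Given `ε`, choose `m0` with `C1 (m0+1)^(-1/8) ≤ ε/2`. MARKOV: the number of `(p, e)` for
which the sum over `(fr p v).card ≥ m0 + 1` exceeds `n` is `≤ (C1 n (m0+1)^(-1/8) K) / n ≤ ε K / 2`.
CHEBYSHEV: `Y` = the sum over `(fr p v).card ≤ m0`, `μ = (Σ Σ Y)/K ≤ C1 n` (`first` with `m0 = 1`);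
`Σ Σ (Y - μ)^2 = Σ Σ Y^2 - (Σ Σ Y)^2/K ≤ (ε/2) n^2 K` by `secB` (with `ε/2`), so the number of `(p,e)`
with `Y > (C1 + 1) n` is `≤ (ε/2) K`.
-/

set_option autoImplicit false

namespace Pool.AAT

open Finset
open scoped Classical

private theorem conc_aux {ι : Type} (Ω : Finset ι) (X Y : ι → ℝ) (hX : ∀ x ∈ Ω, 0 ≤ X x)
    {K n C1 ε : ℝ} (hK : K = Ω.card) (hn : 0 < n)
    (h1 : ∑ x ∈ Ω, X x ≤ ε / 2 * n * K) (h2 : ∑ x ∈ Ω, Y x ≤ C1 * n * K)
    (h3 : K * ∑ x ∈ Ω, Y x ^ 2 ≤ (∑ x ∈ Ω, Y x) ^ 2 + ε / 2 * n ^ 2 * K ^ 2) :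
    ((Ω.filter (fun x => (C1 + 2) * n < X x + Y x)).card : ℝ) ≤ ε * K := by
  rcases Ω.eq_empty_or_nonempty with h0 | h0
  · subst h0
    rw [hK]
    simp
  have hKpos : 0 < K := by
    rw [hK]
    exact_mod_cast card_pos.2 h0
  -- Markov
  have hM : ((Ω.filter (fun x => n < X x)).card : ℝ) ≤ ε / 2 * K := by
    have e1 : ((Ω.filter (fun x => n < X x)).card : ℝ) * n ≤ ∑ x ∈ Ω, X x := by
      calc ((Ω.filter (fun x => n < X x)).card : ℝ) * n = ∑ x ∈ Ω.filter (fun x => n < X x), n := by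
            rw [sum_const, nsmul_eq_mul]
        _ ≤ ∑ x ∈ Ω.filter (fun x => n < X x), X x :=
            sum_le_sum fun x hx => (mem_filter.1 hx).2.le
        _ ≤ ∑ x ∈ Ω, X x :=
            sum_le_sum_of_subset_of_nonneg (filter_subset _ _) fun x hx _ => hX x hx
    have e2 : ((Ω.filter (fun x => n < X x)).card : ℝ) * n ≤ (ε / 2 * K) * n := by linarith
    exact le_of_mul_le_mul_right e2 hn
  -- Chebyshev
  have hC : ((Ω.filter (fun x => (C1 + 1) * n < Y x)).card : ℝ) ≤ ε / 2 * K := by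
    set S1 := ∑ x ∈ Ω, Y x with hS1
    have e0 : ∑ x ∈ Ω, (K * Y x - S1) ^ 2 = K * (K * ∑ x ∈ Ω, Y x ^ 2 - S1 ^ 2) := by
      have e1 : ∀ x ∈ Ω, (K * Y x - S1) ^ 2 = K ^ 2 * Y x ^ 2 - 2 * K * S1 * Y x + S1 ^ 2 := by
        intro x _
        ring
      rw [sum_congr rfl e1, sum_add_distrib, sum_sub_distrib, ← mul_sum, ← mul_sum, sum_const,
        nsmul_eq_mul, ← hK, ← hS1]
      ring
    have e1 : ((Ω.filter (fun x => (C1 + 1) * n < Y x)).card : ℝ) * (K * n) ^ 2 ≤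
        ∑ x ∈ Ω, (K * Y x - S1) ^ 2 := by
      calc ((Ω.filter (fun x => (C1 + 1) * n < Y x)).card : ℝ) * (K * n) ^ 2 =
            ∑ x ∈ Ω.filter (fun x => (C1 + 1) * n < Y x), (K * n) ^ 2 := by
            rw [sum_const, nsmul_eq_mul]
        _ ≤ ∑ x ∈ Ω.filter (fun x => (C1 + 1) * n < Y x), (K * Y x - S1) ^ 2 := by
            apply sum_le_sum
            intro x hx
            have hx2 := (mem_filter.1 hx).2
            have e3 : K * n ≤ K * Y x - S1 := by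
              have e4 : K * ((C1 + 1) * n) ≤ K * Y x := mul_le_mul_of_nonneg_left hx2.le hKpos.le
              nlinarith
            exact pow_le_pow_left₀ (mul_pos hKpos hn).le e3 2
        _ ≤ ∑ x ∈ Ω, (K * Y x - S1) ^ 2 :=
            sum_le_sum_of_subset_of_nonneg (filter_subset _ _) fun x _ _ => sq_nonneg _
    have e2 : K * (K * ∑ x ∈ Ω, Y x ^ 2 - S1 ^ 2) ≤ K * (ε / 2 * n ^ 2 * K ^ 2) :=
      mul_le_mul_of_nonneg_left (by linarith) hKpos.le
    have e3 : ((Ω.filter (fun x => (C1 + 1) * n < Y x)).card : ℝ) * (K * n) ^ 2 ≤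
        (ε / 2 * K) * (K * n) ^ 2 := by
      rw [e0] at e1
      have e4 : K * (ε / 2 * n ^ 2 * K ^ 2) = (ε / 2 * K) * (K * n) ^ 2 := by ring
      linarith
    exact le_of_mul_le_mul_right e3 (pow_pos (mul_pos hKpos hn) 2)
  have hU : (Ω.filter (fun x => (C1 + 2) * n < X x + Y x)).card ≤
      (Ω.filter (fun x => n < X x)).card + (Ω.filter (fun x => (C1 + 1) * n < Y x)).card := by
    refine le_trans (card_le_card ?_) (card_union_le _ _)
    intro x hx
    obtain ⟨h4, h5⟩ := mem_filter.1 hx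
    rw [mem_union, mem_filter, mem_filter]
    by_cases h6 : n < X x
    · exact Or.inl ⟨h4, h6⟩
    · refine Or.inr ⟨h4, ?_⟩
      have h7 := not_lt.1 h6
      nlinarith
  have hU' : ((Ω.filter (fun x => (C1 + 2) * n < X x + Y x)).card : ℝ) ≤
      ((Ω.filter (fun x => n < X x)).card : ℝ) + ((Ω.filter (fun x => (C1 + 1) * n < Y x)).card : ℝ) := by
    exact_mod_cast hU
  linarith

private theorem conc_m0 {C ε : ℝ} (hC : 0 < C) (hε : 0 < ε) :
    ∃ m0 : ℕ, C * ((m0 + 1 : ℕ) : ℝ) ^ (-((1 : ℝ) / 8)) ≤ ε := by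
  have h1 : Filter.Tendsto (fun m : ℕ => C * ((m : ℕ) : ℝ) ^ (-((1 : ℝ) / 8))) Filter.atTop
      (nhds (C * 0)) :=
    ((tendsto_rpow_neg_atTop (by norm_num : (0 : ℝ) < 1 / 8)).comp tendsto_natCast_atTop_atTop).const_mul C
  rw [mul_zero] at h1
  obtain ⟨N, hN⟩ := Filter.eventually_atTop.1 (h1.eventually_lt_const hε)
  exact ⟨N, (hN (N + 1) (Nat.le_succ N)).le⟩

theorem conc : ∃ C : ℝ, 0 < C ∧ ∀ ε : ℝ, 0 < ε → ∃ n0 : ℕ, ∀ n : ℕ, n0 ≤ n → ∀ r : Fin n,
    ((((Forest univ {r} : Finset (Fin n → Fin n)) ×ˢ (univ : Finset (Fin n → Bool))).filter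
        (fun x => C * n < ∑ v ∈ univ.erase r, (rad x.1 x.2 v : ℝ))).card : ℝ) ≤
      ε * (((Forest univ {r} : Finset (Fin n → Fin n)).card : ℝ) * 2 ^ n) := by
  obtain ⟨C1, hC1, hfirst⟩ := first
  refine ⟨C1 + 2, by linarith, ?_⟩
  intro ε hε
  obtain ⟨m0, hm0⟩ := conc_m0 hC1 (half_pos hε)
  obtain ⟨n0, hn0⟩ := secB m0 (ε / 2) (half_pos hε)
  refine ⟨max n0 2, ?_⟩
  intro n hn r
  have hn2 : 2 ≤ n := le_trans (le_max_right _ _) hn
  have hnpos : (0 : ℝ) < n := by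
    have : 0 < n := by omega
    exact_mod_cast this
  set F : ℝ := ((Forest univ {r} : Finset (Fin n → Fin n)).card : ℝ) with hF
  have hF0 : 0 ≤ F := Nat.cast_nonneg _
  have hK : F * 2 ^ n =
      (((Forest univ {r} : Finset (Fin n → Fin n)) ×ˢ (univ : Finset (Fin n → Bool))).card : ℝ) := by
    rw [card_product, Nat.cast_mul, card_univ, Fintype.card_fun, Fintype.card_bool, Fintype.card_fin]
    push_cast
    rfl
  have hK0 : 0 ≤ F * 2 ^ n := by positivity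
  have hA := hfirst n hn2 r (m0 + 1) (by omega)
  have hB := hfirst n hn2 r 1 le_rfl
  have hD := hn0 n (le_trans (le_max_left _ _) hn) r
  have hsplit : ∀ x : (Fin n → Fin n) × (Fin n → Bool), ∑ v ∈ univ.erase r, (rad x.1 x.2 v : ℝ) =
      (∑ v ∈ (univ.erase r).filter (fun v => m0 + 1 ≤ (fr x.1 v).card), (rad x.1 x.2 v : ℝ)) +
      ∑ v ∈ (univ.erase r).filter (fun v => (fr x.1 v).card ≤ m0), (rad x.1 x.2 v : ℝ) := by
    intro x
    rw [← sum_filter_add_sum_filter_not (univ.erase r) (fun v => m0 + 1 ≤ (fr x.1 v).card)]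
    congr 1
    apply sum_congr _ fun _ _ => rfl
    apply filter_congr
    intro v _
    omega
  have key := conc_aux ((Forest univ {r} : Finset (Fin n → Fin n)) ×ˢ (univ : Finset (Fin n → Bool)))
    (fun x => ∑ v ∈ (univ.erase r).filter (fun v => m0 + 1 ≤ (fr x.1 v).card), (rad x.1 x.2 v : ℝ))
    (fun x => ∑ v ∈ (univ.erase r).filter (fun v => (fr x.1 v).card ≤ m0), (rad x.1 x.2 v : ℝ))
    (fun x _ => sum_nonneg fun v _ => Nat.cast_nonneg _) (C1 := C1) (ε := ε) hK hnpos ?_ ?_ ?_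
  · have e1 : (fun x : (Fin n → Fin n) × (Fin n → Bool) =>
        (C1 + 2) * (n : ℝ) < ∑ v ∈ univ.erase r, (rad x.1 x.2 v : ℝ)) =
        fun x => (C1 + 2) * (n : ℝ) <
      (∑ v ∈ (univ.erase r).filter (fun v => m0 + 1 ≤ (fr x.1 v).card), (rad x.1 x.2 v : ℝ)) +
      ∑ v ∈ (univ.erase r).filter (fun v => (fr x.1 v).card ≤ m0), (rad x.1 x.2 v : ℝ) := by
      funext x
      rw [hsplit x]
    simp only [e1]
    exact key
  · rw [sum_product]
    refine le_trans hA ?_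
    have e2 : C1 * ((m0 + 1 : ℕ) : ℝ) ^ (-((1 : ℝ) / 8)) * (n * (F * 2 ^ n)) ≤
        ε / 2 * (n * (F * 2 ^ n)) := mul_le_mul_of_nonneg_right hm0 (by positivity)
    linarith
  · rw [sum_product]
    have e3 : ∑ p ∈ Forest univ {r}, ∑ e : Fin n → Bool,
          ∑ v ∈ (univ.erase r).filter (fun v => (fr p v).card ≤ m0), (rad p e v : ℝ) ≤
        ∑ p ∈ Forest univ {r}, ∑ e : Fin n → Bool,
          ∑ v ∈ (univ.erase r).filter (fun v => 1 ≤ (fr p v).card), (rad p e v : ℝ) := by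
      refine sum_le_sum fun p _ => sum_le_sum fun e _ => ?_
      apply sum_le_sum_of_subset_of_nonneg
      · intro v hv
        obtain ⟨h4, _⟩ := mem_filter.1 hv
        refine mem_filter.2 ⟨h4, ?_⟩
        apply card_pos.2
        refine ⟨v, ?_⟩
        unfold fr
        rw [mem_filter]
        exact ⟨mem_univ _, 0, rfl⟩
      · intro v _ _
        exact Nat.cast_nonneg _
    refine le_trans e3 (le_trans hB (le_of_eq ?_))
    rw [Nat.cast_one, Real.one_rpow]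
    ring
  · rw [sum_product, sum_product]
    linarith

end Pool.AAT
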