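import Pool.Agent.Helper1.Layered.Core

/-!
# AAT-Elim: elimination of a system of arcs down to a stuck subsystem
-/

set_option autoImplicit false

namespace Pool.AAT

open Finset
open scoped Classical

variable {V : Type} [Fintype V]

theorem elim_max (k r : ℕ) (B : Finset (ℕ × V × V)) :
    ∃ S : Finset (ℕ × V × V), S ⊆ B ∧ Pool.Helper1.Layered.Stuck k r S ∧
      ∃ (O I : ℕ → V → Finset V) (ρ : ℕ → V → Bool),
        (∀ i v, (O i v).card ≤ k - 1) ∧ (∀ i v, (I i v).card ≤ k - 1) ∧
        ∀ i u v, (i, u, v) ∈ B → (i, u, v) ∉ S → v ∈ O i u ∨ u ∈ I i v ∨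
          (i + 1 < r ∧ (¬ ∃ w, (i + 1, v, w) ∈ S) ∧ ρ (i + 1) v = true) ∨
          (1 ≤ i ∧ i < r ∧ (¬ ∃ w, (i - 1, w, u) ∈ S) ∧ ρ i u = false) := by
  induction B using Finset.strongInduction with
  | H B ih =>
    by_cases hst : Pool.Helper1.Layered.Stuck k r B
    · exact ⟨B, Subset.refl B, hst, fun _ _ => ∅, fun _ _ => ∅, fun _ _ => true, by simp,
        by simp, fun i u v h h' => absurd h h'⟩
    -- the induction hypothesis for a smaller system
    have hstep : ∀ P : ℕ × V × V → Prop, (∃ x ∈ B, P x) →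
        ∃ S : Finset (ℕ × V × V), S ⊆ B ∧ (∀ x ∈ S, ¬ P x) ∧
          Pool.Helper1.Layered.Stuck k r S ∧
        ∃ (O I : ℕ → V → Finset V) (ρ : ℕ → V → Bool),
        (∀ i v, (O i v).card ≤ k - 1) ∧ (∀ i v, (I i v).card ≤ k - 1) ∧
        ∀ i u v, (i, u, v) ∈ B → ¬ P (i, u, v) → (i, u, v) ∉ S → v ∈ O i u ∨ u ∈ I i v ∨
          (i + 1 < r ∧ (¬ ∃ w, (i + 1, v, w) ∈ S) ∧ ρ (i + 1) v = true) ∨
          (1 ≤ i ∧ i < r ∧ (¬ ∃ w, (i - 1, w, u) ∈ S) ∧ ρ i u = false) := by
      intro P hP
      obtain ⟨x, hx, hPx⟩ := hP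
      have hss : B.filter (fun y => ¬ P y) ⊂ B := by
        rw [Finset.filter_ssubset]
        exact ⟨x, hx, fun h => h hPx⟩
      obtain ⟨S, hSB, hS, O, I, ρ, h1, h2, h3⟩ := ih _ hss
      exact ⟨S, hSB.trans (filter_subset _ _), fun x hx => (mem_filter.1 (hSB hx)).2, hS,
        O, I, ρ, h1, h2, fun i u v h h' h'' => h3 i u v (mem_filter.2 ⟨h, h'⟩) h''⟩
    by_cases ha : ∀ i u, (∃ v, (i, u, v) ∈ B) → k ≤ (univ.filter (fun v => (i, u, v) ∈ B)).card
    swap
    · -- peel the out-arcs
      push Not at ha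
      obtain ⟨j, w, ⟨z, hz⟩, hlt⟩ := ha
      obtain ⟨S, hSB, hSP, hS, O, I, ρ, h1, h2, h3⟩ := hstep (fun x => x.1 = j ∧ x.2.1 = w)
        ⟨(j, w, z), hz, rfl, rfl⟩
      refine ⟨S, hSB, hS,
        fun i u => if i = j ∧ u = w then univ.filter (fun v => (j, w, v) ∈ B) else O i u,
        I, ρ, ?_, h2, ?_⟩
      · intro i v
        by_cases hc : i = j ∧ v = w
        · simp only [if_pos hc]; omega
        · simp only [if_neg hc]; exact h1 i v
      · intro i u v h hnS
        by_cases hc : i = j ∧ u = w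
        · left
          simp only [if_pos hc, mem_filter, mem_univ, true_and]
          rw [← hc.1, ← hc.2]; exact h
        · simp only [if_neg hc]
          exact h3 i u v h hc hnS
    by_cases hb : ∀ i v, (∃ u, (i, u, v) ∈ B) → k ≤ (univ.filter (fun u => (i, u, v) ∈ B)).card
    swap
    · -- peel the in-arcs
      push Not at hb
      obtain ⟨j, w, ⟨z, hz⟩, hlt⟩ := hb
      obtain ⟨S, hSB, hSP, hS, O, I, ρ, h1, h2, h3⟩ := hstep (fun x => x.1 = j ∧ x.2.2 = w)
        ⟨(j, z, w), hz, rfl, rfl⟩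
      refine ⟨S, hSB, hS, O,
        fun i u => if i = j ∧ u = w then univ.filter (fun v => (j, v, w) ∈ B) else I i u,
        ρ, h1, ?_, ?_⟩
      · intro i v
        by_cases hc : i = j ∧ v = w
        · simp only [if_pos hc]; omega
        · simp only [if_neg hc]; exact h2 i v
      · intro i u v h hnS
        by_cases hc : i = j ∧ v = w
        · right; left
          simp only [if_pos hc, mem_filter, mem_univ, true_and]
          rw [← hc.1, ← hc.2]; exact h
        · simp only [if_neg hc]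
          exact h3 i u v h hc hnS
    -- the third condition fails
    have hc : ¬ ∀ i v, i + 1 < r → ((∃ u, (i, u, v) ∈ B) ↔ ∃ w, (i + 1, v, w) ∈ B) :=
      fun h => hst ⟨ha, hb, h⟩
    push Not at hc
    obtain ⟨j, w, hj, hcase⟩ := hc
    rcases hcase with ⟨⟨z, hz⟩, hno⟩ | ⟨hno, ⟨z, hz⟩⟩
    · -- in-arcs at level j but no out-arcs at level j + 1
      obtain ⟨S, hSB, hSP, hS, O, I, ρ, h1, h2, h3⟩ := hstep (fun x => x.1 = j ∧ x.2.2 = w)
        ⟨(j, z, w), hz, rfl, rfl⟩
      refine ⟨S, hSB, hS, O, I, fun i u => if i = j + 1 ∧ u = w then true else ρ i u,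
        h1, h2, ?_⟩
      intro i u v h hnS
      by_cases hc : i = j ∧ v = w
      · right; right; left
        refine ⟨by rw [hc.1]; exact hj, ?_, ?_⟩
        · rintro ⟨w', hw'⟩
          rw [hc.1, hc.2] at hw'
          exact hno w' (hSB hw')
        · simp only [hc.1, hc.2, and_self, if_true]
      · rcases h3 i u v h hc hnS with h4 | h4 | h4 | h4
        · exact Or.inl h4
        · exact Or.inr (Or.inl h4)
        · right; right; left
          refine ⟨h4.1, h4.2.1, ?_⟩
          have : ¬ (i + 1 = j + 1 ∧ v = w) := fun h5 => hc ⟨by omega, h5.2⟩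
          simp only [if_neg this]; exact h4.2.2
        · right; right; right
          refine ⟨h4.1, h4.2.1, h4.2.2.1, ?_⟩
          have : ¬ (i = j + 1 ∧ u = w) := by
            rintro ⟨rfl, rfl⟩
            exact hno v h
          simp only [if_neg this]; exact h4.2.2.2
    · -- out-arcs at level j + 1 but no in-arcs at level j
      obtain ⟨S, hSB, hSP, hS, O, I, ρ, h1, h2, h3⟩ := hstep (fun x => x.1 = j + 1 ∧ x.2.1 = w)
        ⟨(j + 1, w, z), hz, rfl, rfl⟩
      refine ⟨S, hSB, hS, O, I, fun i u => if i = j + 1 ∧ u = w then false else ρ i u,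
        h1, h2, ?_⟩
      intro i u v h hnS
      by_cases hc : i = j + 1 ∧ u = w
      · right; right; right
        refine ⟨by omega, by omega, ?_, ?_⟩
        · rintro ⟨w', hw'⟩
          rw [hc.1, hc.2, Nat.add_sub_cancel] at hw'
          exact hno w' (hSB hw')
        · simp only [if_pos hc]
      · rcases h3 i u v h hc hnS with h4 | h4 | h4 | h4
        · exact Or.inl h4
        · exact Or.inr (Or.inl h4)
        · right; right; left
          refine ⟨h4.1, h4.2.1, ?_⟩
          have : ¬ (i + 1 = j + 1 ∧ v = w) := by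
            rintro ⟨h5, rfl⟩
            have h6 : i = j := by omega
            rw [h6] at h
            exact hno u h
          simp only [if_neg this]; exact h4.2.2
        · right; right; right
          refine ⟨h4.1, h4.2.1, h4.2.2.1, ?_⟩
          simp only [if_neg hc]; exact h4.2.2.2

end Pool.AAT
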