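import Pool.Agent.AAT.RTD
import Pool.Agent.AAT.ChD
import Pool.Agent.AAT.TreeA

/-!
# AAT-RtG: from staged parent functions to chains of subtrees

PLAN. `G = fromRel (treeOf r p e).Adj` has exactly the edges `{x, p x}`, `x ≠ r`
(`fromRel_treeOf`; `p x ≠ x`). `X s = {i | st i ≤ s}`: `X 0 = {r}`, `X m = univ`, increasing. Every
`X s` is closed under parents (`stm`) and each vertex reaches `r` by iterating `p` inside `X s`
(`hp`), so the induced graph is connected. `(X s).ncard = cnt st s`, `w s = cost (cnt st s - 1) …`
(`= (a+b)(4 cnt - 7)` or `4 cnt - 6`, as `cnt ≥ 1`). LEAF STAGE: `u ∈ X s \ X (s-1)`, `st u = s`,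
`st (p u) < s`, adjacent. GENERAL STAGE: let `u ∈ X s`, `x` a nearest vertex of `A = X (s-1)`. If
`u ∈ A` then `x = u`. Otherwise `st u = s` and `x = g u`: `g u` is the first ancestor of `u` of stage
`< s` (induction with `g1`, `g2`), i.e. the first one in `A`; let `B` be the set of vertices outside
`A` whose first ancestor in `A` is `g u`; every edge with exactly one end in `B` has the other end
`g u` (because `A` is closed under parents), so every walk from `u` to a vertex `y` of `A` passes
through `g u`; hence `dist u y > dist u (g u)` for `y ∈ A`, `y ≠ g u`. Now `range` for `u` gives the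
bounds. Heights: `h` of `RT`; `(treeOf r p e).Adj x y → h y = h x + 1` by `cov`.
-/

set_option autoImplicit false

namespace Pool.AAT

open Finset
open scoped Classical

private theorem root_gen {α : Type} [Fintype α] (V R : Finset α) (p : α → α)
    (hp : p ∈ Forest V R) : ∀ x, x ∉ V \ R → p x = x := by
  unfold Forest at hp
  rw [Finset.mem_filter] at hp
  exact hp.2.1

private theorem root_of {n : ℕ} {r : Fin n} {p : Fin n → Fin n} (hp : p ∈ Forest univ {r}) :
    p r = r := root_gen _ _ p hp r (by simp)

private theorem first_anc {n : ℕ} (p : Fin n → Fin n) (A : Set (Fin n))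
    (hex : ∀ v, ∃ k : ℕ, p^[k] v ∈ A) :
    ∃ F : Fin n → Fin n, (∀ v ∈ A, F v = v) ∧ ∀ v, v ∉ A → F v = F (p v) := by
  refine ⟨fun v => p^[Nat.find (hex v)] v, ?_, ?_⟩
  · intro v hv
    have : Nat.find (hex v) = 0 := by
      rw [Nat.find_eq_zero]
      exact hv
    show p^[Nat.find (hex v)] v = v
    rw [this]
    rfl
  · intro v hv
    show p^[Nat.find (hex v)] v = p^[Nat.find (hex (p v))] (p v)
    have hex3 : ∃ k : ℕ, p^[k + 1] v ∈ A := by
      obtain ⟨k, hk⟩ := hex (p v)
      exact ⟨k, by rw [Function.iterate_succ_apply]; exact hk⟩
    have h1 : Nat.find (hex v) = Nat.find hex3 + 1 := Nat.find_comp_succ (hex v) hex3 hv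
    have h2 : Nat.find hex3 = Nat.find (hex (p v)) := by
      apply le_antisymm
      · apply Nat.find_min'
        rw [Function.iterate_succ_apply]
        exact Nat.find_spec (hex (p v))
      · apply Nat.find_min'
        rw [← Function.iterate_succ_apply]
        exact Nat.find_spec hex3
    rw [h1, h2, Function.iterate_succ_apply]

private theorem walk_thru {n : ℕ} (G : SimpleGraph (Fin n)) (p F : Fin n → Fin n)
    (A : Set (Fin n)) (hA : ∀ v ∈ A, p v ∈ A) (hG : ∀ v v', G.Adj v v' → p v = v' ∨ p v' = v)
    (F1 : ∀ v ∈ A, F v = v) (F2 : ∀ v, v ∉ A → F v = F (p v)) :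
    ∀ (v y : Fin n) (w : G.Walk v y), y ∈ A → F v ∈ w.support := by
  intro v y w
  induction w with
  | nil => intro hy; rw [F1 _ hy]; simp
  | cons hadj w' ih =>
    rename_i v v' y
    intro hy
    by_cases hv : v ∈ A
    · rw [F1 _ hv]; simp
    · have h1 : F v = F v' := by
        rcases hG v v' hadj with h | h
        · rw [F2 v hv, h]
        · have h2 : v' ∉ A := by
            intro h3
            apply hv
            rw [← h]
            exact hA _ h3
          rw [F2 v' h2, h]
      rw [h1, SimpleGraph.Walk.support_cons]
      exact List.mem_cons_of_mem _ (ih hy)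

private theorem nearest {n : ℕ} (G : SimpleGraph (Fin n)) (hconn : G.Connected)
    (u x z : Fin n) (hz : ∀ w : G.Walk u x, z ∈ w.support) (hd : G.dist u x ≤ G.dist u z) :
    x = z := by
  obtain ⟨w, hw⟩ := hconn.exists_walk_length_eq_dist u x
  have h1 := hz w
  have h2 : (w.takeUntil z h1).length + (w.dropUntil z h1).length = w.length := by
    conv_rhs => rw [← w.take_spec h1]
    rw [SimpleGraph.Walk.length_append]
  have h3 := SimpleGraph.dist_le (w.takeUntil z h1)
  have h4 : (w.dropUntil z h1).length = 0 := by omega
  exact (SimpleGraph.Walk.eq_of_length_eq_zero h4).symm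

theorem rtG (n : ℕ) (r : Fin n) (p : Fin n → Fin n) (hp : p ∈ Forest univ {r})
    (e : Fin n → Bool) (d : Fin n → ℕ) (h : Fin n → ℤ) (m : ℕ) (st : Fin n → ℕ)
    (g : Fin n → Fin n) (a b : ℕ → ℕ) (leaf : ℕ → Bool)
    (hT : RT n (treeOf r p e) r p d h m st g a b leaf) (c : ℕ)
    (hc : ∑ s ∈ Icc 1 m, cost (cnt st s - 1) (a s) (b s) (leaf s) + 1 ≤ c) :
    ChainBound n (treeOf r p e) c := by
  have hadj : ∀ v, v ≠ r → (SimpleGraph.fromRel (treeOf r p e).Adj).Adj v (p v) := by
    intro v hv
    rw [SimpleGraph.fromRel_adj]
    refine ⟨?_, ?_⟩
    · intro h0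
      have := hT.rank v hv
      rw [← h0] at this
      exact lt_irrefl _ this
    · cases he : e v with
      | false => left; left; exact ⟨hv, rfl, he⟩
      | true => right; right; exact ⟨hv, rfl, he⟩
  have hG : ∀ v v', (SimpleGraph.fromRel (treeOf r p e).Adj).Adj v v' → p v = v' ∨ p v' = v := by
    intro v v' hv
    rw [SimpleGraph.fromRel_adj] at hv
    rcases hv.2 with (h1 | h1) | (h1 | h1)
    · exact Or.inl h1.2.1
    · exact Or.inr h1.2.1
    · exact Or.inr h1.2.1
    · exact Or.inl h1.2.1
  have hr : p r = r := root_of hp
  have hclosed : ∀ s v, st v ≤ s → st (p v) ≤ s := by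
    intro s v hv
    by_cases h0 : v = r
    · rw [h0, hr, ← h0]; exact hv
    · exact (hT.stm v h0).trans hv
  have hreach : ∀ (s : ℕ) (k : ℕ) (v : Fin n), d v = k → ∃ j : ℕ, st (p^[j] v) ≤ s := by
    intro s k
    induction k using Nat.strong_induction_on with
    | _ k ih =>
      intro v hv
      by_cases h0 : v = r
      · refine ⟨0, ?_⟩
        rw [h0]
        show st r ≤ s
        rw [hT.st0]; omega
      · have h1 := hT.rank v h0
        obtain ⟨j, hj⟩ := ih (d (p v)) (by omega) (p v) rfl
        exact ⟨j + 1, by rw [Function.iterate_succ_apply]; exact hj⟩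
  have hconn : ∀ s, ((SimpleGraph.fromRel (treeOf r p e).Adj).induce
      {i | st i ≤ s}).Connected := by
    intro s
    have hrs : st r ≤ s := by rw [hT.st0]; omega
    have key : ∀ (k : ℕ) (v : Fin n) (hv : st v ≤ s), d v = k →
        ((SimpleGraph.fromRel (treeOf r p e).Adj).induce {i | st i ≤ s}).Reachable
          ⟨v, hv⟩ ⟨r, hrs⟩ := by
      intro k
      induction k using Nat.strong_induction_on with
      | _ k ih =>
        intro v hv hk
        by_cases h0 : v = r
        · subst h0
          exact SimpleGraph.Reachable.refl _
        · have h1 := hT.rank v h0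
          have h2 := ih (d (p v)) (by omega) (p v) (hclosed s v hv) rfl
          refine SimpleGraph.Reachable.trans (SimpleGraph.Adj.reachable ?_) h2
          rw [SimpleGraph.comap_adj]
          exact hadj v h0
    have : Nonempty {i | st i ≤ s} := ⟨⟨r, hrs⟩⟩
    refine SimpleGraph.Connected.mk ?_
    intro x y
    exact (key _ x.1 x.2 rfl).trans (key _ y.1 y.2 rfl).symm
  have hcard : ∀ s, ({i | st i ≤ s} : Set (Fin n)).ncard = cnt st s := by
    intro s
    unfold cnt
    rw [← Set.ncard_coe_finset]
    congr 1
    ext i
    simp
  have hcnt : ∀ s, 1 ≤ cnt st s := by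
    intro s
    unfold cnt
    apply Finset.card_pos.mpr
    exact ⟨r, by rw [Finset.mem_filter]; exact ⟨Finset.mem_univ _, by rw [hT.st0]; omega⟩⟩
  have hGc : (SimpleGraph.fromRel (treeOf r p e).Adj).Connected := by
    have h1 := treeOf_otree r p hp e
    exact h1.2.1
  refine ⟨h, m, fun s => {i | st i ≤ s}, r,
    fun s => cost (cnt st s - 1) (a s) (b s) (leaf s), ?_, ?_, ?_, ?_, ?_, ?_, hc⟩
  · intro x y hxy
    rcases hT.cov x y hxy with h1 | h1
    · exact h1.2.2
    · exact h1.2.2
  · ext i
    simp only [Set.mem_ofPred_eq, Set.mem_singleton_iff]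
    constructor
    · intro h1
      by_contra h2
      have := (hT.st1 i h2).1
      omega
    · rintro rfl
      rw [hT.st0]
  · ext i
    simp only [Set.mem_ofPred_eq, Set.mem_univ, iff_true]
    by_cases h2 : i = r
    · rw [h2, hT.st0]; omega
    · exact (hT.st1 i h2).2
  · intro i _ x hx
    have hx' : st x ≤ i := hx
    show st x ≤ i + 1
    omega
  · intro i _
    exact hconn i
  · intro i hi1 him
    cases hl : leaf i with
    | true =>
      right
      refine ⟨?_, ?_⟩
      · intro u hu hu'
        have h1 : st u ≤ i := hu
        have h2 : ¬ st u ≤ i - 1 := hu'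
        have h3 : st u = i := by omega
        have h4 : u ≠ r := by
          intro h0
          rw [h0, hT.st0] at h2
          omega
        have h5 := hT.leafc u h4 (by rw [h3]; exact hl)
        refine ⟨p u, ?_, hadj u h4⟩
        show st (p u) ≤ i - 1
        omega
      · rw [hcard]
        show 4 * cnt st i - 6 ≤ cost (cnt st i - 1) (a i) (b i) (leaf i)
        unfold cost
        rw [if_pos hl]
        have := hcnt i
        omega
    | false =>
      left
      refine ⟨a i, b i, ?_, ?_⟩
      · intro u hu x hx hnear
        have hu1 : st u ≤ i := hu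
        have hx1 : st x ≤ i - 1 := hx
        by_cases hu2 : st u ≤ i - 1
        · have h1 := hnear u hu2
          rw [SimpleGraph.dist_self] at h1
          have h2 : u = x := (hGc.dist_eq_zero_iff).mp (by omega)
          rw [h2]
          constructor <;> omega
        · have h3 : st u = i := by omega
          have h4 : u ≠ r := by
            intro h0
            rw [h0, hT.st0] at hu2
            omega
          obtain ⟨F, F1, F2⟩ := first_anc p {v | st v ≤ i - 1}
            (fun v => hreach (i - 1) (d v) v rfl)
          have hF : ∀ (k : ℕ) (v : Fin n), d v = k → st v = i → F v = g v := by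
            intro k
            induction k using Nat.strong_induction_on with
            | _ k ih =>
              intro v hk hv
              have hvr : v ≠ r := by
                intro h0
                rw [h0, hT.st0] at hv
                omega
              have hvA : v ∉ ({v | st v ≤ i - 1} : Set (Fin n)) := by
                show ¬ st v ≤ i - 1
                omega
              rw [F2 v hvA]
              have h5 := hT.stm v hvr
              rcases Nat.lt_or_ge (st (p v)) (st v) with h6 | h6
              · rw [hT.g1 v hvr h6]
                apply F1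
                show st (p v) ≤ i - 1
                omega
              · have h7 : st (p v) = st v := le_antisymm h5 h6
                rw [hT.g2 v hvr h7]
                have h8 := hT.rank v hvr
                exact ih (d (p v)) (by omega) (p v) rfl (by omega)
          have hFu := hF (d u) u rfl h3
          have hgA : st (g u) ≤ i - 1 := by
            rw [← hFu]
            have hA' : ∀ (k : ℕ) (v : Fin n), d v = k → st (F v) ≤ i - 1 := by
              intro k
              induction k using Nat.strong_induction_on with
              | _ k ih =>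
                intro v hk
                by_cases hv : st v ≤ i - 1
                · rw [F1 v hv]; exact hv
                · rw [F2 v hv]
                  have hvr : v ≠ r := by
                    intro h0
                    rw [h0, hT.st0] at hv
                    omega
                  have h8 := hT.rank v hvr
                  exact ih (d (p v)) (by omega) (p v) rfl
            exact hA' _ u rfl
          have hx2 : x = g u := by
            apply nearest _ hGc u x (g u)
            · intro w
              rw [← hFu]
              exact walk_thru _ p F {v | st v ≤ i - 1} (fun v hv => hclosed _ v hv) hG F1 F2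
                u x w hx1
            · exact hnear (g u) hgA
          have h9 := hT.range u h4 (by rw [h3]; exact hl)
          rw [h3] at h9
          rw [hx2]
          constructor
          · linarith [h9.1]
          · linarith [h9.2]
      · rw [hcard]
        show (a i + b i) * (4 * cnt st i - 7) ≤ cost (cnt st i - 1) (a i) (b i) (leaf i)
        unfold cost
        rw [if_neg (by rw [hl]; simp)]
        have := hcnt i
        apply Nat.mul_le_mul_left
        omega

end Pool.AAT
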