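import Pool.Agent.AAT.Defs
import Pool.Agent.AAT.HtA
import Pool.Agent.AAT.RTD
import Pool.Agent.AAT.Rad

/-!
# AAT-RtRad: the stages by oscillation, cost `4 n + 64 Σ rad + 1`

PLAN. `h w = ht p e r w`, `d = dep p r`. OSCILLATION `osc v` = max over `w, w' ∈ fr p v` of
`|h w - h w'|` (`Finset.sup` twice of `natAbs`): (i) `osc v ≤ 2 rad p e v` (`ht_split`), (ii) `osc`
does not decrease from `v` to `p v` (`fr_parent`), (iii) if `w ∈ fr p v` then
`|h w - h v| ≤ osc v`; so for `i ≠ r`: `osc (p i) ≥ 1` (`ht_parent`).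
STAGES: `m = n + 3`, root stage `0`; for `i ≠ r`: `st i = m` if `osc i = 0`, else
`st i = m - 1 - Nat.log 2 (osc i)` (`1 ≤ st i` since `osc i ≤ 2 n`, `Nat.log 2 (2n) ≤ n + 1`).
`leaf s = true` iff `s = m`. For `s = m - 1 - j`: the vertices of stage `s` have
`2^j ≤ osc < 2^(j+1)`; `a s = b s = 2^(m - s) = 2^(j+1)`. Gate `g i` = `p^[l] i` for the least `l ≥ 1`
with `st (p^[l] i) < st i` (exists: the root; `g1`, `g2` follow). RANGE: let `y = p^[l-1] i` be the
vertex just below the gate; `st y = st i`, so `osc y < 2^(j+1)`; `i ∈ fr p y`, and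
`|h i - h (g i)| ≤ osc y + 1 ≤ 2^(j+1)`. LEAF: `osc i = 0` implies `st (p i) < m` as `osc (p i) ≥ 1`.
COST: stage `m`: `cost (n-1) _ _ true ≤ 4 n`. Stage `s = m-1-j`: `cnt st s - 1 ≤ x_j` with
`x_j = #{i ≠ r | 2^j ≤ osc i}`, cost `≤ 2^(j+2) (4 x_j - 3) ≤ 2^(j+4) x_j`. And
`Σ_j 2^j [2^j ≤ osc i] ≤ 2 osc i`, so the total is
`≤ 4 n + 32 Σ_{i≠r} osc i ≤ 4 n + 64 Σ_{i≠r} rad p e i`.
`RT.cov`/`hpm`: `treeOf` and `ht_parent` (`e y = true`: arc `p y → y`, `h y = h (p y) + 1`).
-/

set_option autoImplicit false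

namespace Pool.AAT

open Finset
open scoped Classical

/-- oscillation of the heights in the fringe -/
private noncomputable def osc {n : ℕ} (r : Fin n) (p : Fin n → Fin n) (e : Fin n → Bool)
    (v : Fin n) : ℕ :=
  (fr p v).sup (fun w => (fr p v).sup (fun w' => (ht p e r w - ht p e r w').natAbs))

private theorem osc_ge {n : ℕ} (r : Fin n) (p : Fin n → Fin n) (e : Fin n → Bool)
    (v w w' : Fin n) (hw : w ∈ fr p v) (hw' : w' ∈ fr p v) :
    |ht p e r w - ht p e r w'| ≤ osc r p e v := by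
  have h1 : (ht p e r w - ht p e r w').natAbs ≤
      (fr p v).sup (fun w' => (ht p e r w - ht p e r w').natAbs) :=
    Finset.le_sup (f := fun w' => (ht p e r w - ht p e r w').natAbs) hw'
  have h2 : (fr p v).sup (fun w' => (ht p e r w - ht p e r w').natAbs) ≤ osc r p e v :=
    Finset.le_sup (f := fun w => (fr p v).sup
      (fun w' => (ht p e r w - ht p e r w').natAbs)) hw
  have h3 := h1.trans h2
  rw [Int.abs_eq_natAbs]
  omega

private theorem osc_mono {n : ℕ} (r : Fin n) (p : Fin n → Fin n) (e : Fin n → Bool)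
    (v : Fin n) : osc r p e v ≤ osc r p e (p v) := by
  have hs := fr_parent p v
  unfold osc
  apply Finset.sup_le
  intro w hw
  apply Finset.sup_le
  intro w' hw'
  have h1 : (ht p e r w - ht p e r w').natAbs ≤
      (fr p (p v)).sup (fun w' => (ht p e r w - ht p e r w').natAbs) :=
    Finset.le_sup (f := fun w' => (ht p e r w - ht p e r w').natAbs) (hs hw')
  exact h1.trans (Finset.le_sup (f := fun w => (fr p (p v)).sup
      (fun w' => (ht p e r w - ht p e r w').natAbs)) (hs hw))

private theorem osc_rad {n : ℕ} (r : Fin n) (p : Fin n → Fin n) (hp : p ∈ Forest univ {r})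
    (e : Fin n → Bool) (v : Fin n) : osc r p e v ≤ 2 * rad p e v := by
  unfold osc
  apply Finset.sup_le
  intro w hw
  apply Finset.sup_le
  intro w' hw'
  have h1 : (ht p e v w).natAbs ≤ rad p e v :=
    Finset.le_sup (f := fun w => (ht p e v w).natAbs) hw
  have h2 : (ht p e v w').natAbs ≤ rad p e v :=
    Finset.le_sup (f := fun w => (ht p e v w).natAbs) hw'
  have h3 := ht_split r p hp e v w hw
  have h4 := ht_split r p hp e v w' hw'
  omega

private theorem osc_parent {n : ℕ} (r : Fin n) (p : Fin n → Fin n) (hp : p ∈ Forest univ {r})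
    (e : Fin n → Bool) (i : Fin n) (hi : i ≠ r) : 1 ≤ osc r p e (p i) := by
  have h1 := osc_ge r p e (p i) i (p i) (fr_parent p i (mem_fr_self p i)) (mem_fr_self p (p i))
  have h2 := ht_parent r p hp e i hi
  have h3 : sg (e i) = 1 ∨ sg (e i) = -1 := by
    unfold sg; split <;> simp
  have h4 : |ht p e r i - ht p e r (p i)| = 1 := by
    rw [h2]
    rcases h3 with h3 | h3 <;> rw [h3] <;> simp
  rw [h4] at h1
  omega

private theorem osc_lt {n : ℕ} (r : Fin n) (p : Fin n → Fin n) (hp : p ∈ Forest univ {r})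
    (e : Fin n → Bool) (i : Fin n) : osc r p e i < 2 ^ (n + 1) := by
  have h1 := osc_rad r p hp e i
  have h2 := rad_le_hgt p e i
  have h3 := hgt_lt p i
  have h4 : (fr p i).card ≤ n := by
    simpa using Finset.card_le_univ (fr p i)
  have h5 : n < 2 ^ n := Nat.lt_two_pow_self
  rw [pow_succ]
  omega

private theorem log_bd {n : ℕ} (r : Fin n) (p : Fin n → Fin n) (hp : p ∈ Forest univ {r})
    (e : Fin n → Bool) (i : Fin n) : Nat.log 2 (osc r p e i) ≤ n := by
  rcases Nat.eq_zero_or_pos (osc r p e i) with h | h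
  · rw [h]; simp
  · have := Nat.log_lt_of_lt_pow (b := 2) (by omega) (osc_lt r p hp e i)
    omega

/-- the stages -/
private noncomputable def sta {n : ℕ} (r : Fin n) (p : Fin n → Fin n) (e : Fin n → Bool)
    (i : Fin n) : ℕ :=
  if i = r then 0 else if osc r p e i = 0 then n + 3 else n + 2 - Nat.log 2 (osc r p e i)

private theorem sta_root {n : ℕ} (r : Fin n) (p : Fin n → Fin n) (e : Fin n → Bool) :
    sta r p e r = 0 := by
  unfold sta; simp

private theorem sta_zero {n : ℕ} (r : Fin n) (p : Fin n → Fin n) (e : Fin n → Bool)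
    (i : Fin n) (hi : i ≠ r) (h : osc r p e i = 0) : sta r p e i = n + 3 := by
  unfold sta; rw [if_neg hi, if_pos h]

private theorem sta_pos {n : ℕ} (r : Fin n) (p : Fin n → Fin n) (e : Fin n → Bool)
    (i : Fin n) (hi : i ≠ r) (h : osc r p e i ≠ 0) :
    sta r p e i = n + 2 - Nat.log 2 (osc r p e i) := by
  unfold sta; rw [if_neg hi, if_neg h]

private theorem sta_bd {n : ℕ} (r : Fin n) (p : Fin n → Fin n) (hp : p ∈ Forest univ {r})
    (e : Fin n → Bool) (i : Fin n) (hi : i ≠ r) : 1 ≤ sta r p e i ∧ sta r p e i ≤ n + 3 := by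
  have h1 := log_bd r p hp e i
  by_cases h : osc r p e i = 0
  · rw [sta_zero r p e i hi h]; omega
  · rw [sta_pos r p e i hi h]; omega

private theorem sta_mono {n : ℕ} (r : Fin n) (p : Fin n → Fin n) (hp : p ∈ Forest univ {r})
    (e : Fin n → Bool) (i : Fin n) (hi : i ≠ r) : sta r p e (p i) ≤ sta r p e i := by
  by_cases h0 : p i = r
  · rw [h0, sta_root]; omega
  have h1 := osc_parent r p hp e i hi
  have h2 := osc_mono r p e i
  rw [sta_pos r p e (p i) h0 (by omega)]
  by_cases h : osc r p e i = 0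
  · rw [sta_zero r p e i hi h]; omega
  · rw [sta_pos r p e i hi h]
    have h3 : Nat.log 2 (osc r p e i) ≤ Nat.log 2 (osc r p e (p i)) := Nat.log_mono_right h2
    omega

private theorem mem_for {α : Type} [Fintype α] (V R : Finset α) (p : α → α)
    (hp : p ∈ Forest V R) : (∀ x, x ∉ V \ R → p x = x) ∧ (∀ x ∈ V \ R, p x ∈ V) ∧
    ∀ x ∈ V, ∃ i : ℕ, p^[i] x ∈ R := by
  unfold Forest at hp
  rw [Finset.mem_filter] at hp
  exact hp.2

private theorem root_fix {n : ℕ} (r : Fin n) (p : Fin n → Fin n) (hp : p ∈ Forest univ {r}) :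
    p r = r := by
  exact (mem_for _ _ p hp).1 r (by simp)

private theorem reach {n : ℕ} (r : Fin n) (p : Fin n → Fin n) (hp : p ∈ Forest univ {r})
    (i : Fin n) : ∃ k : ℕ, p^[k] i = r := by
  obtain ⟨k, hk⟩ := (mem_for _ _ p hp).2.2 i (Finset.mem_univ _)
  exact ⟨k, by simpa using hk⟩

private theorem sta_iter {n : ℕ} (r : Fin n) (p : Fin n → Fin n) (hp : p ∈ Forest univ {r})
    (e : Fin n → Bool) (i : Fin n) (k : ℕ) : sta r p e (p^[k] i) ≤ sta r p e i := by
  induction k with
  | zero => simp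
  | succ k ih =>
    rw [Function.iterate_succ_apply']
    by_cases h : p^[k] i = r
    · rw [h, root_fix r p hp, sta_root]; omega
    · exact (sta_mono r p hp e _ h).trans ih

/-- the gate -/
private noncomputable def gat {n : ℕ} (r : Fin n) (p : Fin n → Fin n) (e : Fin n → Bool)
    (i : Fin n) : Fin n :=
  if h : ∃ k, sta r p e (p^[k] i) < sta r p e i then p^[Nat.find h] i else i

private theorem gat_ex {n : ℕ} (r : Fin n) (p : Fin n → Fin n) (hp : p ∈ Forest univ {r})
    (e : Fin n → Bool) (i : Fin n) (hi : i ≠ r) :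
    ∃ k, sta r p e (p^[k] i) < sta r p e i := by
  obtain ⟨k, hk⟩ := reach r p hp i
  refine ⟨k, ?_⟩
  rw [hk, sta_root]
  exact (sta_bd r p hp e i hi).1

private theorem gat_one {n : ℕ} (r : Fin n) (p : Fin n → Fin n) (hp : p ∈ Forest univ {r})
    (e : Fin n → Bool) (i : Fin n) (hi : i ≠ r) (h : sta r p e (p i) < sta r p e i) :
    gat r p e i = p i := by
  have hex := gat_ex r p hp e i hi
  unfold gat
  rw [dif_pos hex]
  have : Nat.find hex = 1 := by
    rw [Nat.find_eq_iff]
    refine ⟨h, ?_⟩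
    intro k hk
    have : k = 0 := by omega
    subst this
    simp
  rw [this]
  rfl

private theorem gat_two {n : ℕ} (r : Fin n) (p : Fin n → Fin n) (hp : p ∈ Forest univ {r})
    (e : Fin n → Bool) (i : Fin n) (hi : i ≠ r) (h : sta r p e (p i) = sta r p e i) :
    gat r p e i = gat r p e (p i) := by
  have hex := gat_ex r p hp e i hi
  have hpi : p i ≠ r := by
    intro h0
    rw [h0, sta_root] at h
    have := (sta_bd r p hp e i hi).1
    omega
  have hex2 := gat_ex r p hp e (p i) hpi
  unfold gat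
  rw [dif_pos hex, dif_pos hex2]
  have hex3 : ∃ k, sta r p e (p^[k + 1] i) < sta r p e i := by
    obtain ⟨k, hk⟩ := hex2
    refine ⟨k, ?_⟩
    rw [Function.iterate_succ_apply, ← h]
    exact hk
  have h1 : Nat.find hex = Nat.find hex3 + 1 :=
    Nat.find_comp_succ hex hex3 (by simp)
  have h2 : Nat.find hex3 = Nat.find hex2 := by
    apply le_antisymm
    · apply Nat.find_min'
      rw [Function.iterate_succ_apply, ← h]
      exact Nat.find_spec hex2
    · apply Nat.find_min'
      rw [← Function.iterate_succ_apply, h]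
      exact Nat.find_spec hex3
  rw [h1, h2, Function.iterate_succ_apply]

private theorem iter_fr {n : ℕ} (p : Fin n → Fin n) (i : Fin n) (k : ℕ) :
    i ∈ fr p (p^[k] i) := by
  unfold fr
  rw [Finset.mem_filter]
  exact ⟨Finset.mem_univ _, k, rfl⟩

private theorem gat_range {n : ℕ} (r : Fin n) (p : Fin n → Fin n) (hp : p ∈ Forest univ {r})
    (e : Fin n → Bool) (i : Fin n) (hi : i ≠ r) (h : sta r p e i ≠ n + 3) :
    |ht p e r i - ht p e r (gat r p e i)| ≤ 2 ^ (n + 3 - sta r p e i) := by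
  have hex := gat_ex r p hp e i hi
  have hg : gat r p e i = p^[Nat.find hex] i := by
    unfold gat; rw [dif_pos hex]
  have hk : Nat.find hex ≠ 0 := by
    intro h0
    have := Nat.find_spec hex
    rw [h0] at this
    simp at this
  obtain ⟨k, hk⟩ := Nat.exists_eq_succ_of_ne_zero hk
  have hmin : ¬ sta r p e (p^[k] i) < sta r p e i := Nat.find_min hex (by omega)
  have hle := sta_iter r p hp e i k
  have hsy : sta r p e (p^[k] i) = sta r p e i := by omega
  set y := p^[k] i with hy
  have hbd := sta_bd r p hp e i hi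
  have hyr : y ≠ r := by
    intro h0
    rw [h0, sta_root] at hsy
    omega
  have hoy : osc r p e y ≠ 0 := by
    intro h0
    rw [sta_zero r p e y hyr h0] at hsy
    omega
  have hsty := sta_pos r p e y hyr hoy
  have hlog := log_bd r p hp e y
  have h1 : osc r p e y < 2 ^ (n + 3 - sta r p e i) := by
    have h2 := Nat.lt_pow_succ_log_self (b := 2) (by norm_num) (osc r p e y)
    have h3 : Nat.succ (Nat.log 2 (osc r p e y)) = n + 3 - sta r p e i := by omega
    rw [h3] at h2
    exact h2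
  have h4 := osc_ge r p e y i y (iter_fr p i k) (mem_fr_self p y)
  have h5 := ht_parent r p hp e y hyr
  have h6 : sg (e y) = 1 ∨ sg (e y) = -1 := by
    unfold sg; split <;> simp
  have h7 : gat r p e i = p y := by
    rw [hg, hk, Function.iterate_succ_apply']
  rw [h7]
  have h8 : (osc r p e y : ℤ) + 1 ≤ 2 ^ (n + 3 - sta r p e i) := by
    exact_mod_cast h1
  rw [abs_le] at h4 ⊢
  rcases h6 with h6 | h6 <;> rw [h6] at h5 <;> constructor <;> linarith [h4.1, h4.2]

private theorem dyad (N J : ℕ) :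
    (∑ j ∈ range J, if 2 ^ j ≤ N then 2 ^ j else 0) ≤ 2 * N ∧
      (∑ j ∈ range J, if 2 ^ j ≤ N then 2 ^ j else 0) + 1 ≤ 2 ^ J := by
  induction J with
  | zero => simp
  | succ J ih =>
    rw [Finset.sum_range_succ]
    split
    · rename_i h
      constructor
      · omega
      · rw [pow_succ]; omega
    · constructor
      · omega
      · rw [pow_succ]; omega

private theorem cnt_bd {n : ℕ} (r : Fin n) (p : Fin n → Fin n) (hp : p ∈ Forest univ {r})
    (e : Fin n → Bool) (s : ℕ) (_h1 : 1 ≤ s) (h2 : s ≤ n + 2) :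
    cnt (sta r p e) s - 1 ≤ ((univ.erase r).filter
      (fun i => 2 ^ (n + 2 - s) ≤ osc r p e i)).card := by
  unfold cnt
  have : (univ.filter (fun i => sta r p e i ≤ s)) ⊆ insert r ((univ.erase r).filter
      (fun i => 2 ^ (n + 2 - s) ≤ osc r p e i)) := by
    intro i hi
    rw [Finset.mem_filter] at hi
    rw [Finset.mem_insert, Finset.mem_filter, Finset.mem_erase]
    by_cases hr : i = r
    · exact Or.inl hr
    right
    refine ⟨⟨hr, Finset.mem_univ _⟩, ?_⟩
    have h3 : osc r p e i ≠ 0 := by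
      intro h0
      have := sta_zero r p e i hr h0
      omega
    have h4 := sta_pos r p e i hr h3
    have h5 := log_bd r p hp e i
    apply Nat.pow_le_of_le_log h3
    omega
  have h3 := (Finset.card_le_card this).trans (Finset.card_insert_le _ _)
  omega

private theorem cost_bd {n : ℕ} (r : Fin n) (p : Fin n → Fin n) (hp : p ∈ Forest univ {r})
    (e : Fin n → Bool) :
    ∑ s ∈ Icc 1 (n + 3), cost (cnt (sta r p e) s - 1) (2 ^ (n + 3 - s)) (2 ^ (n + 3 - s))
      (decide (s = n + 3)) ≤ 4 * n + 64 * ∑ v ∈ univ.erase r, rad p e v := by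
  rw [Finset.sum_Icc_succ_top (by omega)]
  have h1 : cost (cnt (sta r p e) (n + 2 + 1) - 1) (2 ^ (n + 3 - (n + 2 + 1)))
      (2 ^ (n + 3 - (n + 2 + 1))) (decide (n + 2 + 1 = n + 3)) ≤ 4 * n := by
    unfold cost
    rw [if_pos (by simp)]
    have : cnt (sta r p e) (n + 2 + 1) ≤ n := by
      unfold cnt
      exact (Finset.card_filter_le _ _).trans (by simp)
    omega
  have h2 : ∀ s ∈ Icc 1 (n + 2), cost (cnt (sta r p e) s - 1) (2 ^ (n + 3 - s))
      (2 ^ (n + 3 - s)) (decide (s = n + 3)) ≤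
        16 * ∑ i ∈ univ.erase r, if 2 ^ (n + 2 - s) ≤ osc r p e i then 2 ^ (n + 2 - s) else 0 := by
    intro s hs
    rw [Finset.mem_Icc] at hs
    have h3 := cnt_bd r p hp e s hs.1 hs.2
    rw [← Finset.sum_filter, Finset.sum_const, smul_eq_mul]
    set x := ((univ.erase r).filter (fun i => 2 ^ (n + 2 - s) ≤ osc r p e i)).card
    unfold cost
    rw [if_neg (by simp; omega)]
    have h4 : n + 3 - s = (n + 2 - s) + 1 := by omega
    rw [h4, pow_succ]
    set q := 2 ^ (n + 2 - s)
    calc (q * 2 + q * 2) * (4 * (cnt (sta r p e) s - 1) - 3)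
        ≤ (q * 2 + q * 2) * (4 * x) := Nat.mul_le_mul_left _ (by omega)
      _ = 16 * (x * q) := by ring
  have h3 : ∑ s ∈ Icc 1 (n + 2), cost (cnt (sta r p e) s - 1) (2 ^ (n + 3 - s))
      (2 ^ (n + 3 - s)) (decide (s = n + 3)) ≤
        ∑ s ∈ Icc 1 (n + 2), 16 * ∑ i ∈ univ.erase r,
          if 2 ^ (n + 2 - s) ≤ osc r p e i then 2 ^ (n + 2 - s) else 0 :=
    Finset.sum_le_sum h2
  have h4 : ∑ s ∈ Icc 1 (n + 2), 16 * ∑ i ∈ univ.erase r,
          (if 2 ^ (n + 2 - s) ≤ osc r p e i then 2 ^ (n + 2 - s) else 0) =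
      ∑ j ∈ range (n + 2), 16 * ∑ i ∈ univ.erase r,
          (if 2 ^ j ≤ osc r p e i then 2 ^ j else 0) := by
    refine Finset.sum_nbij' (fun s => n + 2 - s) (fun j => n + 2 - j) ?_ ?_ ?_ ?_ ?_
    · intro s hs
      rw [Finset.mem_Icc] at hs
      rw [Finset.mem_range]; omega
    · intro s hs
      rw [Finset.mem_range] at hs
      rw [Finset.mem_Icc]; omega
    · intro s hs
      rw [Finset.mem_Icc] at hs
      show n + 2 - (n + 2 - s) = s
      omega
    · intro s hs
      rw [Finset.mem_range] at hs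
      show n + 2 - (n + 2 - s) = s
      omega
    · intro s hs
      rfl
  have h5 : ∑ j ∈ range (n + 2), 16 * ∑ i ∈ univ.erase r,
          (if 2 ^ j ≤ osc r p e i then 2 ^ j else 0) ≤ 64 * ∑ v ∈ univ.erase r, rad p e v := by
    rw [← Finset.mul_sum, Finset.sum_comm]
    have h6 : ∀ i ∈ univ.erase r, (∑ j ∈ range (n + 2),
        (if 2 ^ j ≤ osc r p e i then 2 ^ j else 0)) ≤ 4 * rad p e i := by
      intro i _
      have h7 := (dyad (osc r p e i) (n + 2)).1
      have h8 := osc_rad r p hp e i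
      omega
    calc 16 * ∑ i ∈ univ.erase r, ∑ j ∈ range (n + 2),
          (if 2 ^ j ≤ osc r p e i then 2 ^ j else 0)
        ≤ 16 * ∑ i ∈ univ.erase r, 4 * rad p e i :=
          Nat.mul_le_mul_left _ (Finset.sum_le_sum h6)
      _ = 64 * ∑ v ∈ univ.erase r, rad p e v := by
          rw [← Finset.mul_sum]; ring
  have h6 := h3.trans (h4.le.trans h5)
  exact (Nat.add_le_add h6 h1).trans (by omega)

theorem rt_rad {n : ℕ} (r : Fin n) (p : Fin n → Fin n) (hp : p ∈ Forest univ {r})
    (e : Fin n → Bool) :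
    ∃ (d : Fin n → ℕ) (h : Fin n → ℤ) (m : ℕ) (st : Fin n → ℕ) (g : Fin n → Fin n)
      (a b : ℕ → ℕ) (leaf : ℕ → Bool), RT n (treeOf r p e) r p d h m st g a b leaf ∧
      ∑ s ∈ Icc 1 m, cost (cnt st s - 1) (a s) (b s) (leaf s) ≤
        4 * n + 64 * ∑ v ∈ univ.erase r, rad p e v := by
  refine ⟨dep p r, ht p e r, n + 3, sta r p e, gat r p e, fun s => 2 ^ (n + 3 - s),
    fun s => 2 ^ (n + 3 - s), fun s => decide (s = n + 3), ?_, cost_bd r p hp e⟩
  refine { rank := ?_, cov := ?_, hpm := ?_, st0 := sta_root r p e, st1 := sta_bd r p hp e,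
           stm := sta_mono r p hp e, g1 := gat_one r p hp e, g2 := gat_two r p hp e,
           range := ?_, leafc := ?_ }
  · intro i hi
    have := dep_parent r p hp i hi
    omega
  · intro x y hxy
    rcases hxy with ⟨h1, h2, h3⟩ | ⟨h1, h2, h3⟩
    · right
      refine ⟨h1, h2, ?_⟩
      have h4 := ht_parent r p hp e x h1
      rw [h3, h2] at h4
      unfold sg at h4
      simp at h4
      omega
    · left
      refine ⟨h1, h2, ?_⟩
      have h4 := ht_parent r p hp e y h1
      rw [h3, h2] at h4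
      unfold sg at h4
      simpa using h4
  · intro i hi
    have h4 := ht_parent r p hp e i hi
    unfold sg at h4
    split at h4
    · left; exact h4
    · right; omega
  · intro i hi hl
    have h1 : sta r p e i ≠ n + 3 := by simpa using hl
    have h2 := gat_range r p hp e i hi h1
    rw [abs_le] at h2
    push_cast
    exact h2
  · intro i hi hl
    have h1 : sta r p e i = n + 3 := by simpa using hl
    rw [h1]
    by_cases h0 : p i = r
    · rw [h0, sta_root]; omega
    have h2 := osc_parent r p hp e i hi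
    rw [sta_pos r p e (p i) h0 (by omega)]
    omega

end Pool.AAT
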