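import Pool.Agent.AAT.Defs
import Pool.Agent.AAT.Conc
import Pool.Agent.AAT.TreeC
import Pool.Agent.AAT.RtRad
import Pool.Agent.AAT.RtG

/-!
# AAT-FinA: almost all oriented trees have a chain of linear cost

PLAN. `C` from `conc`; take `C' = ⌈64 C⌉ + 5`. For large `n` and `r : Fin n` (e.g. `0`): if
`Σ_{v≠r} rad ≤ C n` then `4 n + 64 Σ rad + 1 ≤ C' n`, so `rt_rad` and `rtG` give
`ChainBound n (treeOf r p e) (C' n)`. By `card_pairs` (for `Q T = ¬ ChainBound n T (C' * n)` and for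
`Q = True`) the ratio of the `ncard`s is the ratio of the numbers of pairs, `≤ ε` by `conc`.
`(Forest univ {r}).card * 2^n` = number of all pairs.
-/

set_option autoImplicit false

namespace Pool.AAT

open Finset
open scoped Classical

private theorem pairs_card {n : ℕ} (r : Fin n) (Q : Digraph (Fin n) → Prop)
    (s : Finset ((Fin n → Fin n) × (Fin n → Bool)))
    (hs : ∀ x, x ∈ s ↔ x ∈ ((Forest univ {r} : Finset (Fin n → Fin n)) ×ˢ
      (univ : Finset (Fin n → Bool))) ∧ Q (treeOf r x.1 x.2)) :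
    s.card = 2 * {T | OTree n T ∧ Q T}.ncard := by
  rw [← card_pairs r Q]
  congr 1
  ext x
  rw [hs, Finset.mem_filter]

theorem finA : ∃ C : ℕ, Filter.Tendsto (fun n : ℕ =>
    ({T : Digraph (Fin n) | OTree n T ∧ ¬ ChainBound n T (C * n)}.ncard : ℝ) /
      ({T : Digraph (Fin n) | OTree n T}.ncard : ℝ)) Filter.atTop (nhds 0) := by
  obtain ⟨C, hC, H⟩ := conc
  refine ⟨⌈64 * C⌉₊ + 5, ?_⟩
  rw [Metric.tendsto_atTop]
  intro ε hε
  obtain ⟨n0, hn0⟩ := H (ε / 2) (by positivity)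
  refine ⟨max n0 1, ?_⟩
  intro n hn
  have hn1 : 1 ≤ n := le_trans (le_max_right _ _) hn
  have hnn : n0 ≤ n := le_trans (le_max_left _ _) hn
  have r : Fin n := ⟨0, hn1⟩
  have h1 := hn0 n hnn r
  have h2 := pairs_card r (fun T => ¬ ChainBound n T ((⌈64 * C⌉₊ + 5) * n))
    (((Forest univ {r} : Finset (Fin n → Fin n)) ×ˢ
      (univ : Finset (Fin n → Bool))).filter
        (fun x => ¬ ChainBound n (treeOf r x.1 x.2) ((⌈64 * C⌉₊ + 5) * n)))
    (fun x => Finset.mem_filter)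
  have h3 := pairs_card r (fun _ => True) ((Forest univ {r} : Finset (Fin n → Fin n)) ×ˢ
      (univ : Finset (Fin n → Bool))) (fun x => by simp)
  have h5 : 2 * {T : Digraph (Fin n) | OTree n T ∧
      ¬ ChainBound n T ((⌈64 * C⌉₊ + 5) * n)}.ncard ≤
      (((Forest univ {r} : Finset (Fin n → Fin n)) ×ˢ (univ : Finset (Fin n → Bool))).filter
        (fun x => C * n < ∑ v ∈ univ.erase r, (rad x.1 x.2 v : ℝ))).card := by
    rw [← h2]
    apply Finset.card_le_card
    intro x hx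
    rw [Finset.mem_filter] at hx ⊢
    refine ⟨hx.1, ?_⟩
    by_contra hle
    apply hx.2
    have hp : x.1 ∈ Forest univ {r} := (Finset.mem_product.mp hx.1).1
    obtain ⟨d, h, m, st, g, a, b, leaf, hRT, hcost⟩ := rt_rad r x.1 hp x.2
    refine rtG n r x.1 hp x.2 d h m st g a b leaf hRT _ ?_
    push Not at hle
    have e1 : ((∑ v ∈ univ.erase r, rad x.1 x.2 v : ℕ) : ℝ) ≤ C * n := by
      push_cast
      exact hle
    have e2 : (64 * (∑ v ∈ univ.erase r, rad x.1 x.2 v : ℕ) : ℝ) ≤ (⌈64 * C⌉₊ : ℝ) * n := by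
      have := Nat.le_ceil (64 * C)
      have hn' : (0 : ℝ) ≤ n := Nat.cast_nonneg n
      nlinarith
    have e3 : 64 * (∑ v ∈ univ.erase r, rad x.1 x.2 v) ≤ ⌈64 * C⌉₊ * n := by
      exact_mod_cast e2
    calc _ ≤ 4 * n + 64 * ∑ v ∈ univ.erase r, rad x.1 x.2 v + 1 := by omega
      _ ≤ 4 * n + ⌈64 * C⌉₊ * n + 1 := by omega
      _ ≤ (⌈64 * C⌉₊ + 5) * n := by
        have : (⌈64 * C⌉₊ + 5) * n = ⌈64 * C⌉₊ * n + 5 * n := by ring
        rw [this]
        omega
  have h6 : {T : Digraph (Fin n) | OTree n T ∧ True} = {T : Digraph (Fin n) | OTree n T} := by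
    ext T; simp
  rw [h6, Finset.card_product] at h3
  simp only [Finset.card_univ, Fintype.card_fun, Fintype.card_bool, Fintype.card_fin] at h3
  set A := {T : Digraph (Fin n) | OTree n T ∧ ¬ ChainBound n T ((⌈64 * C⌉₊ + 5) * n)}.ncard
    with hA
  set B := {T : Digraph (Fin n) | OTree n T}.ncard with hB
  have h7 : (2 * A : ℝ) ≤ ε / 2 * (2 * B) := by
    have e1 : ((2 * A : ℕ) : ℝ) ≤ _ := Nat.cast_le.mpr h5
    have e2 : (((Forest univ {r} : Finset (Fin n → Fin n)).card : ℝ) * 2 ^ n) = 2 * B := by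
      exact_mod_cast h3
    rw [e2] at h1
    push_cast at e1
    exact e1.trans h1
  rw [Real.dist_eq, sub_zero, abs_of_nonneg (by positivity)]
  rcases Nat.eq_zero_or_pos B with h0 | h0
  · rw [h0]
    simpa using hε
  · rw [div_lt_iff₀ (by exact_mod_cast h0)]
    have : (0 : ℝ) < B := by exact_mod_cast h0
    nlinarith

end Pool.AAT
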