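import Mathlib

/-!
# AAT-StageD: stages (definitions only, nothing to prove)
-/

set_option autoImplicit false

namespace Pool.AAT

open Finset
open scoped Classical

variable {V : Type}

/-- Every vertex with property `P` has at least `t` out-neighbours with property `Q`. -/
def StepUp (R : V → V → Prop) (t : ℕ) (P Q : V → Prop) : Prop :=
  ∀ v, P v → ∃ Z : Finset V, t ≤ Z.card ∧ v ∉ Z ∧ ∀ z ∈ Z, Q z ∧ R v z

/-- Every vertex with property `P` has at least `t` in-neighbours with property `Q`. -/
def StepDn (R : V → V → Prop) (t : ℕ) (P Q : V → Prop) : Prop :=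
  ∀ v, P v → ∃ Z : Finset V, t ≤ Z.card ∧ v ∉ Z ∧ ∀ z ∈ Z, Q z ∧ R z v

/-- One stage: from the vertices of `W'` all pieces with heights in `[-a, b]` (only single
leaves if `leaf = true`) can be embedded greedily into `W`, with `t` choices at each step.
`P j` are the vertices that may be used at relative height `j`. -/
structure Stage (R : V → V → Prop) (t a b : ℕ) (leaf : Bool) (W W' : Finset V)
    (P : ℤ → V → Prop) : Prop where
  sub : W' ⊆ W
  gate : ∀ v ∈ W', P 0 v
  mem : ∀ j v, P j v → v ∈ W
  up : ∀ j : ℤ, (if leaf = true then j = 0 else -(a : ℤ) ≤ j ∧ j < b) →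
    StepUp R t (P j) (P (j + 1))
  dn : ∀ j : ℤ, (if leaf = true then j = 0 else -(a : ℤ) < j ∧ j ≤ b) →
    StepDn R t (P j) (P (j - 1))

/-- The cost of a stage (`t + 1` is the number of tree vertices embedded after the stage). -/
def cost (t a b : ℕ) (leaf : Bool) : ℕ := if leaf = true then 4 * t - 2 else (a + b) * (4 * t - 3)

end Pool.AAT
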